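import Pool.Agent.Run7.h26.QI.Ct8

/-!
The share of the good elements among the squarefree Gaussian integers with imaginary part not divisible
by four.
-/

set_option autoImplicit false
set_option linter.unusedVariables false

open scoped Classical

namespace Run7.h26.QI

open Finset Filter
open H385 (ZI nrm im1)
open Pool.Agent.Y699 hiding kk f1 f2 LE f1_hasProd f2_hasProd sg qr_prod
open Pool.Agent.W164.RC (two2 prim_iff_dvd unit_norm unit_cases)
open Pool.Agent.H304R2.EC.A1 (prim prim_mul prim_cancel prim_one prim_ne_zero prim_norm_odd eq_one_of_prim)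
open Pool.Agent.Y703.CQ (c2)
open Pool.Agent.H691.GZ

/-- squarefree with imaginary part not divisible by four -/
def Cov (g : ZI) : Prop := Squarefree g ∧ ¬ (4 : ℤ) ∣ g.im

theorem cov_one {D : ZI} (hD : PS D) {u : ZI} (hu : u = 1 ∨ u = -1) :
    ¬ (4 : ℤ) ∣ (u * D).im ↔ ClsE {5, 13} D := by
  have h1 := hD.prm
  obtain ⟨a1, a2⟩ := h1
  have h0 : ((nrm D : ℕ) : ℤ) = D.norm := GaussianInt.abs_natCast_norm D
  have hn : D.norm = D.re * D.re + D.im * D.im := by
    rw [Zsqrtd.norm_def]; ring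
  have hi : (4 : ℤ) ∣ (u * D).im ↔ (4 : ℤ) ∣ D.im := by
    rcases hu with h | h <;> rw [h]
    · rw [one_mul]
    · rw [neg_one_mul, Zsqrtd.im_neg, dvd_neg]
  rw [hi]
  have key : (D.norm % 8 = 5) ↔ ¬ (4 : ℤ) ∣ D.im := by
    obtain ⟨k, hk⟩ : ∃ k, D.im = 2 * k := ⟨D.im / 2, by omega⟩
    obtain ⟨r, hr⟩ : ∃ r, D.re = 2 * r + 1 := ⟨D.re / 2, by omega⟩
    have e : D.norm = 4 * (r * (r + 1)) + 4 * (k * k) + 1 := by rw [hn, hk, hr]; ring
    obtain ⟨t, ht⟩ := Int.even_mul_succ_self r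
    have e2 : D.norm = 8 * t + 4 * (k * k) + 1 := by rw [e, ht]; ring
    rcases Int.even_or_odd k with ⟨l, hl⟩ | ⟨l, hl⟩
    · have e3 : D.norm = 8 * (t + 2 * (l * l)) + 1 := by rw [e2, hl]; ring
      constructor
      · intro h; omega
      · intro h
        exact absurd (⟨l, by rw [hk, hl]; ring⟩ : (4 : ℤ) ∣ D.im) h
    · have e3 : D.norm = 8 * (t + 2 * (l * l) + 2 * l) + 5 := by rw [e2, hl]; ring
      constructor
      · intro h h4
        omega
      · intro h; omega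
  rw [← key]
  constructor
  · intro h
    refine ⟨hD, ?_⟩
    rw [Finset.mem_insert, Finset.mem_singleton]
    rw [← h0] at h
    omega
  · intro h
    have h2 := h.2
    rw [Finset.mem_insert, Finset.mem_singleton] at h2
    rw [← h0]
    omega

theorem cov_i {D : ZI} (hD : prim D) {u : ZI} (hu : u = im1 ∨ u = -im1) : ¬ (4 : ℤ) ∣ (u * D).im := by
  obtain ⟨a1, a2⟩ := hD
  rcases hu with h | h <;> rw [h]
  · have : (im1 * D).im = D.re := by
      simp [Zsqrtd.im_mul, im1]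
    rw [this]; omega
  · have : (-im1 * D).im = -D.re := by
      simp [Zsqrtd.im_mul, im1]
    rw [this]; omega

theorem cov_even {D : ZI} (hD : D.norm % 2 = 1) : ¬ (4 : ℤ) ∣ (pi1 * D).im := by
  have hn : D.norm = D.re * D.re + D.im * D.im := by
    rw [Zsqrtd.norm_def]; ring
  have h1 : (pi1 * D).im = D.re + D.im := by
    simp [Zsqrtd.im_mul, pi1]
    ring
  rw [h1]
  intro h
  obtain ⟨k, hk⟩ := h
  have e : D.re = 4 * k - D.im := by omega
  rw [hn, e] at hD
  have e2 : (4 * k - D.im) * (4 * k - D.im) + D.im * D.im = 2 * (8 * (k * k) - 4 * (k * D.im) + D.im * D.im) := by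
    ring
  rw [e2] at hD
  omega

theorem count_cov (X : ℕ) : nQ Cov X = 2 * (SS {5, 13} X).card + 2 * sA X + 4 * sA (X / 2) := by
  rw [nQ_classes (fun g h => h.1), sum_UU]
  have h1 : ∀ u : ZI, (u = 1 ∨ u = -1) → nQ (fun D => prim D ∧ Cov (u * D)) X = (SS {5, 13} X).card := by
    intro u hu
    rw [← NS.card_cls]
    have hun : u.norm = 1 := by rcases hu with h | h <;> rw [h] <;> decide
    refine nQ_congr (Q' := ClsE {5, 13}) (fun g => ?_) X
    constructor
    · rintro ⟨h2, h3, h4⟩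
      exact (cov_one ⟨h2, (sqf_unit hun).1 h3⟩ hu).1 h4
    · intro h
      exact ⟨h.ps.prm, (sqf_unit hun).2 h.ps.sqf, (cov_one h.ps hu).2 h⟩
  have h2 : ∀ u : ZI, (u = im1 ∨ u = -im1) → nQ (fun D => prim D ∧ Cov (u * D)) X = sA X := by
    intro u hu
    have hun : u.norm = 1 := by rcases hu with h | h <;> rw [h] <;> decide
    unfold sA
    refine nQ_congr (Q' := PS) (fun g => ?_) X
    constructor
    · rintro ⟨h2, h3, h4⟩
      exact ⟨h2, (sqf_unit hun).1 h3⟩
    · intro h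
      exact ⟨h.prm, (sqf_unit hun).2 h.sqf, cov_i h.prm hu⟩
  have h3 : ∀ u ∈ UU, ∀ Y, nQ (fun D => prim D ∧ Cov (pi1 * (u * D))) Y = sA Y := by
    intro u hu Y
    unfold sA
    refine nQ_congr (Q' := PS) (fun g => ?_) Y
    have hun := mem_UU.1 hu
    have e : pi1 * (u * g) = u * (pi1 * g) := by ring
    constructor
    · rintro ⟨h3, h4, h5⟩
      rw [e, sqf_unit hun, sqf_pi h3] at h4
      exact ⟨h3, h4⟩
    · intro h3
      refine ⟨h3.prm, ?_, ?_⟩
      · rw [e, sqf_unit hun, sqf_pi h3.prm]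
        exact h3.sqf
      · apply cov_even
        rw [Zsqrtd.norm_mul, hun, one_mul]
        exact prim_norm_odd h3.prm
  rw [h1 1 (Or.inl rfl), h1 (-1) (Or.inr rfl), h2 im1 (Or.inl rfl), h2 (-im1) (Or.inr rfl),
    sum_congr rfl fun u hu => h3 u hu (X / 2), sum_const]
  have : UU.card = 4 := rfl
  rw [this]
  ring

theorem share_cov : Tendsto (fun X : ℕ => (nQ GoodG X : ℝ) / (nQ Cov X : ℝ)) atTop (nhds c2) := by
  have hi : cc3 im1 := Or.inl rfl
  have hp : cc3 pi1 := Or.inr (Or.inl rfl)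
  have hip : cc3 (im1 * pi1) := Or.inr (Or.inr rfl)
  have h1 := ((((lim_bE.const_mul 2).add ((dens_C hi).const_mul 2)).add ((lim_bC_half hp).const_mul 2)).add
    ((lim_bC_half hip).const_mul 2))
  have h2 : Tendsto (fun X : ℕ => 2 * (((SS {5, 13} X).card : ℝ) / (sA X : ℝ)) + 2 +
      4 * ((sA (X / 2) : ℝ) / (sA X : ℝ))) atTop (nhds (2 * (1 / 2) + 2 + 4 * (1 / 2))) :=
    ((lim_s5.const_mul 2).add_const 2).add (lim_half.const_mul 4)
  have h3 := h1.div h2 (by norm_num)
  have e : (2 * (c2 / 2) + 2 * c2 + 2 * (c2 / 2) + 2 * (c2 / 2)) / (2 * (1 / 2) + 2 + 4 * (1 / 2)) = c2 := by ring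
  rw [e] at h3
  refine h3.congr' ?_
  filter_upwards [sA_pos] with X hX
  rw [Pi.div_apply, count_cov, count_good]
  push_cast
  field_simp

theorem GoodG.im4 {g : ZI} (h : GoodG g) : ¬ (4 : ℤ) ∣ g.im := by
  rcases h with ⟨D, h1, h2⟩ | ⟨c, D, hc, h1, h2⟩
  · have hu : ∀ u : ZI, (u = 1 ∨ u = -1) → ¬ (4 : ℤ) ∣ (u * D).im := fun u hu => (cov_one h2.cl.ps hu).2 h2.cl
    rcases h1 with h1 | h1
    · have := hu 1 (Or.inl rfl)
      rwa [one_mul, ← h1] at this
    · have := hu (-1) (Or.inr rfl)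
      rwa [neg_one_mul, ← h1] at this
  · have hp := h2.ps.prm
    have hn := prim_norm_odd hp
    have hneg : ∀ z : ZI, ¬ (4 : ℤ) ∣ z.im → ¬ (4 : ℤ) ∣ (-z).im := fun z hz => by
      rw [Zsqrtd.im_neg, dvd_neg]
      exact hz
    have hcD : ¬ (4 : ℤ) ∣ (c * D).im := by
      rcases hc with h | h | h <;> rw [h]
      · exact cov_i hp (Or.inl rfl)
      · exact cov_even hn
      · have e : im1 * pi1 * D = pi1 * (im1 * D) := by ring
        rw [e]
        apply cov_even
        rw [Zsqrtd.norm_mul, show im1.norm = 1 by decide, one_mul]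
        exact hn
    rcases h1 with h1 | h1 <;> rw [h1]
    · exact hcD
    · exact hneg _ hcD

end Run7.h26.QI
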