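import Pool.Agent.Run7.h26.QI.Mm

/-!
The L-function of `y² = x³ - g² x` for all squarefree Gaussian integers `g`.
-/

set_option autoImplicit false
set_option linter.unusedSectionVars false

open NumberField IsDedekindDomain

namespace Run7.h26.QI

open Pool.Agent.Y699 hiding f1 f2 LE f1_hasProd f2_hasProd
open H385 (ZI RQ im1 nrm)
open Pool.Agent.W164.RC (tc_mul tc_star two2 prim_iff_dvd unit_norm unit_cases Ip Ip_spec Ip_exists dg
  aD_roots local_poly local_two ep_hecke)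
open Pool.Agent.H304R2.EC.A1 (prim prim_mul prim_cancel prim_one prim_norm_odd prim_star eq_one_of_prim
  norm_def' re_mul' im_mul' eq_of_dvd prim_ne_zero exists_prim)
open Pool.Agent.H921R2.TatePole (below deg nm nm_eq nm_summable two_le_nm)
open Pool.Agent.H82R3.EK (luc luc_eq)
open Pool.Agent.H304R3.HK (tc HC LH bH psi psi_apply uh_psi goodH bb ee UH tc_star_mul tc_ne_zero)

variable {K : Type} [Field K] [NumberField K]

lemma odd_sub_one {g : ZI} (h : ¬ pi1 ∣ g) : pi1 ∣ g - 1 := by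
  by_contra hc
  rw [← norm_odd_iff] at h hc
  rw [norm_def'] at h hc
  rw [Zsqrtd.re_sub, Zsqrtd.im_sub] at hc
  have e0 : ∀ z : ℤ, z ^ 2 % 2 = z % 2 := by
    intro z
    rcases Int.emod_two_eq_zero_or_one z with h | h <;> rw [sq, Int.mul_emod, h] <;> norm_num
  have e1 : (1 : ZI).re = 1 := rfl
  have e2 : (1 : ZI).im = 0 := rfl
  rw [e1, e2] at hc
  have q1 := e0 g.re
  have q2 := e0 g.im
  have q3 := e0 (g.re - 1)
  have q4 := e0 (g.im - 0)
  omega

/-- bad places -/
lemma cnt_bad' (e : ZI ≃+* 𝓞 K) {v : HeightOneSpectrum (𝓞 K)} {z g : ZI}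
    (hv : v.asIdeal = Ideal.span {e z})
    (h : ((below v : ℕ) = 2 ∧ z = pi1) ∨ z ∣ g) :
    ((Ideal.absNorm v.asIdeal : ℕ) : ℤ) - cnt v (Ideal.Quotient.mk v.asIdeal (e g)) = 0 := by
  by_cases hzg : z ∣ g
  · exact (by
      have h1 := Pool.Agent.H82R3.EK.trace_bad (D := (below v : ℕ)) v (dvd_mul_left _ _)
      have h2 : Ideal.Quotient.mk v.asIdeal (e g) = (((below v : ℕ) : ℕ) : 𝓞 K ⧸ v.asIdeal) := by
        have h3 : (((below v : ℕ) : ℕ) : 𝓞 K ⧸ v.asIdeal) = 0 := by
          have := Ideal.Quotient.eq_zero_iff_mem.2 (nm_eq v).2.2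
          simpa using this
        rw [h3, Ideal.Quotient.eq_zero_iff_mem, mem_iff e hv]
        exact hzg
      unfold cnt
      rw [h2]
      exact h1)
  · have h := h.resolve_right hzg
    have h1 := Pool.Agent.H82R3.EK.trace_bad (D := 1) v (by rw [h.1])
    have h2 : Ideal.Quotient.mk v.asIdeal (e g) = ((1 : ℕ) : 𝓞 K ⧸ v.asIdeal) := by
      rw [Nat.cast_one, ← map_one (Ideal.Quotient.mk v.asIdeal), Ideal.Quotient.eq, ← map_one e,
        ← map_sub, mem_iff e hv, h.2]
      rw [h.2] at hzg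
      exact odd_sub_one hzg
    unfold cnt
    rw [h2]
    exact h1

variable {X : ZI →* ℂ} {q g : ZI}

theorem lf_eq' (hX : PX X q g) (hg0 : g ≠ 0) (hup : NoUp g) (hsq : ∀ π : ZI, Prime π → ¬ π ^ 2 ∣ g)
    (e : ZI ≃+* 𝓞 K) (s : ℂ) (v : HeightOneSpectrum (𝓞 K)) {W : WeierstrassCurve (𝓞 K)}
    (hmin : MinAt (crv (algebraMap (𝓞 K) K (e g))) v W) :
    lf W v s = f1 X e s v * f2 X e s v := by
  have hsp := pg_span e v
  set z := pg e v with hz
  have hzp : Prime z := pg_prime e v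
  have hodd : (below v : ℕ) ≠ 2 → z ∈ Ip (below v) → PP z := fun h1 h2 =>
    ⟨(Ip_spec (below v).2 h2).2.1, (Ip_spec (below v).2 h2).1⟩
  have hz2 : z = pi1 ∨ ¬ z ∣ 2 := by
    rcases pg_cases e v with ⟨h1, h2⟩ | ⟨h1, h2⟩
    · exact Or.inl h2
    · exact Or.inr (not_dvd_two (hodd h1 h2))
  obtain ⟨C, hC⟩ := hmin.1
  have hu := val_u' e hsp hz2 hg0 hup hsq hmin hC
  have hC' : C • W.map (algebraMap (𝓞 K) K) = (crv (e g)).map (algebraMap (𝓞 K) K) := by
    rw [crv_map]; exact hC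
  have haff := Mdl.aff_model v hu hC'
  rw [aff_crv] at haff
  have hΔ : W.Δ ∈ v.asIdeal ↔ (z = pi1 ∨ z ∣ g) := by
    have h1 := congrArg WeierstrassCurve.Δ hC'
    rw [WeierstrassCurve.variableChange_Δ, WeierstrassCurve.map_Δ, WeierstrassCurve.map_Δ] at h1
    have h2 := congrArg (v.valuation K) h1
    rw [map_mul, map_pow, Units.val_inv_eq_inv_val, map_inv₀, hu, inv_one, one_pow, one_mul] at h2
    rw [← v.valuation_lt_one_iff_mem (K := K), h2, v.valuation_lt_one_iff_mem (K := K), crv_Δ]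
    have e1 : (64 : 𝓞 K) * e g ^ 6 = e (64 * g ^ 6) := by
      rw [map_mul, map_pow, map_ofNat]
    rw [e1, mem_iff e hsp]
    constructor
    · intro h
      rcases hz2 with h3 | h3
      · exact Or.inl h3
      · right
        rcases hzp.dvd_or_dvd h with h4 | h4
        · exfalso
          apply h3
          have e5 : (64 : ZI) = 2 ^ 6 := by decide
          rw [e5] at h4
          exact hzp.dvd_of_dvd_pow h4
        · exact hzp.dvd_of_dvd_pow h4
    · rintro (h | h)
      · rw [h]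
        exact (pi1_two.trans ⟨32, by decide⟩).mul_right _
      · exact (dvd_pow h (by norm_num)).mul_left _
  unfold lf
  rw [haff]
  by_cases hb : z = pi1 ∨ z ∣ g
  · rw [if_pos (hΔ.2 hb)]
    have hb' : ((below v : ℕ) = 2 ∧ z = pi1) ∨ z ∣ g := by
      rcases hb with h | h
      · rcases pg_cases e v with ⟨h1, h2⟩ | ⟨h1, h2⟩
        · exact Or.inl ⟨h1, h⟩
        · exfalso
          have := pi1_prim (hodd h1 h2).prm
          rw [h] at this
          exact this dvd_rfl
      · exact Or.inr h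
    have h1 := cnt_bad' e hsp hb'
    have h2 : ((Ideal.absNorm v.asIdeal : ℕ) : ℂ) - (cnt v (Ideal.Quotient.mk v.asIdeal (e g)) : ℂ) = 0 := by
      exact_mod_cast congrArg (Int.cast : ℤ → ℂ) h1
    rw [h2]
    have h3 : X z = 0 := by
      rcases pg_cases e v with ⟨h1, h2⟩ | ⟨h1, h2⟩
      · rw [hz, h2, hX.pi]
      · have hPP := hodd h1 h2
        rw [hX.val z hPP]
        rcases hb with h | h
        · exfalso
          have := pi1_prim hPP.prm
          rw [h] at this
          exact this dvd_rfl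
        · rw [qr_zero_iff.2 h]; simp
    unfold f1 f2
    rw [← hz, h3]
    simp
  · rw [if_neg (fun h => hb (hΔ.1 h))]
    push Not at hb
    rcases pg_cases e v with ⟨h1, h2⟩ | ⟨h1, h2⟩
    · exact absurd h2 hb.1
    · have hPP := hodd h1 h2
      have h3 := cnt_good e h1 h2 hsp hb.2
      push_cast at h3
      rw [h3]
      unfold f1 f2
      rw [← hz, hX.val z hPP, ← mul_inv]
      congr 1
      have h4 : (qr z g : ℂ) * (qr z g : ℂ) = 1 := by
        have := qr_sq hb.2
        exact_mod_cast congrArg (Int.cast : ℤ → ℂ) this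
      have h5 : tc z * tc (star z) = ((Ideal.absNorm v.asIdeal : ℕ) : ℂ) := by
        rw [norm_pg e hsp, ← tc_mul, ← Zsqrtd.norm_eq_mul_conj, ← nrm_cast]
        unfold tc
        simp
      have hN : ((Ideal.absNorm v.asIdeal : ℕ) : ℂ) ≠ 0 := by
        have := two_le_nm v
        unfold Pool.Agent.H921R2.TatePole.nm at this
        exact_mod_cast (by omega : Ideal.absNorm v.asIdeal ≠ 0)
      have h6 : ((Ideal.absNorm v.asIdeal : ℕ) : ℂ) ^ (-2 * s) =
          (((Ideal.absNorm v.asIdeal : ℕ) : ℂ) ^ (-s)) ^ 2 := by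
        rw [← Complex.cpow_nat_mul]
        congr 1
        push_cast
        ring
      rw [h6]
      linear_combination (-(((Ideal.absNorm v.asIdeal : ℕ) : ℂ) ^ (-s)) ^ 2 * (qr z g : ℂ) ^ 2) * h5 -
        ((Ideal.absNorm v.asIdeal : ℕ) : ℂ) * (((Ideal.absNorm v.asIdeal : ℕ) : ℂ) ^ (-s)) ^ 2 * h4

theorem LE_hasProd' (hX : PX X q g) (hg0 : g ≠ 0) (hup : NoUp g) (hsq : ∀ π : ZI, Prime π → ¬ π ^ 2 ∣ g)
    (e : ZI ≃+* 𝓞 K) {s : ℂ} (hs : 3 / 2 < s.re)
    (W : HeightOneSpectrum (𝓞 K) → WeierstrassCurve (𝓞 K))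
    (hW : ∀ v, MinAt (crv (algebraMap (𝓞 K) K (e g))) v (W v)) :
    HasProd (fun v => lf (W v) v s) (LE X s) := by
  have h := (f1_hasProd hX e hs).mul (f2_hasProd hX e hs)
  refine h.congr_fun (fun v => ?_)
  exact lf_eq' hX hg0 hup hsq e s v (hW v)

end Run7.h26.QI
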