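import Pool.Agent.Run7.h26.QI.Hx

/-!
The supplementary law for `1 + i`, and the two characters.
-/

set_option autoImplicit false
set_option linter.unusedSectionVars false

open scoped NumberTheorySymbols

namespace Run7.h26.QI

open Pool.Agent.Y699 hiding f1 f2 LE f1_hasProd f2_hasProd
open Run7.h26.CN (th th_cases th_mul th_one odd_norm8 th_pm th_four)
open H385 (ZI RQ im1 nrm)
open Pool.Agent.W164.RC (tc_mul tc_star two2 prim_iff_dvd unit_norm unit_cases)
open Pool.Agent.H304R2.EC.A1 (prim prim_mul prim_cancel prim_one prim_norm_odd prim_star eq_one_of_prim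
  norm_def' re_mul' im_mul' eq_of_dvd prim_ne_zero exists_prim)

/-- the symbol of `1 + i` on the primary elements -/
def lm (a : ZI) : ℤ := if (a.re + a.im) % 8 = 1 then 1 else -1

lemma lm_cases (a : ZI) : lm a = 1 ∨ lm a = -1 := by
  unfold lm
  split_ifs
  · exact Or.inl rfl
  · exact Or.inr rfl

lemma lm_mul {a b : ZI} (ha : prim a) (hb : prim b) : lm (a * b) = lm a * lm b := by
  obtain ⟨h1, h2⟩ := prim_lin ha
  obtain ⟨h3, h4⟩ := prim_lin hb
  obtain ⟨x, hx⟩ : ∃ x, a.im = 2 * x := ⟨a.im / 2, by omega⟩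
  obtain ⟨y, hy⟩ : ∃ y, b.im = 2 * y := ⟨b.im / 2, by omega⟩
  obtain ⟨s, hs⟩ : ∃ s, a.re + a.im = 4 * s + 1 := ⟨(a.re + a.im) / 4, by omega⟩
  obtain ⟨t, ht⟩ : ∃ t, b.re + b.im = 4 * t + 1 := ⟨(b.re + b.im) / 4, by omega⟩
  have e : (a * b).re + (a * b).im = 1 + 4 * (s + t) + 8 * (2 * s * t - x * y) := by
    rw [re_mul', im_mul']
    have ea : a.re = 4 * s + 1 - 2 * x := by omega
    have eb : b.re = 4 * t + 1 - 2 * y := by omega
    rw [ea, eb, hx, hy]
    ring
  unfold lm
  rw [e, hs, ht]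
  rcases Int.emod_two_eq_zero_or_one s with h5 | h5 <;>
    rcases Int.emod_two_eq_zero_or_one t with h6 | h6
  · rw [if_pos (by omega), if_pos (by omega), if_pos (by omega)]; rfl
  · rw [if_neg (by omega), if_pos (by omega), if_neg (by omega)]; rfl
  · rw [if_neg (by omega), if_neg (by omega), if_pos (by omega)]; rfl
  · rw [if_pos (by omega), if_neg (by omega), if_neg (by omega)]; rfl

lemma lm_per (a t : ZI) : lm (a + m5 * t) = lm a := by
  unfold lm
  have e : (a + m5 * t).re + (a + m5 * t).im = a.re + a.im + 8 * t.re := by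
    rw [Zsqrtd.re_add, Zsqrtd.im_add, re_mul', im_mul']
    have e1 : m5.re = 4 := rfl
    have e2 : m5.im = 4 := rfl
    rw [e1, e2]
    ring
  rw [e, Int.add_mul_emod_self_left]

lemma lm_Sg : Sg lm where
  cs := lm_cases
  mul := lm_mul
  per := lm_per
  five := by decide

lemma lt_Sg : Sg (fun a => lm a * th a) where
  cs := by
    intro a
    rcases lm_cases a with h | h <;> rcases th_cases a with h' | h' <;> simp only [h, h'] <;> norm_num
  mul := by
    intro a b ha hb
    simp only [lm_mul ha hb, th_pm ha hb]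
    ring
  per := by
    intro a t
    simp only [lm_per]
    have e : a + m5 * t = a + 4 * (pi1 * t) := by rw [m5_eq]; ring
    rw [e, th_four]
  five := by decide

/-- **the supplementary law** -/
theorem qr_pi1 {π : ZI} (h : PP π) : qr π pi1 = lm π := by
  obtain ⟨q1, q2⟩ := prim_lin h.prm
  rcases h.cases with ⟨p, hp, hp4, hpn⟩ | ⟨q, hq, hq4, hπ⟩
  · have : Fact p.Prime := ⟨hp⟩
    rw [qr_deg1 h hpn]
    have e1 : π.re * pi1.re + π.im * pi1.im = π.re + π.im := by
      have a1 : pi1.re = 1 := rfl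
      have a2 : pi1.im = 1 := rfl
      rw [a1, a2]; ring
    rw [e1, jacobiSym.legendreSym.to_jacobiSym]
    set m := π.re + π.im with hm
    have hmo : Odd m.natAbs := by
      rw [Int.natAbs_odd]
      exact Int.odd_iff.2 (by omega)
    have h1 : J(m | p) = J((m.natAbs : ℤ) | p) := by
      rcases Int.natAbs_eq m with h | h
      · rw [← h]
      · have h2 : m = -(m.natAbs : ℤ) := h
        have h3 : J(m | p) = J(-(m.natAbs : ℤ) | p) := by rw [← h2]
        rw [h3, jacobiSym.neg _ (Nat.odd_iff.2 (by omega)), ZMod.χ₄_nat_one_mod_four hp4, one_mul]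
    rw [h1, ← jacobiSym.quadratic_reciprocity_one_mod_four hp4 hmo]
    have hnd : (m.natAbs : ℤ) ∣ m := Int.natAbs_dvd.2 dvd_rfl
    have hnorm : (p : ℤ) = π.re ^ 2 + π.im ^ 2 := by rw [← hpn, norm_def']
    have hcop : Int.gcd (π.re - π.im) m.natAbs = 1 := by
      have h5 : IsCoprime π.re π.im := by
        have h6 : Prime ((p : ℕ) : ℤ) := Nat.prime_iff_prime_int.1 hp
        rw [← isRelPrime_iff_isCoprime]
        intro d hd1 hd2
        by_contra hdu
        have hd3 : d * d ∣ (p : ℤ) := by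
          rw [hnorm, sq, sq]
          exact dvd_add (mul_dvd_mul hd1 hd1) (mul_dvd_mul hd2 hd2)
        obtain ⟨c, hc⟩ := hd3
        rcases h6.irreducible.isUnit_or_isUnit (show ((p : ℕ) : ℤ) = d * (d * c) by rw [hc]; ring) with h7 | h7
        · exact hdu h7
        · exact hdu (isUnit_of_mul_isUnit_left h7)
      obtain ⟨a, b, hab⟩ := h5
      obtain ⟨k, hk⟩ : ∃ k, m = 2 * k + 1 := ⟨m / 2, by omega⟩
      have h6 : IsCoprime (π.re - π.im) m := by
        refine ⟨-k * (a - b), 1 - k * (a + b), ?_⟩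
        have e2 : (a + b) * m + (a - b) * (π.re - π.im) = 2 := by
          rw [hm]; linear_combination 2 * hab
        linear_combination hk - k * e2
      have h8 := Int.isCoprime_iff_gcd_eq_one.1 h6
      rw [Int.gcd, Int.natAbs_natCast]
      exact h8
    have hm8 : J((2 : ℤ) | m.natAbs) * J((p : ℤ) | m.natAbs) = 1 := by
      rw [← jacobiSym.mul_left]
      have h6 : J(2 * (p : ℤ) | m.natAbs) = J((π.re - π.im) ^ 2 | m.natAbs) := by
        apply jacobiSym.mod_left'
        obtain ⟨c, hc⟩ := hnd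
        have e3 : 2 * (p : ℤ) = (π.re - π.im) ^ 2 + (m.natAbs : ℤ) * (c * m) := by
          have e4 : (m.natAbs : ℤ) * (c * m) = m * m := by rw [← mul_assoc, ← hc]
          rw [e4, hnorm, hm]; ring
        rw [e3, Int.add_mul_emod_self_left]
      rw [h6]
      exact jacobiSym.sq_one' hcop
    have h2v : J((2 : ℤ) | m.natAbs) = lm π := by
      rw [jacobiSym.at_two hmo, ZMod.χ₈_nat_eq_if_mod_eight]
      have h7 : ¬ m.natAbs % 2 = 0 := by
        have := Nat.odd_iff.1 hmo
        omega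
      rw [if_neg h7]
      unfold lm
      rw [← hm]
      by_cases h9 : m % 8 = 1
      · rw [if_pos h9, if_pos (by omega)]
      · rw [if_neg h9, if_neg (by omega)]
    rw [h2v] at hm8
    rcases lm_cases π with h9 | h9 <;> rw [h9] at hm8 ⊢ <;> linarith
  · have : Fact q.Prime := ⟨hq⟩
    have hρ : π = -(q : ZI) := hπ
    rw [qr_inert h hq4 hρ]
    have e1 : pi1.norm = 2 := by decide
    rw [e1, jacobiSym.legendreSym.to_jacobiSym, jacobiSym.at_two (Nat.odd_iff.2 (by omega)),
      ZMod.χ₈_nat_eq_if_mod_eight, if_neg (by omega)]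
    have r1 : π.re = -(q : ℤ) := by rw [hρ]; simp
    have r2 : π.im = 0 := by rw [hρ]; simp
    unfold lm
    rw [r1, r2, add_zero]
    by_cases h9 : -(q : ℤ) % 8 = 1
    · rw [if_pos h9, if_pos (by omega)]
    · rw [if_neg h9, if_neg (by omega)]

lemma qr_th {π : ZI} (h : PP π) : qr π im1 = th π := qr_im h

variable {ι : Type} [DecidableEq ι] {pr : ι → ZI}

lemma XE_PX {ep : ZI → ℤ} (he : Sg ep) {c : ZI} (hc : ∀ π, PP π → ep π = qr π c) (hp : PF pr)
    (V : Finset ι) : PX (XE he hp V) (cte pr V) (c * DD pr V) where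
  hc := XE_HC he hp V
  pi := by rw [XE_apply, XX_pi1, mul_zero]
  val := by
    intro π hπ
    rw [XE_apply, xe_prim hπ.prm, XX_qr hp V hπ, hc π hπ, qr_mul hπ]
    push_cast
    rfl

lemma XT_PX (hp : PF pr) (V : Finset ι) :
    PX (Run7.h26.CN.XT hp V) (Run7.h26.CN.ctd pr V) (im1 * DD pr V) where
  hc := Run7.h26.CN.XT_HC hp V
  pi := by rw [Run7.h26.CN.XT_apply, XX_pi1, mul_zero]
  val := by
    intro π hπ
    rw [Run7.h26.CN.XT_apply, XX_qr hp V hπ, ← qr_th hπ, qr_mul hπ]
    push_cast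
    rfl

end Run7.h26.QI
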