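import Pool.Agent.Run7.h26.QI.Dz
import Pool.Agent.Run7.h26.QI.Sl
import Pool.Agent.Run7.h26.QI.Ly

/-!
The criterion.
-/

set_option autoImplicit false
set_option linter.unusedSectionVars false

open NumberField IsDedekindDomain

namespace Run7.h26.QI

open Pool.Agent.Y699 hiding f1 f2 LE f1_hasProd f2_hasProd
open Run7.h26.CN (th th_cases)
open H385 (ZI RQ im1 nrm)
open Pool.Agent.H304R3.HK (LH)
open Pool.Agent.W164.RC (two2 prim_iff_dvd unit_norm unit_cases)
open Pool.Agent.H304R2.EC.A1 (prim prim_mul prim_cancel prim_one prim_norm_odd prim_star eq_one_of_prim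
  norm_def' re_mul' im_mul' eq_of_dvd prim_ne_zero exists_prim)

/-- the weight of a prime -/
noncomputable def wc (c : ZI) {ι : Type} (pr : ι → ZI) (i : ι) : ZMod 2 := if qr (pr i) c = -1 then 1 else 0

lemma not_dvd_cc3 {c π : ZI} (hc : cc3 c) (hπ : PP π) : ¬ π ∣ c := by
  intro h
  have h1 : π ∣ pi1 := h.trans (cc3_dvd hc)
  obtain ⟨r, hr⟩ := h1
  rcases pi1_prime.irreducible.isUnit_or_isUnit hr with h2 | h2
  · exact hπ.pr.not_isUnit h2
  · obtain ⟨k, hk⟩ := h2.exists_right_inv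
    exact pi1_prim hπ.prm ⟨k, by rw [hr, mul_assoc, hk, mul_one]⟩

lemma qr_wc {c : ZI} (hc : cc3 c) {ι : Type} {pr : ι → ZI} (hp : PF pr) (i : ι) :
    qr (pr i) c = sg (wc c pr i) := qr_sg (not_dvd_cc3 hc (hp.pp i))

lemma ker_of_goodC {c D : ZI} (hcc : cc3 c) (h : GoodC c D) : ∀ z : {π : ZI // π ∈ PD D} → ZMod 2,
    (∀ v ∈ (Finset.univ : Finset {π : ZI // π ∈ PD D}),
      ∑ u ∈ Finset.univ, em (fam D) u v * (z u + z v) + wc c (fam D) v * z v = 0) →
      ∀ v ∈ (Finset.univ : Finset {π : ZI // π ∈ PD D}), z v = 0 := by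
  intro z hz
  set S1 : Finset {π : ZI // π ∈ PD D} := Finset.univ.filter (fun u => z u = 1) with hS1
  set S0 : Finset {π : ZI // π ∈ PD D} := Finset.univ.filter (fun u => ¬ z u = 1) with hS0
  set T1 : Finset ZI := S1.image Subtype.val with hT1
  set T0 : Finset ZI := S0.image Subtype.val with hT0
  have hPP : ∀ T : Finset {π : ZI // π ∈ PD D}, ∀ π ∈ T.image Subtype.val, PP π := by
    intro T π hπ
    obtain ⟨x, -, rfl⟩ := Finset.mem_image.1 hπ
    exact (fam_PF h.ps.ne).pp x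
  have hprod : ∀ T : Finset {π : ZI // π ∈ PD D}, ∏ π ∈ T.image Subtype.val, π = ∏ i ∈ T, i.1 := by
    intro T
    rw [Finset.prod_image (fun a _ b _ hab => Subtype.ext hab)]
  have h01 : ∀ x : ZMod 2, x ≠ 1 → x = 0 := by decide
  obtain ⟨p1, q1⟩ := PS_prod (hPP S1)
  obtain ⟨p0, q0⟩ := PS_prod (hPP S0)
  have hD : D = (∏ π ∈ T1, π) * ∏ π ∈ T0, π := by
    rw [hT1, hT0, hprod, hprod, hS1, hS0, Finset.prod_filter_mul_prod_filter_not]
    have := h.ps.DD
    unfold DD fam at this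
    exact this.symm
  have hc1 : ∀ π ∈ PD (∏ π ∈ T1, π), qr π (c * ∏ π ∈ T0, π) = 1 := by
    intro π hπ
    rw [q1] at hπ
    obtain ⟨j, hj, rfl⟩ := Finset.mem_image.1 hπ
    have hj1 : z j = 1 := (Finset.mem_filter.1 hj).2
    have hjP : PP (j.1) := (fam_PF h.ps.ne).pp j
    have hq := qr_wc hcc (fam_PF h.ps.ne) j
    change qr j.1 c = _ at hq
    rw [qr_mul hjP, hq, hT0, hprod, qr_family h.ps S0 (fun h' => (Finset.mem_filter.1 h').2 hj1), ← sg_add]
    have h1 := hz j (Finset.mem_univ _)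
    rw [sum_em h.ps, hj1, mul_one] at h1
    have h2 : S0 = Finset.univ.filter (fun u => z u ≠ 1) := rfl
    rw [h2, add_comm, h1]
    rfl
  have hc0 : ∀ π ∈ PD (∏ π ∈ T0, π), qr π (∏ π ∈ T1, π) = 1 := by
    intro π hπ
    rw [q0] at hπ
    obtain ⟨j, hj, rfl⟩ := Finset.mem_image.1 hπ
    have hj1 : ¬ z j = 1 := (Finset.mem_filter.1 hj).2
    have hj0 := h01 _ hj1
    rw [hT1, hprod, qr_family h.ps S1 (fun h' => hj1 (Finset.mem_filter.1 h').2)]
    have h1 := hz j (Finset.mem_univ _)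
    rw [sum_em h.ps, hj0, mul_zero, add_zero] at h1
    have h2 : S1 = Finset.univ.filter (fun u => z u ≠ 0) := by
      rw [hS1]
      apply Finset.filter_congr
      intro u _
      have : ∀ x : ZMod 2, x = 1 ↔ x ≠ 0 := by decide
      exact this _
    rw [h2, h1]
    rfl
  have hempty : ∀ T : Finset {π : ZI // π ∈ PD D}, ∏ π ∈ T.image Subtype.val, π = 1 → T = ∅ := by
    intro T hT
    have h1 := (PS_prod (hPP T)).2
    rw [hT, PD_one] at h1
    exact Finset.image_eq_empty.1 h1.symm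
  have h2 := hempty _ (h.ker _ _ p1.prm p0.prm hD hc1 hc0)
  intro v _
  apply h01
  intro hv
  have : v ∈ S1 := Finset.mem_filter.2 ⟨Finset.mem_univ _, hv⟩
  rw [h2] at this
  exact Finset.notMem_empty _ this

/-- the bad `c D` data -/
lemma sq_cD {c D : ZI} (hc : cc3 c) (hD : PS D) : ∀ π : ZI, Prime π → ¬ π ^ 2 ∣ c * D := by
  intro π hπ h
  rw [sq] at h
  exact hπ.not_isUnit (sqf_cD hc hD π h)

lemma noup_cD {c D : ZI} (hc : cc3 c) (hD : PS D) : NoUp (c * D) := by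
  rcases hc with h | h | h <;> rw [h]
  · exact noup_im hD.prm
  · exact noup_pi (pi1_prim hD.prm)
  · rw [mul_comm im1 pi1, mul_assoc]
    exact noup_pi (not_dvd_mul pi1_im1 (pi1_prim hD.prm))

/-- **the criterion** -/
theorem crit_L' {c D : ZI} (hc : cc3 c) (h : GoodC c D) {K : Type} [Field K] [NumberField K] (e : ZI ≃+* 𝓞 K) :
    ∃ L : ℂ → ℂ, Differentiable ℂ L ∧ L 1 ≠ 0 ∧
      ∀ W : HeightOneSpectrum (𝓞 K) → WeierstrassCurve (𝓞 K),
        (∀ v, MinAt (crv (algebraMap (𝓞 K) K (e (c * D)))) v (W v)) → ∀ s : ℂ, 3 / 2 < s.re →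
          HasProd (fun v => lf (W v) v s) (L s) := by
  have hp := fam_PF h.ps.ne
  have hker := ker_of_goodC hc h
  have hg0 : c * D ≠ 0 := mul_ne_zero (cc3_ne hc) h.ps.ne
  have main : ∀ (X : ZI →* ℂ) (q : ZI), PX X q (c * D) → LH X (1 / 2) ≠ 0 → ∃ L : ℂ → ℂ,
      Differentiable ℂ L ∧ L 1 ≠ 0 ∧ ∀ W : HeightOneSpectrum (𝓞 K) → WeierstrassCurve (𝓞 K),
        (∀ v, MinAt (crv (algebraMap (𝓞 K) K (e (c * D)))) v (W v)) → ∀ s : ℂ, 3 / 2 < s.re →
          HasProd (fun v => lf (W v) v s) (L s) := by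
    intro X q hX hne
    exact ⟨LE X, LE_diff hX, LE_one hX hne, fun W hW s hs =>
      LE_hasProd' hX hg0 (noup_cD hc h.ps) (sq_cD hc h.ps) e hs W hW⟩
  have hDD := h.ps.DD
  by_cases h1 : c = im1
  · have hX := XT_PX hp (Finset.univ : Finset {π : ZI // π ∈ PD D})
    rw [hDD, ← h1] at hX
    refine main _ _ hX (Run7.h26.CN.LT_ne hp ?_)
    intro z hz
    refine hker z ?_
    intro v hv
    have h2 : wc c (fam D) v = wt (fam D) v := by
      unfold wc wt
      rw [h1, qr_im (hp.pp v)]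
      have h3 := (hp.pp v).norm_mod
      by_cases h4 : (fam D v).norm % 8 = 1
      · rw [if_pos h4, if_neg (by norm_num), if_neg (by omega)]
      · rw [if_neg h4, if_pos rfl, if_pos (by omega)]
    rw [h2]
    exact hz v hv
  · have main2 : ∀ ep : ZI → ℤ, Sg ep → (∀ π, PP π → ep π = qr π c) → ∃ L : ℂ → ℂ,
        Differentiable ℂ L ∧ L 1 ≠ 0 ∧ ∀ W : HeightOneSpectrum (𝓞 K) → WeierstrassCurve (𝓞 K),
          (∀ v, MinAt (crv (algebraMap (𝓞 K) K (e (c * D)))) v (W v)) → ∀ s : ℂ, 3 / 2 < s.re →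
            HasProd (fun v => lf (W v) v s) (L s) := by
      intro ep he hep
      have hX := XE_PX he hep hp (Finset.univ : Finset {π : ZI // π ∈ PD D})
      rw [hDD] at hX
      refine main _ _ hX (LEE_ne he hp ?_)
      intro z hz
      refine hker z ?_
      intro v hv
      have h2 : wc c (fam D) v = we ep (fam D) v := by
        unfold wc we
        rw [hep _ (hp.pp v)]
      rw [h2]
      exact hz v hv
    rcases hc with h2 | h2 | h2
    · exact absurd h2 h1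
    · exact main2 lm lm_Sg (fun π hπ => by rw [h2, qr_pi1 hπ])
    · refine main2 _ lt_Sg (fun π hπ => ?_)
      rw [h2, qr_mul hπ, qr_pi1 hπ, qr_th hπ, mul_comm]

end Run7.h26.QI
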