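import Pool.Agent.Run7.h26.QI.Gv
import Pool.Agent.Run7.h26.CN.Rn

/-!
The recursion for the limits and their leading terms (after `CN/Rn`).
-/

set_option autoImplicit false
set_option linter.unusedSectionVars false

open Filter Complex
open scoped Topology PeriodPair
open H667R3 hiding sq
open Pool.Agent.TH936.CM Pool.Agent.W192.HK

namespace Run7.h26.QI

open Pool.Agent.Y699
open Run7.h26.CN (Gt lim_Gt kp kp_val kp_ne insertNone_sdiff cc_eq cc_eq_zero)
open H385 (ZI RQ im1 nrm)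
open Pool.Agent.H304R3.HK (tc)
open Pool.Agent.W164.RC (tc_mul tc_star two2 prim_iff_dvd)
open Pool.Agent.H304R2.EC.A1 (prim prim_mul prim_cancel prim_one prim_norm_odd prim_star eq_one_of_prim
  norm_def' re_mul' im_mul' eq_of_dvd prim_ne_zero)

variable {L : PeriodPair} {Ω : ℂ} {ι : Type} [DecidableEq ι] {pr : ι → ZI} {ep : ZI → ℤ}

/-- the sign of the second pair -/
noncomputable def sgm (ep : ZI → ℤ) : ℂ := -(ep ⟨3, 2⟩ : ℂ)

lemma sgm_cases (he : Sg ep) : sgm ep = 1 ∨ sgm ep = -1 := by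
  unfold sgm
  rcases he.cs ⟨3, 2⟩ with h | h <;> rw [h]
  · right; norm_num
  · left; norm_num

lemma zq_OL (h : IsLat L RG Ω) {D : ZI} (hD : prim D) (t : ZI) : OL L (zq Ω D t) := by
  refine ⟨D, prim_cop hD, ?_⟩
  have hDc := tc_ne (prim_ne_zero hD)
  have e : tc D * zq Ω D t = Ω * tc t := by
    unfold zq
    field_simp
  rw [e]
  exact (mem_lat h).2 ⟨t, rfl⟩

/-- the combination of values -/
noncomputable def QT (ep : ZI → ℤ) (L : PeriodPair) (Ω : ℂ) (pr : ι → ZI) (V : Finset ι)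
    [Fintype (RQ (DD pr V))] : ℂ :=
  ∑ q : RQ (DD pr V), C1 pr V (m5 * q.out) * Gs L Ω (sgm ep) (zq Ω (DD pr V) q.out)

theorem lim_ke (he : Sg ep) (h : GLat L Ω) (hp : PF pr) (V : Finset ι) [Fintype (RQ (DD pr V))] :
    Tendsto (RS (ke ep pr V)) (𝓝[>] 0)
      (𝓝 ((ep (DD pr V) : ℂ) * (Ω / (tc (DD pr V) * tc m5) * QT ep L Ω pr V))) := by
  have hD := DD_prim hp V
  have hDc := tc_ne (prim_ne_zero hD)
  have hΩ := h.lat.ne
  have hc : 0 < Complex.normSq (tc (DD pr V) * tc m5 / Ω) :=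
    Complex.normSq_pos.2 (div_ne_zero (mul_ne_zero hDc tc_m5_ne) hΩ)
  have key : Tendsto (fun δ : ℝ => ∑ q : RQ (DD pr V), C1 pr V (m5 * q.out) *
      ∑ k : Fin 4, (ep (cl k) : ℂ) * EG Ω δ (Ω * tc (cl k) / tc m5 + zq Ω (DD pr V) q.out))
      (𝓝[>] 0) (𝓝 (QT ep L Ω pr V)) := by
    unfold QT
    refine tendsto_finsetSum _ fun q _ => Tendsto.const_mul _ ?_
    exact lim_Gs h he (zq_OL h.lat hD _)
  have key2 := ((tendsto_scale key hc).const_mul (Ω / (tc (DD pr V) * tc m5))).const_mul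
    (ep (DD pr V) : ℂ)
  refine key2.congr' ?_
  filter_upwards [self_mem_nhdsWithin] with δ (hδ : 0 < δ)
  rw [RS_ke he h.lat hp V hδ]
  congr 1
  simp_rw [RU_eq h.lat hp V _ hδ]
  rw [Finset.mul_sum]
  simp_rw [Finset.mul_sum]
  rw [Finset.sum_comm]
  refine Finset.sum_congr rfl fun k _ => Finset.sum_congr rfl fun q _ => ?_
  ring

lemma RS_sum_ce (he : Sg ep) (h : GLat L Ω) (V : Finset ι) {δ : ℝ} (hδ : 0 < δ) :
    ∑ S ∈ V.powerset, RS (ce ep pr S (V \ S)) δ = 2 ^ V.card * RS (ke ep pr V) δ := by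
  unfold RS
  simp_rw [← tsum_mul_left]
  rw [← Summable.tsum_finsetSum]
  · refine tsum_congr fun a => ?_
    rw [← mul_assoc, ← sum_ce V a, Finset.sum_mul]
  · intro S _
    exact summ_bd h.lat hδ (ce_bd he S (V \ S))

/-- existence of the limits -/
theorem exists_lim_ce (he : Sg ep) (h : GLat L Ω) (hp : PF pr) : ∀ S : Finset ι, ∃ l : ℂ,
    Tendsto (RS (ce ep pr S ∅)) (𝓝[>] 0) (𝓝 l) := by
  intro S
  induction S using Finset.strongInduction with
  | H V ih =>
    have hfin := H385.he1_finite (DD_ne hp V)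
    letI := Fintype.ofFinite (RQ (DD pr V))
    have h1 := lim_ke he h hp V
    have h2 : ∀ S : Finset ι, ∃ l : ℂ, S ∈ V.powerset.erase V →
        Tendsto (RS (ce ep pr S (V \ S))) (𝓝[>] 0) (𝓝 l) := by
      intro S
      by_cases hS : S ∈ V.powerset.erase V
      · rw [Finset.mem_erase, Finset.mem_powerset] at hS
        obtain ⟨l, hl⟩ := ih S (Finset.ssubset_iff_subset_ne.2 ⟨hS.2, hS.1⟩)
        exact ⟨_, fun _ => lim_ce he h.lat hp S hl (V \ S)⟩
      · exact ⟨0, fun h' => absurd h' hS⟩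
    choose l hl using h2
    have h3 : Tendsto (fun δ => 2 ^ V.card * RS (ke ep pr V) δ -
        ∑ S ∈ V.powerset.erase V, RS (ce ep pr S (V \ S)) δ) (𝓝[>] 0)
        (𝓝 (2 ^ V.card * ((ep (DD pr V) : ℂ) * (Ω / (tc (DD pr V) * tc m5) * QT ep L Ω pr V)) -
        ∑ S ∈ V.powerset.erase V, l S)) := by
      refine (h1.const_mul _).sub (tendsto_finsetSum _ fun S hS => ?_)
      exact hl S hS
    refine ⟨_, h3.congr' ?_⟩
    filter_upwards [self_mem_nhdsWithin] with δ (hδ : 0 < δ)
    rw [← RS_sum_ce he h V hδ, ← Finset.add_sum_erase V.powerset _ (Finset.mem_powerset_self V),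
      add_sub_cancel_right, Finset.sdiff_self]

/-- the normalized limit -/
noncomputable def Mt (Ω : ℂ) (pr : ι → ZI) (l : Finset ι → ℂ) (S : Finset ι) : ℂ :=
  tc m5 * (l S / Ω) * tc (DD pr S) / 2 ^ S.card

/-- the recursion -/
theorem recur_ce (he : Sg ep) (h : GLat L Ω) (hp : PF pr) {l : Finset ι → ℂ}
    (hl : ∀ S, Tendsto (RS (ce ep pr S ∅)) (𝓝[>] 0) (𝓝 (l S))) (V : Finset ι)
    [Fintype (RQ (DD pr V))] :
    ∑ S ∈ V.powerset, Mt Ω pr l S *
      ∏ i ∈ V \ S, ((tc (pr i) - (ep (pr i) : ℂ) * ch pr S (pr i)) / 2) =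
      (ep (DD pr V) : ℂ) * QT ep L Ω pr V := by
  have hDc := tc_ne (DD_ne hp V)
  have hΩ := h.lat.ne
  have hm5 := tc_m5_ne
  have h1 : Tendsto (fun δ => ∑ S ∈ V.powerset, RS (ce ep pr S (V \ S)) δ)
      (𝓝[>] 0) (𝓝 (∑ S ∈ V.powerset,
        (l S * ∏ i ∈ V \ S, (1 - (ep (pr i) : ℂ) * (ch pr S (pr i) : ℂ) / tc (pr i))))) := by
    refine tendsto_finsetSum _ fun S _ => ?_
    exact lim_ce he h.lat hp S (hl S) (V \ S)
  have h2 : Tendsto (fun δ => ∑ S ∈ V.powerset, RS (ce ep pr S (V \ S)) δ)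
      (𝓝[>] 0) (𝓝 (2 ^ V.card * ((ep (DD pr V) : ℂ) * (Ω / (tc (DD pr V) * tc m5) * QT ep L Ω pr V)))) := by
    refine ((lim_ke he h hp V).const_mul (2 ^ V.card)).congr' ?_
    filter_upwards [self_mem_nhdsWithin] with δ (hδ : 0 < δ)
    exact (RS_sum_ce he h V hδ).symm
  have h3 := tendsto_nhds_unique h1 h2
  have h4 : (ep (DD pr V) : ℂ) * QT ep L Ω pr V = (tc (DD pr V) * tc m5 / Ω / 2 ^ V.card) *
      (2 ^ V.card * ((ep (DD pr V) : ℂ) * (Ω / (tc (DD pr V) * tc m5) * QT ep L Ω pr V))) := by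
    field_simp
  rw [h4, ← h3, Finset.mul_sum]
  refine Finset.sum_congr rfl fun S hS => ?_
  rw [Finset.mem_powerset] at hS
  unfold Mt
  have h5 : tc (DD pr V) = tc (DD pr S) * ∏ i ∈ V \ S, tc (pr i) := by
    unfold DD
    rw [← tc_prod, ← tc_mul]
    congr 1
    rw [mul_comm]
    exact (Finset.prod_sdiff hS).symm
  have h6 : V.card = S.card + (V \ S).card := by
    have := Finset.card_sdiff_add_card_eq_card hS
    omega
  have h7 : ∏ i ∈ V \ S, ((tc (pr i) - (ep (pr i) : ℂ) * ch pr S (pr i)) / 2) =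
      (∏ i ∈ V \ S, tc (pr i)) / 2 ^ (V \ S).card *
        ∏ i ∈ V \ S, (1 - (ep (pr i) : ℂ) * (ch pr S (pr i) : ℂ) / tc (pr i)) := by
    rw [← Finset.prod_const, ← Finset.prod_div_distrib, ← Finset.prod_mul_distrib]
    refine Finset.prod_congr rfl fun i _ => ?_
    have := tc_ne (hp.pp i).ne
    field_simp
  rw [h5, h6, h7, pow_add]
  ring

/-! ### the leading term -/

variable [Fintype ι]

/-- the weight of a prime -/
noncomputable def we (ep : ZI → ℤ) (pr : ι → ZI) (i : ι) : ZMod 2 := if ep (pr i) = -1 then 1 else 0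

/-- the weights as symbols of a vertex `none` -/
noncomputable def eo (ep : ZI → ℤ) (pr : ι → ZI) : Option ι → Option ι → ZMod 2
  | none, none => 0
  | none, some v => we ep pr v
  | some u, none => we ep pr u
  | some u, some v => em pr u v

lemma eo_self (hp : PF pr) (u : Option ι) : eo ep pr u u = 0 := by
  cases u with
  | none => rfl
  | some u => exact em_self hp u

lemma eo_symm (hp : PF pr) (u v : Option ι) : eo ep pr u v = eo ep pr v u := by
  cases u with
  | none => cases v <;> rfl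
  | some u =>
    cases v with
    | none => rfl
    | some v => exact em_symm hp u v

/-- the number of the spanning trees modulo two -/
noncomputable def tr (ep : ZI → ℤ) (pr : ι → ZI) (S : Finset ι) : ZMod 2 :=
  Ff.tau (eo ep pr) none (Finset.insertNone S)

lemma tr_empty : tr ep pr (∅ : Finset ι) = 1 := by
  unfold tr Ff.tau
  have h0 : (Finset.insertNone (∅ : Finset ι)).erase none = ∅ := by
    ext x
    cases x with
    | none => simp
    | some x => simp
  rw [h0]
  have h1 : Ff.MM (eo ep pr none) (eo ep pr) ∅ ∅ = 1 := by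
    ext i j
    unfold Ff.MM
    simp [Matrix.one_apply]
  rw [h1, Matrix.det_one]

theorem sum_tr (hp : PF pr) {V : Finset ι} (hV : V.Nonempty) :
    ∑ S ∈ V.powerset, tr ep pr S * ∏ v ∈ V \ S, (we ep pr v + ∑ u ∈ S, em pr u v) = 0 := by
  have h1 := Ff.sum_tau (eo ep pr) (eo_self hp) (r := none) (V := Finset.insertNone V)
    (Finset.none_mem_insertNone) (by
      rw [Finset.card_insertNone]
      have := hV.card_pos
      omega)
  rw [← h1]
  refine Finset.sum_bij' (i := fun S _ => Finset.insertNone S) (j := fun S _ => Finset.eraseNone S)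
    ?_ ?_ ?_ ?_ ?_
  · intro S hS
    rw [Finset.mem_powerset] at hS
    rw [Finset.mem_filter, Finset.mem_powerset]
    refine ⟨?_, Finset.none_mem_insertNone⟩
    intro x hx
    cases x with
    | none => exact Finset.none_mem_insertNone
    | some x =>
      rw [Finset.some_mem_insertNone] at hx ⊢
      exact hS hx
  · intro S hS
    rw [Finset.mem_filter, Finset.mem_powerset] at hS
    rw [Finset.mem_powerset]
    intro x hx
    rw [Finset.mem_eraseNone] at hx
    have := hS.1 hx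
    rwa [Finset.some_mem_insertNone] at this
  · intro S _
    exact Finset.eraseNone_insertNone S
  · intro S hS
    rw [Finset.mem_filter] at hS
    rw [Finset.insertNone_eraseNone, Finset.insert_eq_of_mem hS.2]
  · intro S hS
    unfold tr
    congr 1
    rw [insertNone_sdiff, Finset.prod_map]
    refine Finset.prod_congr rfl fun v _ => ?_
    rw [Finset.sum_insertNone]
    rfl

theorem tr_one (hp : PF pr) {V : Finset ι}
    (hker : ∀ z : ι → ZMod 2, (∀ v ∈ V, ∑ u ∈ V, em pr u v * (z u + z v) + we ep pr v * z v = 0) →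
      ∀ v ∈ V, z v = 0) : tr ep pr V = 1 := by
  unfold tr
  refine Ff.tau_one (eo ep pr) (eo_self hp) (eo_symm hp) ?_ Finset.none_mem_insertNone
  intro z hz
  have hk := hker (fun i => z (some i) + z none) (fun v hv => by
    have h1 := hz (some v) (Finset.some_mem_insertNone.2 hv)
    rw [Finset.sum_insertNone] at h1
    have h2 : ∑ u ∈ V, em pr u v * (z (some u) + z none + (z (some v) + z none)) =
        ∑ u ∈ V, em pr u v * (z (some u) + z (some v)) := by
      refine Finset.sum_congr rfl fun u _ => ?_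
      have h3 : z none + z none = 0 := CharTwo.add_self_eq_zero _
      have e : z (some u) + z none + (z (some v) + z none) =
        z (some u) + z (some v) + (z none + z none) := by ring
      rw [e, h3, add_zero]
    rw [h2, ← h1]
    have e1 : eo ep pr none (some v) = we ep pr v := rfl
    have e2 : ∀ u, eo ep pr (some u) (some v) = em pr u v := fun _ => rfl
    rw [e1]
    simp_rw [e2]
    ring)
  have hz0 : ∀ u ∈ Finset.insertNone V, z u = z none := by
    intro u hu
    cases u with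
    | none => rfl
    | some u =>
      have := hk u (Finset.some_mem_insertNone.1 hu)
      exact CharTwo.add_eq_zero.1 this
  intro u hu v hv
  rw [hz0 u hu, hz0 v hv]

section val

variable {Γ : Type*} [LinearOrderedCommGroupWithZero Γ] {v : Valuation ℂ Γ} (h2 : v 2 < 1)
  (h : GLat L Ω)

lemma Cg_int {x y : ℂ} (h : Cg v x y) {c : ℂ} (hc : c = 1 ∨ c = -1) (h2 : v 2 < 1) (hy : y = 0 ∨ y = 1) :
    Cg v (c * x) y := by
  rcases hc with rfl | rfl
  · rwa [one_mul]
  · rw [neg_one_mul]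
    have hone : v (1 : ℂ) ≤ 1 := by rw [map_one]
    have h3 : Cg v (-y) y := by
      rcases hy with rfl | rfl
      · rw [neg_zero]; exact Cg.refl (by rw [map_zero]; exact zero_le)
      · exact ⟨by rw [Valuation.map_neg, map_one], hone, by
          have : (-1 - 1 : ℂ) = -2 := by norm_num
          rw [this, Valuation.map_neg]; exact h2⟩
    exact h.neg.trans h3

include h2 in
lemma half_cg (he : Sg ep) {i : ι} (hp : PF pr) {S : Finset ι} (hi : i ∉ S) :
    Cg v ((tc (pr i) - (ep (pr i) : ℂ) * ch pr S (pr i)) / 2) (uu (we ep pr i + ∑ u ∈ S, em pr u i)) := by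
  have h1 : Cg v ((tc (pr i) - 1) / 2) 0 :=
    Cg.zero (lt_of_le_of_lt (half_le h2 (hp.pp i).prm) (v_pi_lt h2))
  have hch := ch_em hp hi
  set x := ∑ u ∈ S, em pr u i with hx
  rcases he.cs (pr i) with e1 | e1
  · have e2 : we ep pr i = 0 := by unfold we; rw [if_neg (by omega)]
    have e : (tc (pr i) - (ep (pr i) : ℂ) * ch pr S (pr i)) / 2 = (tc (pr i) - 1) / 2 +
      ((1 : ℂ) - ch pr S (pr i)) / 2 := by rw [e1]; push_cast; ring
    rw [e, e2, zero_add, hch]
    have h3 := h1.add (Cg.refl (v := v) (v_uu x))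
    rwa [zero_add] at h3
  · have e2 : we ep pr i = 1 := by unfold we; rw [if_pos e1]
    have e : (tc (pr i) - (ep (pr i) : ℂ) * ch pr S (pr i)) / 2 = ((tc (pr i) - 1) / 2 + 1) -
      ((1 : ℂ) - ch pr S (pr i)) / 2 := by rw [e1]; push_cast; ring
    rw [e, e2, hch]
    have hone : v (1 : ℂ) ≤ 1 := by rw [map_one]
    have h3 := (h1.add (Cg.refl (v := v) hone)).sub (Cg.refl (v := v) (v_uu x))
    rw [zero_add] at h3
    refine h3.trans ?_
    have h4 : ∀ y : ZMod 2, y = 0 ∨ y = 1 := by decide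
    rcases h4 x with h5 | h5 <;> rw [h5]
    · rw [uu_zero, sub_zero, add_zero, uu_one]; exact Cg.refl hone
    · have : (1 : ZMod 2) + 1 = 0 := by decide
      rw [this, uu_zero, uu_one, sub_self]; exact Cg.refl (by rw [map_zero]; exact zero_le)

include h2 in
lemma C1_sum (hp : PF pr) {V : Finset ι} (hV : V.Nonempty) [Fintype (RQ (DD pr V))] :
    v (∑ q : RQ (DD pr V), C1 pr V (m5 * q.out)) < 1 := by
  classical
  have hC : ∀ q : RQ (DD pr V), C1 pr V (m5 * (-q).out) = C1 pr V (m5 * q.out) := by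
    intro q
    have h1 : C1 pr V (m5 * (-q).out) = C1 pr V (-(m5 * q.out)) := by
      apply C1_per
      obtain ⟨c, hc⟩ := out_neg _ q
      exact ⟨m5 * c, by linear_combination m5 * hc⟩
    rw [h1, C1_neg hp]
  have hneq : ∀ q : RQ (DD pr V), C1 pr V (m5 * q.out) ≠ 0 → -q ≠ q := by
    intro q hq hqq
    have h3 := (C1_cases V (m5 * q.out)).resolve_left hq
    obtain ⟨i, hi⟩ := hV
    have h4 : (2 : RQ (DD pr V)) * q = 0 := by
      rw [two_mul]
      nth_rw 1 [← hqq]
      exact neg_add_cancel q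
    have h5 : DD pr V ∣ 2 * q.out := by
      have : Ideal.Quotient.mk (Ideal.span {DD pr V}) (2 * q.out) = 0 := by
        rw [map_mul, Ideal.Quotient.mk_out]
        exact h4
      rwa [Ideal.Quotient.eq_zero_iff_mem, Ideal.mem_span_singleton] at this
    rcases (hp.pp i).pr.dvd_or_dvd ((dvd_DD hi).trans h5) with h6 | h6
    · exact not_dvd_two (hp.pp i) h6
    · have h7 := qr_zero_iff.2 (h6.mul_left m5)
      rw [h3.2 i hi] at h7
      exact one_ne_zero h7
  have hle : ∀ q : RQ (DD pr V), v (C1 pr V (m5 * q.out)) ≤ 1 := by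
    intro q
    rcases C1_cases V (m5 * q.out) with h3 | ⟨h3, -⟩
    · rw [h3, map_zero]; exact zero_le
    · rw [h3, map_one]
  have b2 : v (∑ q : RQ (DD pr V), C1 pr V (m5 * q.out)) ≤ v 2 * 1 :=
    pair_sum h2 (fun q : RQ (DD pr V) => -q) (fun q => neg_neg q)
      (fun q : RQ (DD pr V) => C1 pr V (m5 * q.out)) hC hneq 1 hle Finset.univ
      (fun q _ => Finset.mem_univ _)
  rw [mul_one] at b2
  exact lt_of_le_of_lt b2 h2

/-- the value at zero -/
noncomputable def kq (ep : ZI → ℤ) (L : PeriodPair) (Ω : ℂ) : ℂ := Gs L Ω (sgm ep) 0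

include h2 h in
lemma kq_ne (he : Sg ep) : kq ep L Ω ≠ 0 :=
  (Gs_cg h2 h (sgm_cases he) (OL.of_mem (zero_mem _)) (x4_mem h2 h (zero_mem _))).1

include h2 h in
lemma QT_cg (he : Sg ep) (hp : PF pr) {V : Finset ι} (hV : V.Nonempty) [Fintype (RQ (DD pr V))] :
    Cg v (QT ep L Ω pr V / kq ep L Ω) 0 := by
  have hD := DD_prim hp V
  have h3 : Cg v (∑ q : RQ (DD pr V), C1 pr V (m5 * q.out) *
      (Gs L Ω (sgm ep) (zq Ω (DD pr V) q.out) / kq ep L Ω))
      (∑ q : RQ (DD pr V), C1 pr V (m5 * q.out)) := by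
    refine Cg.sum (Finset.univ : Finset (RQ (DD pr V))) fun q _ => ?_
    rcases C1_cases V (m5 * q.out) with h3 | ⟨h3, h4⟩
    · rw [h3, zero_mul]
      exact Cg.refl (by rw [map_zero]; exact zero_le)
    · rw [h3, one_mul]
      have h5 : ¬ DD pr V ∣ q.out := by
        intro h6
        exact not_dvd_of_C1 hV h4 (h6.mul_left m5)
      have hO := zq_OT h hD h5
      exact (Gs_cg h2 h (sgm_cases he) (OT.ol hO) (x4_dist h2 h hO)).2
  have h4 : Cg v (∑ q : RQ (DD pr V), C1 pr V (m5 * q.out)) 0 := Cg.zero (C1_sum h2 hp hV)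
  have e : QT ep L Ω pr V / kq ep L Ω = ∑ q : RQ (DD pr V), C1 pr V (m5 * q.out) *
      (Gs L Ω (sgm ep) (zq Ω (DD pr V) q.out) / kq ep L Ω) := by
    unfold QT
    rw [Finset.sum_div]
    refine Finset.sum_congr rfl fun q _ => ?_
    rw [mul_div_assoc]
  rw [e]
  exact h3.trans h4

include h2 h in
lemma QT_empty (he : Sg ep) (hp : PF pr) [Fintype (RQ (DD pr (∅ : Finset ι)))] :
    Cg v (QT ep L Ω pr ∅ / kq ep L Ω) 1 := by
  have hD1 : DD pr (∅ : Finset ι) = 1 := Finset.prod_empty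
  have hsub : Subsingleton (RQ (DD pr (∅ : Finset ι))) := by
    rw [Ideal.Quotient.subsingleton_iff, hD1]
    exact Ideal.span_singleton_one
  have hcard : (Finset.univ : Finset (RQ (DD pr (∅ : Finset ι)))) = {0} := by
    ext x
    simp [Subsingleton.elim x 0]
  have e1 : C1 pr (∅ : Finset ι) (m5 * (0 : RQ (DD pr (∅ : Finset ι))).out) = 1 := by
    unfold C1
    simp
  unfold QT
  rw [hcard, Finset.sum_singleton, e1, one_mul]
  have hm : zq Ω (DD pr (∅ : Finset ι)) (0 : RQ (DD pr (∅ : Finset ι))).out ∈ L.lattice := by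
    refine (mem_lat h.lat).2 ⟨(0 : RQ (DD pr (∅ : Finset ι))).out, ?_⟩
    unfold zq
    rw [hD1, tc_one, div_one]
  exact (Gs_cg h2 h (sgm_cases he) (OL.of_mem hm) (x4_mem h2 h hm)).2

include h2 h in
/-- **the leading term** -/
theorem Mt_cg (he : Sg ep) (hp : PF pr) {l : Finset ι → ℂ}
    (hl : ∀ S, Tendsto (RS (ce ep pr S ∅)) (𝓝[>] 0) (𝓝 (l S))) (V : Finset ι) :
    Cg v (Mt Ω pr l V / kq ep L Ω) (uu (tr ep pr V)) := by
  have hk := kq_ne h2 h he
  induction V using Finset.strongInduction with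
  | H V ih =>
    have hfin := H385.he1_finite (DD_ne hp V)
    let _ := Fintype.ofFinite (RQ (DD pr V))
    have hrec := recur_ce he h hp hl V
    rw [← Finset.add_sum_erase V.powerset _ (Finset.mem_powerset_self V), Finset.sdiff_self,
      Finset.prod_empty, mul_one] at hrec
    have hMV : Mt Ω pr l V / kq ep L Ω = (ep (DD pr V) : ℂ) * (QT ep L Ω pr V / kq ep L Ω) -
        ∑ S ∈ V.powerset.erase V, (Mt Ω pr l S / kq ep L Ω) *
          ∏ i ∈ V \ S, ((tc (pr i) - (ep (pr i) : ℂ) * ch pr S (pr i)) / 2) := by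
      have e : ∀ S, (Mt Ω pr l S / kq ep L Ω) *
          ∏ i ∈ V \ S, ((tc (pr i) - (ep (pr i) : ℂ) * ch pr S (pr i)) / 2) =
          (Mt Ω pr l S * ∏ i ∈ V \ S, ((tc (pr i) - (ep (pr i) : ℂ) * ch pr S (pr i)) / 2)) /
            kq ep L Ω := by
        intro S; ring
      simp_rw [e]
      rw [← Finset.sum_div, ← mul_div_assoc, ← hrec]
      ring
    have hth : ((ep (DD pr V) : ℤ) : ℂ) = 1 ∨ ((ep (DD pr V) : ℤ) : ℂ) = -1 := by
      rcases he.cs (DD pr V) with h3 | h3 <;> rw [h3]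
      · left; norm_num
      · right; norm_num
    rcases V.eq_empty_or_nonempty with rfl | hV
    · have h3 : (∅ : Finset ι).powerset.erase ∅ = ∅ := by simp
      rw [hMV, h3, Finset.sum_empty, sub_zero, tr_empty, uu_one]
      exact Cg_int (QT_empty h2 h he hp) hth h2 (Or.inr rfl)
    · have hQ := Cg_int (QT_cg h2 h he hp hV) hth h2 (Or.inl rfl)
      have hterm : ∀ S ∈ V.powerset.erase V,
          Cg v ((Mt Ω pr l S / kq ep L Ω) *
            ∏ i ∈ V \ S, ((tc (pr i) - (ep (pr i) : ℂ) * ch pr S (pr i)) / 2))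
            (uu (tr ep pr S * ∏ i ∈ V \ S, (we ep pr i + ∑ u ∈ S, em pr u i))) := by
        intro S hS
        rw [Finset.mem_erase, Finset.mem_powerset] at hS
        rw [uu_mul, uu_prod]
        refine (ih S (Finset.ssubset_iff_subset_ne.2 ⟨hS.2, hS.1⟩)).mul
          (Cg.prod _ fun i hi => half_cg h2 he hp (Finset.mem_sdiff.1 hi).2)
      have hsum := Cg.sum _ hterm
      have h3 := (uu_sum h2 (V.powerset.erase V) (fun S =>
        tr ep pr S * ∏ i ∈ V \ S, (we ep pr i + ∑ u ∈ S, em pr u i))).symm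
      have h4 : ∑ S ∈ V.powerset.erase V,
          tr ep pr S * ∏ i ∈ V \ S, (we ep pr i + ∑ u ∈ S, em pr u i) = tr ep pr V := by
        have h5 := sum_tr (ep := ep) hp hV
        rw [← Finset.add_sum_erase V.powerset _ (Finset.mem_powerset_self V), Finset.sdiff_self,
          Finset.prod_empty, mul_one] at h5
        have h6 : ∀ a b : ZMod 2, a + b = 0 → b = a := by decide
        exact h6 _ _ h5
      rw [h4] at h3
      rw [hMV]
      have h5 := hQ.sub (hsum.trans h3)
      rw [zero_sub] at h5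
      exact h5.trans (uu_neg h2 _)

end val

/-- **non-vanishing** -/
theorem lim_ce_ne (he : Sg ep) (h : GLat L Ω) (hp : PF pr) {V : Finset ι}
    (hker : ∀ z : ι → ZMod 2, (∀ v ∈ V, ∑ u ∈ V, em pr u v * (z u + z v) + we ep pr v * z v = 0) →
      ∀ v ∈ V, z v = 0) {l : ℂ}
    (hl : Tendsto (RS (ce ep pr V ∅)) (𝓝[>] 0) (𝓝 l)) : l ≠ 0 := by
  obtain ⟨B, h2⟩ := exists_val
  choose f hf using exists_lim_ce (ι := ι) he h hp
  have h3 := Mt_cg h2 h he hp hf V
  rw [tr_one hp hker, uu_one] at h3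
  have h4 : f V = l := tendsto_nhds_unique (hf V) hl
  rintro rfl
  have h5 : Mt Ω pr f V = 0 := by
    unfold Mt
    rw [h4]
    simp
  rw [h5, zero_div] at h3
  have h6 := h3.s
  rw [zero_sub, Valuation.map_neg, map_one] at h6
  exact lt_irrefl _ h6

end Run7.h26.QI
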