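import Pool.Agent.Y699.Lf
import Pool.Agent.Run7.h26.QI.Rn
import Pool.Agent.Run7.h26.CN.Hc

/-!
The L-function of `y² = x³ - g² x` over the Gaussian field, in terms of a Hecke character (after
`Y699/Lf`).
-/

set_option autoImplicit false
set_option linter.unusedSectionVars false

open NumberField IsDedekindDomain

namespace Run7.h26.QI

open Pool.Agent.Y699
open H385 (ZI RQ im1 nrm)
open Pool.Agent.W164.RC (tc_mul tc_star two2 prim_iff_dvd unit_norm unit_cases Ip Ip_spec Ip_exists dg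
  aD_roots local_poly local_two ep_hecke)
open Pool.Agent.H304R2.EC.A1 (prim prim_mul prim_cancel prim_one prim_norm_odd prim_star eq_one_of_prim
  norm_def' re_mul' im_mul' eq_of_dvd prim_ne_zero exists_prim)
open Pool.Agent.H921R2.TatePole (below deg nm nm_eq nm_summable two_le_nm)
open Pool.Agent.H82R3.EK (luc luc_eq)
open Pool.Agent.H304R3.HK (tc HC LH bH psi psi_apply uh_psi goodH bb ee UH tc_star_mul tc_ne_zero)

variable {K : Type} [Field K] [NumberField K]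

/-- the Hecke character of the quadratic twist by `g` -/
structure PX (X : ZI →* ℂ) (q g : ZI) : Prop where
  hc : HC q X
  pi : X pi1 = 0
  val : ∀ π : ZI, PP π → X π = (qr π g : ℂ)

variable {X : ZI →* ℂ} {q g : ZI}

/-- the Euler factor of the first Hecke L-function -/
noncomputable def f1 (X : ZI →* ℂ) (e : ZI ≃+* 𝓞 K) (s : ℂ)
    (v : HeightOneSpectrum (𝓞 K)) : ℂ :=
  (1 - X (pg e v) * tc (pg e v) * ((Ideal.absNorm v.asIdeal : ℕ) : ℂ) ^ (-s))⁻¹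

lemma norm_XX (hX : PX X q g) (a : ZI) : ‖X a‖ ≤ 1 :=
  Pool.Agent.H304R3.HK.chi_le _ _ hX.hc a

lemma term_bound (hX : PX X q g) (e : ZI ≃+* 𝓞 K) (s : ℂ)
    (v : HeightOneSpectrum (𝓞 K)) :
    ‖X (pg e v) * tc (pg e v) * ((Ideal.absNorm v.asIdeal : ℕ) : ℂ) ^ (-s)‖ ≤
      (nm v : ℝ) ^ (-(s.re - 1 / 2)) := by
  have h2 := two_le_nm v
  have h0 : 0 < nm v := by omega
  have h3 : (0 : ℝ) < nm v := by exact_mod_cast h0
  have h4 : nm v = nrm (pg e v) := norm_pg e (pg_span e v)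
  rw [norm_mul, norm_mul]
  have h5 : ‖((Ideal.absNorm v.asIdeal : ℕ) : ℂ) ^ (-s)‖ = (nm v : ℝ) ^ (-s.re) := by
    have := Complex.norm_natCast_cpow_of_pos h0 (-s)
    rw [Complex.neg_re] at this
    exact this
  rw [h5, norm_tc_eq, ← h4]
  have h6 : (nm v : ℝ) ^ (-(s.re - 1 / 2)) = (nm v : ℝ) ^ (1 / 2 : ℝ) * (nm v : ℝ) ^ (-s.re) := by
    rw [← Real.rpow_add h3]
    congr 1
    ring
  rw [h6, mul_assoc]
  exact mul_le_of_le_one_left (by positivity) (norm_XX hX _)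

lemma half_bound (v : HeightOneSpectrum (𝓞 K)) {x : ℝ} (hx : 1 < x) : (nm v : ℝ) ^ (-x) ≤ 1 / 2 :=
  Pool.Agent.H921R2.TatePole.nm_rpow_le_half v hx.le

lemma f1_mul (hX : PX X q g) (e : ZI ≃+* 𝓞 K) {s : ℂ} (hs : 3 / 2 < s.re) :
    Multipliable (f1 X e s) := by
  have h1 : 1 < s.re - 1 / 2 := by linarith
  have hsum := nm_summable (K := K) (x := s.re - 1 / 2) h1
  have h5 : Summable (fun v : HeightOneSpectrum (𝓞 K) => ‖f1 X e s v - 1‖) := by
    refine Summable.of_nonneg_of_le (fun v => norm_nonneg _) (fun v => ?_) (hsum.mul_left 2)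
    set t := X (pg e v) * tc (pg e v) * ((Ideal.absNorm v.asIdeal : ℕ) : ℂ) ^ (-s) with ht
    have hb := term_bound hX e s v
    have hh := half_bound v h1
    rw [← ht] at hb
    have h6 : ‖t‖ ≤ 1 / 2 := hb.trans hh
    have h7 : 1 / 2 ≤ ‖1 - t‖ := by
      have := norm_sub_norm_le (1 : ℂ) t
      rw [norm_one] at this
      linarith
    have h8 : (1 - t) ≠ 0 := by
      intro h0
      rw [h0, norm_zero] at h7
      norm_num at h7
    have h9 : f1 X e s v - 1 = t * (1 - t)⁻¹ := by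
      unfold f1
      rw [← ht]
      field_simp
      ring
    rw [h9, norm_mul, norm_inv]
    have h10 : ‖1 - t‖⁻¹ ≤ 2 := by
      rw [inv_le_comm₀ (by linarith) (by norm_num)]
      linarith
    calc ‖t‖ * ‖1 - t‖⁻¹ ≤ ‖t‖ * 2 := by gcongr
      _ ≤ 2 * (nm v : ℝ) ^ (-(s.re - 1 / 2)) := by linarith
  have h7 := multipliable_one_add_of_summable h5
  refine h7.congr (fun v => ?_)
  ring

lemma psi_term (hX : PX X q g) {p : Nat.Primes} {z : ZI} (hz : z ∈ Ip p) (s : ℂ) :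
    psi (X) z * (((p : ℕ) : ℂ) ^ (-(s - 1 / 2))) ^ dg p =
      X z * tc z * ((nrm z : ℕ) : ℂ) ^ (-s) := by
  obtain ⟨-, hzp, h3, -⟩ := Ip_spec p.2 hz
  rw [psi_apply _ hzp.ne_zero, h3]
  have hp0 : ((p : ℕ) : ℂ) ≠ 0 := Nat.cast_ne_zero.2 p.2.ne_zero
  have hpr : (0 : ℝ) < (p : ℕ) := by exact_mod_cast p.2.pos
  have e0 : (((p : ℕ) ^ dg p : ℕ) : ℂ) ^ (-s) = (((p : ℕ) : ℂ) ^ (-s)) ^ dg p := by
    have hk : ∀ k : ℕ, (((p : ℕ) ^ k : ℕ) : ℂ) ^ (-s) = (((p : ℕ) : ℂ) ^ (-s)) ^ k := by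
      intro k
      induction k with
      | zero => simp
      | succ k ih =>
        rw [pow_succ, Nat.cast_mul, Complex.natCast_mul_natCast_cpow, ih, pow_succ]
    exact hk _
  have e1 : ((p : ℕ) : ℂ) ^ (-(s - 1 / 2)) = ((p : ℕ) : ℂ) ^ (-s) * ((p : ℕ) : ℂ) ^ ((1 / 2 : ℂ)) := by
    rw [← Complex.cpow_add _ _ hp0]
    congr 1
    ring
  have e2 : ((‖tc z‖ : ℝ) : ℂ) = (((p : ℕ) : ℂ) ^ ((1 / 2 : ℂ))) ^ dg p := by
    have h1 : ‖tc z‖ = (((p : ℕ) : ℝ) ^ (1 / 2 : ℝ)) ^ dg p := by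
      rw [norm_tc_eq, h3]
      push_cast
      rw [← Real.rpow_natCast, ← Real.rpow_mul hpr.le, mul_comm, Real.rpow_mul hpr.le,
        Real.rpow_natCast]
    rw [h1, Complex.ofReal_pow, Complex.ofReal_cpow hpr.le]
    push_cast
    rfl
  have e3 : ((‖tc z‖ : ℝ) : ℂ) ≠ 0 := by
    rw [Complex.ofReal_ne_zero, norm_ne_zero_iff]
    exact tc_ne_zero hzp.ne_zero
  rw [e0, e1, mul_pow, ← e2]
  field_simp

theorem f1_hasProd (hX : PX X q g) (e : ZI ≃+* 𝓞 K) {s : ℂ} (hs : 3 / 2 < s.re) :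
    HasProd (f1 X e s) (LH (X) (s - 1 / 2)) := by
  obtain ⟨A, hA, hgood⟩ := goodH
  have H := hX.hc
  have hre : 1 < (s - 1 / 2).re := by
    have : (s - 1 / 2).re = s.re - 1 / 2 := by simp
    rw [this]; linarith
  have h1 := ep_hecke (uh_psi _ _ H) (s - 1 / 2) _ ((hgood _ _ H).2.1 _ hre)
  rw [← (plEquiv e).hasProd_iff]
  refine HasProd.sigma_of_hasProd h1 (fun p => ?_) ?_
  · have h2 : (1 - bb (psi (X)) (p : ℕ) * (((p : ℕ) : ℂ) ^ (-(s - 1 / 2))) +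
        ee (psi (X)) (p : ℕ) * (((p : ℕ) : ℂ) ^ (-(s - 1 / 2))) ^ 2)⁻¹ =
        ∏ z : {z : ZI // z ∈ Iq p}, (f1 X e s ∘ plEquiv e) ⟨p, z⟩ := by
      have h3 : ∀ z : {z : ZI // z ∈ Iq p}, (f1 X e s ∘ plEquiv e) ⟨p, z⟩ =
          (1 - X z.1 * tc z.1 * ((nrm z.1 : ℕ) : ℂ) ^ (-s))⁻¹ := by
        rintro ⟨z, hz⟩
        show f1 X e s (plc e (Iq_spec hz).1) = _
        unfold f1
        rw [pg_plc e hz, norm_pg e (z := z) rfl]
      simp_rw [h3]
      rw [Finset.prod_coe_sort (Iq p) (fun z => (1 - X z * tc z * ((nrm z : ℕ) : ℂ) ^ (-s))⁻¹)]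
      unfold Iq
      split_ifs with hp2
      · rw [Finset.prod_singleton, hX.pi, zero_mul, zero_mul]
        rw [hp2, local_two (uh_psi _ _ H)]
        have h4 : psi (X) ⟨1, 1⟩ = 0 := by
          rw [psi_apply _ (by decide)]
          have h5 : X ⟨1, 1⟩ = 0 := hX.pi
          rw [h5, zero_mul]
        rw [h4, zero_mul]
      · rw [local_poly (uh_psi _ _ H) p.2 hp2, ← Finset.prod_inv_distrib]
        refine Finset.prod_congr rfl fun z hz => ?_
        rw [psi_term hX hz]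
    rw [h2]
    exact hasProd_fintype _
  · exact (plEquiv e).multipliable_iff.2 (f1_mul hX e hs)

/-- the Euler factor of the second Hecke L-function -/
noncomputable def f2 (X : ZI →* ℂ) (e : ZI ≃+* 𝓞 K) (s : ℂ)
    (v : HeightOneSpectrum (𝓞 K)) : ℂ :=
  (1 - X (pg e v) * tc (star (pg e v)) * ((Ideal.absNorm v.asIdeal : ℕ) : ℂ) ^ (-s))⁻¹

lemma XX_real (hX : PX X q g) {p : Nat.Primes} {z : ZI} (hz : z ∈ Iq p) :
    (starRingEnd ℂ) (X z) = X z := by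
  unfold Iq at hz
  split_ifs at hz with hp2
  · rw [Finset.mem_singleton] at hz
    rw [hz, hX.pi, map_zero]
  · rw [hX.val z ⟨(Ip_spec p.2 hz).2.1, (Ip_spec p.2 hz).1⟩]
    simp

lemma f2_eq (hX : PX X q g) (e : ZI ≃+* 𝓞 K) (s : ℂ) (v : HeightOneSpectrum (𝓞 K)) :
    f2 X e s v = (starRingEnd ℂ) (f1 X e ((starRingEnd ℂ) s) v) := by
  unfold f2 f1
  rw [map_inv₀, map_sub, map_one, map_mul, map_mul, XX_real hX (pg_mem e v), tc_star]
  congr 3
  have h := Complex.cpow_conj ((Ideal.absNorm v.asIdeal : ℕ) : ℂ) (-(starRingEnd ℂ) s) (by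
    rw [Complex.natCast_arg]; exact Real.pi_pos.ne)
  rw [map_neg, Complex.conj_conj, map_natCast] at h
  rw [← h]

theorem f2_hasProd (hX : PX X q g) (e : ZI ≃+* 𝓞 K) {s : ℂ} (hs : 3 / 2 < s.re) :
    HasProd (f2 X e s) ((starRingEnd ℂ) (LH (X) ((starRingEnd ℂ) s - 1 / 2))) := by
  have h1 := f1_hasProd hX e (s := (starRingEnd ℂ) s) (by rwa [Complex.conj_re])
  have h2 := h1.map (starRingEnd ℂ) Complex.continuous_conj
  refine h2.congr_fun (fun v => ?_)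
  rw [f2_eq hX]
  rfl

/-- the L-function of `y² = x³ - D² x` -/
noncomputable def LE (X : ZI →* ℂ) (s : ℂ) : ℂ :=
  LH (X) (s - 1 / 2) * (starRingEnd ℂ) (LH (X) ((starRingEnd ℂ) s - 1 / 2))

theorem LE_diff (hX : PX X q g) : Differentiable ℂ (LE X) := by
  obtain ⟨A, hA, hgood⟩ := goodH
  have h1 := (hgood _ _ hX.hc).1
  have h2 : Differentiable ℂ (fun s => LH (X) (s - 1 / 2)) :=
    h1.comp (differentiable_id.sub_const _)
  refine h2.mul fun s => ?_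
  have h3 : DifferentiableAt ℂ ((starRingEnd ℂ) ∘ (fun s => LH (X) (s - 1 / 2)) ∘ (starRingEnd ℂ)) s :=
    differentiableAt_conj_conj_iff.2 (h2 _)
  exact h3

theorem LE_one (hX : PX X q g) (h : LH (X) (1 / 2) ≠ 0) : LE X 1 ≠ 0 := by
  unfold LE
  have e : (1 : ℂ) - 1 / 2 = 1 / 2 := by norm_num
  rw [map_one, e]
  exact mul_ne_zero h ((map_ne_zero _).2 h)


end Run7.h26.QI
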