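import Pool.Agent.Y699.Mn
import Pool.Agent.Y699.Qp
import Pool.Agent.Run7.h26.QI.Lx

/-!
Minimality of `y² = x³ - g² x` for all squarefree Gaussian integers `g` which are not primary.
-/

set_option autoImplicit false
set_option linter.unusedSectionVars false

open NumberField IsDedekindDomain

namespace Run7.h26.QI

open Pool.Agent.Y699
open H385 (ZI RQ im1 nrm)
open Pool.Agent.W164.RC (tc_mul tc_star two2 prim_iff_dvd unit_norm unit_cases)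
open Pool.Agent.H304R2.EC.A1 (prim prim_mul prim_cancel prim_one prim_norm_odd prim_star eq_one_of_prim
  norm_def' re_mul' im_mul' eq_of_dvd prim_ne_zero exists_prim)

/-- `y² = x³ - g² x` cannot be scaled down at `1 + i` -/
def NoUp (g : ZI) : Prop := ∀ (a b : ZI) (V : WeierstrassCurve ZI), pi1 ∣ a → ¬ pi1 ∣ b →
  V.Δ * a ^ 12 = 64 * g ^ 6 * b ^ 12 → V.c₄ * a ^ 4 = 48 * g ^ 2 * b ^ 4 → False

lemma pi4 : pi1 ^ 4 = (-4 : ZI) := by decide

lemma pi12 : pi1 ^ 12 = (-64 : ZI) := by decide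

lemma pi1_three : ¬ pi1 ∣ (3 : ZI) := by
  rw [← norm_odd_iff]; decide

lemma pi1_sq : pi1 ^ 2 = (2 * im1 : ZI) := by decide

lemma im1_sq : im1 ^ 2 = (-1 : ZI) := by decide

lemma pi1_im1 : ¬ pi1 ∣ (im1 : ZI) := by
  rw [← norm_odd_iff]; decide

lemma dvd_pi1_two {x : ZI} (h : (2 : ZI) ∣ x) : pi1 ∣ x := pi1_two.trans h

/-- the common beginning -/
lemma up_start {a b g : ZI} {V : WeierstrassCurve ZI} (ha : pi1 ∣ a)
    (hΔ : V.Δ * a ^ 12 = 64 * g ^ 6 * b ^ 12) (hc : V.c₄ * a ^ 4 = 48 * g ^ 2 * b ^ 4) :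
    ∃ a0 : ZI, a = pi1 * a0 ∧ V.Δ * a0 ^ 12 = -(g ^ 6 * b ^ 12) ∧ V.c₄ * a0 ^ 4 = -12 * g ^ 2 * b ^ 4 := by
  obtain ⟨a0, rfl⟩ := ha
  refine ⟨a0, rfl, ?_, ?_⟩
  · have h : (-64 : ZI) * (V.Δ * a0 ^ 12) = -64 * (-(g ^ 6 * b ^ 12)) := by
      have e : -64 * (-(g ^ 6 * b ^ 12)) = 64 * g ^ 6 * b ^ 12 := by ring
      rw [e, ← hΔ, mul_pow, pi12]
      ring
    exact mul_left_cancel₀ (by decide) h
  · have h : (-4 : ZI) * (V.c₄ * a0 ^ 4) = -4 * (-12 * g ^ 2 * b ^ 4) := by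
      have e : -4 * (-12 * g ^ 2 * b ^ 4) = 48 * g ^ 2 * b ^ 4 := by ring
      rw [e, ← hc, mul_pow, pi4]
      ring
    exact mul_left_cancel₀ (by decide) h

lemma not_dvd_pow {x : ZI} (h : ¬ pi1 ∣ x) (n : ℕ) : ¬ pi1 ∣ x ^ n := fun h' =>
  h (pi1_prime.dvd_of_dvd_pow h')

lemma not_dvd_mul {x y : ZI} (h : ¬ pi1 ∣ x) (h' : ¬ pi1 ∣ y) : ¬ pi1 ∣ x * y := fun h'' =>
  (pi1_prime.dvd_or_dvd h'').elim h h'

/-- the class `i D` -/
theorem noup_im {D : ZI} (hD : prim D) : NoUp (im1 * D) := by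
  intro a b V ha hb hΔ hc
  obtain ⟨a0, -, h1, h2⟩ := up_start ha hΔ hc
  have hP := pi1_prime
  have hDo := pi1_prim hD
  set g := im1 * D with hg
  have hgo : ¬ pi1 ∣ g := not_dvd_mul pi1_im1 hDo
  have ha0 : ¬ pi1 ∣ a0 := by
    intro h
    have h3 : pi1 ∣ -(g ^ 6 * b ^ 12) := by
      rw [← h1]; exact (dvd_pow h (by norm_num)).mul_left _
    rw [dvd_neg] at h3
    exact not_dvd_mul (not_dvd_pow hgo 6) (not_dvd_pow hb 12) h3
  have hVo : ¬ pi1 ∣ V.Δ := by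
    intro h
    have h3 : pi1 ∣ -(g ^ 6 * b ^ 12) := by
      rw [← h1]; exact h.mul_right _
    rw [dvd_neg] at h3
    exact not_dvd_mul (not_dvd_pow hgo 6) (not_dvd_pow hb 12) h3
  have ha1 : pi1 ∣ V.a₁ := by
    have h3 : pi1 ∣ V.a₁ ^ 4 * a0 ^ 4 := by
      have e : V.a₁ ^ 4 * a0 ^ 4 = 2 * (-6 * g ^ 2 * b ^ 4 - (4 * V.a₁ ^ 2 * V.a₂ + 8 * V.a₂ ^ 2
        - 12 * (2 * V.a₄ + V.a₁ * V.a₃)) * a0 ^ 4) := by
        unfold WeierstrassCurve.c₄ WeierstrassCurve.b₂ WeierstrassCurve.b₄ at h2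
        linear_combination h2
      rw [e]
      exact pi1_two.mul_right _
    rcases hP.dvd_or_dvd h3 with h4 | h4
    · exact hP.dvd_of_dvd_pow h4
    · exact absurd (hP.dvd_of_dvd_pow h4) ha0
  obtain ⟨g1, hg1⟩ := ha1
  have ha3 : ¬ pi1 ∣ V.a₃ := by
    intro h3
    apply hVo
    have hb2 : pi1 ∣ V.b₂ := by
      unfold WeierstrassCurve.b₂
      exact dvd_add (dvd_pow ⟨g1, hg1⟩ (by norm_num)) (dvd_pi1_two ⟨2 * V.a₂, by ring⟩)
    have hb6 : pi1 ∣ V.b₆ := by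
      unfold WeierstrassCurve.b₆
      exact dvd_add (dvd_pow h3 (by norm_num)) (dvd_pi1_two ⟨2 * V.a₆, by ring⟩)
    unfold WeierstrassCurve.Δ
    have e : -V.b₂ ^ 2 * V.b₈ - 8 * V.b₄ ^ 3 - 27 * V.b₆ ^ 2 + 9 * V.b₂ * V.b₄ * V.b₆ =
      V.b₂ * (-V.b₂ * V.b₈ + 9 * V.b₄ * V.b₆) + 2 * (-4 * V.b₄ ^ 3) + V.b₆ * (-27 * V.b₆) := by ring
    rw [e]
    exact dvd_add (dvd_add (hb2.mul_right _) (pi1_two.mul_right _)) (hb6.mul_right _)
  set T : ZI := g1 ^ 4 - 4 * im1 * g1 ^ 2 * V.a₂ - 4 * V.a₂ ^ 2 + 12 * V.a₄ + 6 * pi1 * g1 * V.a₃ with hT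
  have e2 := pi1_sq
  have e3 := im1_sq
  have h4 : T * a0 ^ 4 = 3 * g ^ 2 * b ^ 4 := by
    have h5 : (-4 : ZI) * (T * a0 ^ 4) = -4 * (3 * g ^ 2 * b ^ 4) := by
      have e5 : -4 * (3 * g ^ 2 * b ^ 4) = -12 * g ^ 2 * b ^ 4 := by ring
      rw [e5, ← h2, hT]
      unfold WeierstrassCurve.c₄ WeierstrassCurve.b₂ WeierstrassCurve.b₄
      rw [hg1]
      have e6 : (pi1 * g1) ^ 2 = 2 * im1 * g1 ^ 2 := by rw [mul_pow, e2]
      have e7 : ((pi1 * g1) ^ 2 + 4 * V.a₂) ^ 2 = -4 * (g1 ^ 4 - 4 * im1 * g1 ^ 2 * V.a₂ - 4 * V.a₂ ^ 2) := by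
        rw [e6]
        linear_combination (4 * g1 ^ 4) * e3
      rw [e7]
      ring
    exact mul_left_cancel₀ (by decide) h5
  have hg1o : ¬ pi1 ∣ g1 := by
    intro h5
    have h6 : pi1 ∣ T := by
      have e : T = g1 * (g1 ^ 3 + 6 * pi1 * V.a₃) + 2 * (-2 * im1 * g1 ^ 2 * V.a₂ - 2 * V.a₂ ^ 2 + 6 * V.a₄) := by
        rw [hT]; ring
      rw [e]
      exact dvd_add (h5.mul_right _) (pi1_two.mul_right _)
    have h7 : pi1 ∣ 3 * g ^ 2 * b ^ 4 := by rw [← h4]; exact h6.mul_right _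
    exact not_dvd_mul (not_dvd_mul pi1_three (not_dvd_pow hgo 2)) (not_dvd_pow hb 4) h7
  obtain ⟨y1, k1⟩ := four_odd hg1o
  obtain ⟨y2, k2⟩ := four_odd ha0
  obtain ⟨y3, k3⟩ := four_odd hb
  obtain ⟨x, hx⟩ := (prim_iff_dvd D).1 hD
  have hD1 : D = 1 + two2 * x := by linear_combination hx
  have e22 : two2 = 2 * pi1 := by decide
  have hgs : ∃ y4, g ^ 2 = -1 + 4 * y4 := by
    refine ⟨-(pi1 * x + 2 * im1 * x ^ 2), ?_⟩
    rw [hg, mul_pow, e3, hD1, e22]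
    linear_combination (-4 * x ^ 2) * e2
  obtain ⟨y4, k4⟩ := hgs
  -- 4 divides 6 pi g1 a3
  have h8 : (4 : ZI) ∣ 6 * pi1 * g1 * V.a₃ := by
    refine ⟨3 * y4 * (1 + 8 * y3) - 6 * y3 - 1 - 2 * y2 * T - (2 * y1 - im1 * g1 ^ 2 * V.a₂ - V.a₂ ^ 2 + 3 * V.a₄), ?_⟩
    have h9 : T * (1 + 8 * y2) = 3 * (-1 + 4 * y4) * (1 + 8 * y3) := by rw [← k2, ← k4, ← k3]; exact h4
    have h10 : T = (1 + 8 * y1) - 4 * im1 * g1 ^ 2 * V.a₂ - 4 * V.a₂ ^ 2 + 12 * V.a₄ + 6 * pi1 * g1 * V.a₃ := by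
      rw [← k1]
    linear_combination h9 - h10
  obtain ⟨c, hcc⟩ := h8
  have h9 : 3 * g1 * V.a₃ = pi1 * (-im1 * c) := by
    have h10 : (2 * pi1) * (3 * g1 * V.a₃) = (2 * pi1) * (pi1 * (-im1 * c)) := by
      have e5 : pi1 * pi1 = 2 * im1 := by rw [← sq]; exact e2
      linear_combination hcc + (2 * im1 * c) * e5 + (4 * c) * e3
    exact mul_left_cancel₀ (by decide) h10
  have h10 : pi1 ∣ 3 * g1 * V.a₃ := ⟨_, h9⟩
  exact not_dvd_mul (not_dvd_mul pi1_three hg1o) ha3 h10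

/-- the classes with `1 + i` -/
theorem noup_pi {g' : ZI} (hg' : ¬ pi1 ∣ g') : NoUp (pi1 * g') := by
  intro a b V ha hb hΔ hc
  obtain ⟨a0, -, h1, h2⟩ := up_start ha hΔ hc
  have hP := pi1_prime
  have e2 := pi1_sq
  have e3 := im1_sq
  have ha0 : ¬ pi1 ∣ a0 := by
    rintro ⟨a1, rfl⟩
    have h3 : pi1 ^ 6 * (V.Δ * pi1 ^ 6 * a1 ^ 12) = pi1 ^ 6 * (-(g' ^ 6 * b ^ 12)) := by
      linear_combination h1
    have h4 := mul_left_cancel₀ (pow_ne_zero 6 hP.ne_zero) h3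
    have h5 : pi1 ∣ -(g' ^ 6 * b ^ 12) := by
      rw [← h4]
      exact ⟨V.Δ * pi1 ^ 5 * a1 ^ 12, by ring⟩
    rw [dvd_neg] at h5
    exact not_dvd_mul (not_dvd_pow hg' 6) (not_dvd_pow hb 12) h5
  have h2' : V.c₄ * a0 ^ 4 = -24 * im1 * g' ^ 2 * b ^ 4 := by
    rw [h2, mul_pow]
    linear_combination (-12 * g' ^ 2 * b ^ 4) * e2
  have ha1 : pi1 ∣ V.a₁ := by
    have h3 : pi1 ∣ V.a₁ ^ 4 * a0 ^ 4 := by
      have e : V.a₁ ^ 4 * a0 ^ 4 = 2 * (-12 * im1 * g' ^ 2 * b ^ 4 - (4 * V.a₁ ^ 2 * V.a₂ + 8 * V.a₂ ^ 2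
        - 12 * (2 * V.a₄ + V.a₁ * V.a₃)) * a0 ^ 4) := by
        unfold WeierstrassCurve.c₄ WeierstrassCurve.b₂ WeierstrassCurve.b₄ at h2'
        linear_combination h2'
      rw [e]
      exact pi1_two.mul_right _
    rcases hP.dvd_or_dvd h3 with h4 | h4
    · exact hP.dvd_of_dvd_pow h4
    · exact absurd (hP.dvd_of_dvd_pow h4) ha0
  obtain ⟨g1, hg1⟩ := ha1
  set t := im1 * g1 ^ 2 + 2 * V.a₂ with ht
  have h3 : t ^ 2 * a0 ^ 4 = 6 * ((2 * V.a₄ + pi1 * g1 * V.a₃) * a0 ^ 4 - im1 * g' ^ 2 * b ^ 4) := by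
    have h4 : (4 : ZI) * (t ^ 2 * a0 ^ 4) =
        4 * (6 * ((2 * V.a₄ + pi1 * g1 * V.a₃) * a0 ^ 4 - im1 * g' ^ 2 * b ^ 4)) := by
      unfold WeierstrassCurve.c₄ WeierstrassCurve.b₂ WeierstrassCurve.b₄ at h2'
      rw [hg1] at h2'
      have e6 : (pi1 * g1) ^ 2 + 4 * V.a₂ = 2 * t := by
        rw [ht]
        linear_combination g1 ^ 2 * e2
      rw [e6] at h2'
      linear_combination h2'
    exact mul_left_cancel₀ (by decide) h4
  have ht1 : pi1 ∣ t := by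
    have h4 : pi1 ∣ t ^ 2 * a0 ^ 4 := by
      rw [h3]; exact dvd_pi1_two ⟨3 * ((2 * V.a₄ + pi1 * g1 * V.a₃) * a0 ^ 4 - im1 * g' ^ 2 * b ^ 4), by ring⟩
    rcases hP.dvd_or_dvd h4 with h5 | h5
    · exact hP.dvd_of_dvd_pow h5
    · exact absurd (hP.dvd_of_dvd_pow h5) ha0
  have hg1 : pi1 ∣ g1 := by
    have h4 : pi1 ∣ im1 * g1 ^ 2 := by
      have e : im1 * g1 ^ 2 = t - 2 * V.a₂ := by rw [ht]; ring
      rw [e]
      exact dvd_sub ht1 (pi1_two.mul_right _)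
    rcases hP.dvd_or_dvd h4 with h5 | h5
    · exact absurd h5 pi1_im1
    · exact hP.dvd_of_dvd_pow h5
  obtain ⟨g2, rfl⟩ := hg1
  have ht2 : t = 2 * (V.a₂ - g2 ^ 2) := by
    rw [ht]
    linear_combination (im1 * g2 ^ 2) * e2 + (2 * g2 ^ 2) * e3
  rw [ht2] at h3
  have h4 : 2 * (V.a₂ - g2 ^ 2) ^ 2 * a0 ^ 4 =
      3 * ((2 * V.a₄ + pi1 * (pi1 * g2) * V.a₃) * a0 ^ 4 - im1 * g' ^ 2 * b ^ 4) := by
    have h5 : (2 : ZI) * (2 * (V.a₂ - g2 ^ 2) ^ 2 * a0 ^ 4) =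
        2 * (3 * ((2 * V.a₄ + pi1 * (pi1 * g2) * V.a₃) * a0 ^ 4 - im1 * g' ^ 2 * b ^ 4)) := by
      linear_combination h3
    exact mul_left_cancel₀ (by decide) h5
  have h5 : pi1 ∣ 3 * im1 * g' ^ 2 * b ^ 4 := by
    have e : 3 * im1 * g' ^ 2 * b ^ 4 = 2 * (3 * V.a₄ * a0 ^ 4 - (V.a₂ - g2 ^ 2) ^ 2 * a0 ^ 4) +
        pi1 * (3 * (pi1 * g2) * V.a₃ * a0 ^ 4) := by
      linear_combination h4
    rw [e]
    exact dvd_add (pi1_two.mul_right _) (dvd_mul_right _ _)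
  exact not_dvd_mul (not_dvd_mul (not_dvd_mul pi1_three pi1_im1) (not_dvd_pow hg' 2)) (not_dvd_pow hb 4) h5

section

variable {K : Type} [Field K] [NumberField K]

/-- the scaling factor between a minimal model and `y² = x³ - D² x` is a unit -/
theorem val_u' (e : ZI ≃+* 𝓞 K) {v : HeightOneSpectrum (𝓞 K)} {z : ZI}
    (hv : v.asIdeal = Ideal.span {e z}) (hz : z = pi1 ∨ ¬ z ∣ 2) {D : ZI} (hD0 : D ≠ 0) (hup : NoUp D)
    (hsq : ∀ π : ZI, Prime π → ¬ π ^ 2 ∣ D)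
    {V : WeierstrassCurve (𝓞 K)} (hmin : MinAt (crv (algebraMap (𝓞 K) K (e D))) v V)
    {C : WeierstrassCurve.VariableChange K}
    (hC : C • V.map (algebraMap (𝓞 K) K) = crv (algebraMap (𝓞 K) K (e D))) :
    v.valuation K (C.u : K) = 1 := by
  have hzp := z_prime e hv
  have hinj : Function.Injective (algebraMap (𝓞 K) K) := IsFractionRing.injective (𝓞 K) K
  have hWD : IsMd (crv (algebraMap (𝓞 K) K (e D))) (crv (e D)) :=
    ⟨1, by rw [one_smul, crv_map]⟩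
  have hΔ := congrArg WeierstrassCurve.Δ hC
  rw [WeierstrassCurve.variableChange_Δ, WeierstrassCurve.map_Δ, crv_Δ] at hΔ
  have hc4 := congrArg WeierstrassCurve.c₄ hC
  rw [WeierstrassCurve.variableChange_c₄, WeierstrassCurve.map_c₄, crv_c4] at hc4
  have hu0 : (C.u : K) ≠ 0 := C.u.ne_zero
  have hu' : ((C.u⁻¹ : Kˣ) : K) = (C.u : K)⁻¹ := Units.val_inv_eq_inv_val _
  rw [hu'] at hΔ hc4
  set u : K := (C.u : K) with hu
  have hVΔ : algebraMap (𝓞 K) K V.Δ = u ^ 12 * algebraMap (𝓞 K) K ((crv (e D)).Δ) := by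
    rw [crv_Δ, map_mul, map_pow, map_ofNat, ← hΔ, ← mul_assoc, ← mul_pow, mul_inv_cancel₀ hu0,
      one_pow, one_mul]
  have hW0 : (crv (e D)).Δ ≠ 0 := by
    rw [crv_Δ]
    exact mul_ne_zero (by norm_num) (pow_ne_zero _ ((map_ne_zero_iff e e.injective).2 hD0))
  have hV0 : V.Δ ≠ 0 := by
    intro h
    rw [h, map_zero] at hVΔ
    rcases mul_eq_zero.1 hVΔ.symm with h1 | h1
    · exact hu0 (pow_eq_zero_iff (by norm_num) |>.1 h1)
    · exact hW0 (hinj (by rw [h1, map_zero]))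
  -- the valuation is at least one
  have hge : 1 ≤ v.valuation K u := by
    by_contra hlt
    push Not at hlt
    have h1 : v.intValuation V.Δ < v.intValuation (crv (e D)).Δ := by
      have h2 := congrArg (v.valuation K) hVΔ
      rw [map_mul, map_pow, HeightOneSpectrum.valuation_of_algebraMap,
        HeightOneSpectrum.valuation_of_algebraMap] at h2
      rw [h2]
      have h3 : v.intValuation (crv (e D)).Δ ≠ 0 := v.intValuation_ne_zero _ hW0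
      have h4 : v.valuation K u ^ 12 < 1 := pow_lt_one₀ zero_le hlt (by norm_num)
      exact mul_lt_of_lt_one_left (zero_lt_iff.2 h3) h4
    have h5 := v.intValuation_eq_exp_neg_multiplicity hV0
    have h6 : V.Δ ∈ v.asIdeal ^ (multiplicity v.asIdeal (Ideal.span {V.Δ})) := by
      rw [← v.intValuation_le_pow_iff_mem, h5]
    have h7 := hmin.2 _ hWD _ h6
    rw [← v.intValuation_le_pow_iff_mem, ← h5] at h7
    exact absurd h7 (not_le.2 h1)
  refine le_antisymm ?_ hge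
  by_contra hlt
  push Not at hlt
  -- write `u⁻¹` as a fraction
  have h1 : v.valuation K u⁻¹ < 1 := by
    rw [map_inv₀]
    exact inv_lt_one_of_one_lt₀ hlt
  obtain ⟨a', b', hab'⟩ := v.exists_primeCompl_mul_eq_of_integer u⁻¹ h1.le
  obtain ⟨a, rfl⟩ := e.surjective a'
  obtain ⟨b, hb⟩ := e.surjective (b' : 𝓞 K)
  have hbv : ¬ z ∣ b := by
    intro h
    have h2 := (mem_iff e hv b).2 h
    rw [hb] at h2
    exact b'.2 h2
  rw [← hb] at hab'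
  have hav : z ∣ a := by
    have h2 : v.valuation K (algebraMap (𝓞 K) K (e a)) < 1 := by
      rw [← hab', map_mul]
      refine mul_lt_one_of_lt_of_le h1 ?_
      exact v.valuation_le_one _
    rw [← mem_iff e hv]
    exact (v.valuation_lt_one_iff_mem (K := K) _).1 h2
  have hΔ' : e.symm V.Δ * a ^ 12 = 64 * D ^ 6 * b ^ 12 := by
    apply e.injective
    apply hinj
    rw [map_mul, map_mul, map_pow, map_pow, RingEquiv.apply_symm_apply, map_mul, map_mul, map_mul,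
      map_mul, map_pow, map_pow, map_pow, map_pow, map_ofNat, map_ofNat, ← hab']
    linear_combination (algebraMap (𝓞 K) K (e b)) ^ 12 * hΔ
  have hdvd : z ^ 12 ∣ 64 * D ^ 6 := by
    have h2 : z ^ 12 ∣ 64 * D ^ 6 * b ^ 12 := by
      rw [← hΔ']
      exact (pow_dvd_pow_of_dvd hav 12).mul_left _
    have h3 : IsCoprime (z ^ 12) (b ^ 12) :=
      (((hzp.irreducible.coprime_iff_not_dvd).2 hbv)).pow
    exact h3.dvd_of_dvd_mul_right h2
  rcases hz with hz | hz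
  · subst hz
    have hc : e.symm V.c₄ * a ^ 4 = 48 * D ^ 2 * b ^ 4 := by
      apply e.injective
      apply hinj
      have e0 : algebraMap (𝓞 K) K (e (e.symm V.c₄ * a ^ 4)) =
          algebraMap (𝓞 K) K V.c₄ * (algebraMap (𝓞 K) K (e a)) ^ 4 := by
        rw [map_mul, map_mul, map_pow, map_pow, RingEquiv.apply_symm_apply]
      rw [e0, ← hab']
      simp only [map_mul, map_pow, map_ofNat]
      linear_combination (algebraMap (𝓞 K) K (e b)) ^ 4 * hc4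
    refine hup a b (V.map (e.symm : 𝓞 K →+* ZI)) hav hbv ?_ ?_
    · rw [WeierstrassCurve.map_Δ]; exact hΔ'
    · rw [WeierstrassCurve.map_c₄]; exact hc
  · -- odd prime
    have h2 : z ^ 12 ∣ D ^ 6 := by
      have h3 : IsCoprime (z ^ 12) (2 ^ 6) := ((hzp.irreducible.coprime_iff_not_dvd).2 hz).pow
      have e5 : (64 : ZI) = 2 ^ 6 := by decide
      rw [e5] at hdvd
      exact h3.dvd_of_dvd_mul_left hdvd
    have h3 : z ∣ D := hzp.dvd_of_dvd_pow ((dvd_pow_self z (by norm_num)).trans h2)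
    obtain ⟨D1, rfl⟩ := h3
    have h4 : z ^ 6 * z ^ 6 ∣ z ^ 6 * D1 ^ 6 := by
      rw [← pow_add, ← mul_pow]; exact h2
    have h5 := (mul_dvd_mul_iff_left (pow_ne_zero 6 hzp.ne_zero)).1 h4
    have h6 : z ∣ D1 := hzp.dvd_of_dvd_pow ((dvd_pow_self z (by norm_num)).trans h5)
    exact hsq z hzp (by rw [sq]; exact mul_dvd_mul_left z h6)

/-- the scaling factor between a model and `y² = x³ - D² x` is integral -/
theorem val_u_le' (e : ZI ≃+* 𝓞 K) {v : HeightOneSpectrum (𝓞 K)} {z : ZI}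
    (hv : v.asIdeal = Ideal.span {e z}) (hz : z = pi1 ∨ ¬ z ∣ 2) {D : ZI} (hD0 : D ≠ 0) (hup : NoUp D)
    (hsq : ∀ π : ZI, Prime π → ¬ π ^ 2 ∣ D)
    {V : WeierstrassCurve (𝓞 K)}
    {C : WeierstrassCurve.VariableChange K}
    (hC : C • V.map (algebraMap (𝓞 K) K) = crv (algebraMap (𝓞 K) K (e D))) :
    v.valuation K (C.u : K) ≤ 1 := by
  have hzp := z_prime e hv
  have hinj : Function.Injective (algebraMap (𝓞 K) K) := IsFractionRing.injective (𝓞 K) K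
  have hΔ := congrArg WeierstrassCurve.Δ hC
  rw [WeierstrassCurve.variableChange_Δ, WeierstrassCurve.map_Δ, crv_Δ] at hΔ
  have hc4 := congrArg WeierstrassCurve.c₄ hC
  rw [WeierstrassCurve.variableChange_c₄, WeierstrassCurve.map_c₄, crv_c4] at hc4
  have hu0 : (C.u : K) ≠ 0 := C.u.ne_zero
  have hu' : ((C.u⁻¹ : Kˣ) : K) = (C.u : K)⁻¹ := Units.val_inv_eq_inv_val _
  rw [hu'] at hΔ hc4
  set u : K := (C.u : K) with hu
  have hVΔ : algebraMap (𝓞 K) K V.Δ = u ^ 12 * algebraMap (𝓞 K) K ((crv (e D)).Δ) := by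
    rw [crv_Δ, map_mul, map_pow, map_ofNat, ← hΔ, ← mul_assoc, ← mul_pow, mul_inv_cancel₀ hu0,
      one_pow, one_mul]
  have hW0 : (crv (e D)).Δ ≠ 0 := by
    rw [crv_Δ]
    exact mul_ne_zero (by norm_num) (pow_ne_zero _ ((map_ne_zero_iff e e.injective).2 hD0))
  have hV0 : V.Δ ≠ 0 := by
    intro h
    rw [h, map_zero] at hVΔ
    rcases mul_eq_zero.1 hVΔ.symm with h1 | h1
    · exact hu0 (pow_eq_zero_iff (by norm_num) |>.1 h1)
    · exact hW0 (hinj (by rw [h1, map_zero]))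
  by_contra hlt
  push Not at hlt
  -- write `u⁻¹` as a fraction
  have h1 : v.valuation K u⁻¹ < 1 := by
    rw [map_inv₀]
    exact inv_lt_one_of_one_lt₀ hlt
  obtain ⟨a', b', hab'⟩ := v.exists_primeCompl_mul_eq_of_integer u⁻¹ h1.le
  obtain ⟨a, rfl⟩ := e.surjective a'
  obtain ⟨b, hb⟩ := e.surjective (b' : 𝓞 K)
  have hbv : ¬ z ∣ b := by
    intro h
    have h2 := (mem_iff e hv b).2 h
    rw [hb] at h2
    exact b'.2 h2
  rw [← hb] at hab'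
  have hav : z ∣ a := by
    have h2 : v.valuation K (algebraMap (𝓞 K) K (e a)) < 1 := by
      rw [← hab', map_mul]
      refine mul_lt_one_of_lt_of_le h1 ?_
      exact v.valuation_le_one _
    rw [← mem_iff e hv]
    exact (v.valuation_lt_one_iff_mem (K := K) _).1 h2
  have hΔ' : e.symm V.Δ * a ^ 12 = 64 * D ^ 6 * b ^ 12 := by
    apply e.injective
    apply hinj
    rw [map_mul, map_mul, map_pow, map_pow, RingEquiv.apply_symm_apply, map_mul, map_mul, map_mul,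
      map_mul, map_pow, map_pow, map_pow, map_pow, map_ofNat, map_ofNat, ← hab']
    linear_combination (algebraMap (𝓞 K) K (e b)) ^ 12 * hΔ
  have hdvd : z ^ 12 ∣ 64 * D ^ 6 := by
    have h2 : z ^ 12 ∣ 64 * D ^ 6 * b ^ 12 := by
      rw [← hΔ']
      exact (pow_dvd_pow_of_dvd hav 12).mul_left _
    have h3 : IsCoprime (z ^ 12) (b ^ 12) :=
      (((hzp.irreducible.coprime_iff_not_dvd).2 hbv)).pow
    exact h3.dvd_of_dvd_mul_right h2
  rcases hz with hz | hz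
  · subst hz
    have hc : e.symm V.c₄ * a ^ 4 = 48 * D ^ 2 * b ^ 4 := by
      apply e.injective
      apply hinj
      have e0 : algebraMap (𝓞 K) K (e (e.symm V.c₄ * a ^ 4)) =
          algebraMap (𝓞 K) K V.c₄ * (algebraMap (𝓞 K) K (e a)) ^ 4 := by
        rw [map_mul, map_mul, map_pow, map_pow, RingEquiv.apply_symm_apply]
      rw [e0, ← hab']
      simp only [map_mul, map_pow, map_ofNat]
      linear_combination (algebraMap (𝓞 K) K (e b)) ^ 4 * hc4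
    refine hup a b (V.map (e.symm : 𝓞 K →+* ZI)) hav hbv ?_ ?_
    · rw [WeierstrassCurve.map_Δ]; exact hΔ'
    · rw [WeierstrassCurve.map_c₄]; exact hc
  · -- odd prime
    have h2 : z ^ 12 ∣ D ^ 6 := by
      have h3 : IsCoprime (z ^ 12) (2 ^ 6) := ((hzp.irreducible.coprime_iff_not_dvd).2 hz).pow
      have e5 : (64 : ZI) = 2 ^ 6 := by decide
      rw [e5] at hdvd
      exact h3.dvd_of_dvd_mul_left hdvd
    have h3 : z ∣ D := hzp.dvd_of_dvd_pow ((dvd_pow_self z (by norm_num)).trans h2)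
    obtain ⟨D1, rfl⟩ := h3
    have h4 : z ^ 6 * z ^ 6 ∣ z ^ 6 * D1 ^ 6 := by
      rw [← pow_add, ← mul_pow]; exact h2
    have h5 := (mul_dvd_mul_iff_left (pow_ne_zero 6 hzp.ne_zero)).1 h4
    have h6 : z ∣ D1 := hzp.dvd_of_dvd_pow ((dvd_pow_self z (by norm_num)).trans h5)
    exact hsq z hzp (by rw [sq]; exact mul_dvd_mul_left z h6)


/-- the equation `y² = x³ - D² x` is minimal everywhere -/
theorem crv_min' (e : ZI ≃+* 𝓞 K) {D : ZI} (hD0 : D ≠ 0) (hup : NoUp D)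
    (hsq : ∀ π : ZI, Prime π → ¬ π ^ 2 ∣ D) (v : HeightOneSpectrum (𝓞 K)) :
    MinAt (crv (algebraMap (𝓞 K) K (e D))) v (crv (e D)) := by
  refine ⟨⟨1, by rw [one_smul, crv_map]⟩, ?_⟩
  rintro W' ⟨C, hC⟩ n hn
  have hz2 : pg e v = pi1 ∨ ¬ pg e v ∣ 2 := by
    rcases pg_cases e v with ⟨h1, h2⟩ | ⟨h1, h2⟩
    · exact Or.inl h2
    · right
      have h3 := Pool.Agent.W164.RC.Ip_spec (Pool.Agent.H921R2.TatePole.below v).2 h2
      exact not_dvd_two ⟨h3.2.1, h3.1⟩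
  have hu := val_u_le' e (pg_span e v) hz2 hD0 hup hsq hC
  have hΔ := congrArg WeierstrassCurve.Δ hC
  rw [WeierstrassCurve.variableChange_Δ, WeierstrassCurve.map_Δ, Units.val_inv_eq_inv_val] at hΔ
  have hu0 : (C.u : K) ≠ 0 := C.u.ne_zero
  have h1 : algebraMap (𝓞 K) K W'.Δ = (C.u : K) ^ 12 * algebraMap (𝓞 K) K ((crv (e D)).Δ) := by
    rw [← WeierstrassCurve.map_Δ (crv (e D)), crv_map, ← hΔ, ← mul_assoc, ← mul_pow,
      mul_inv_cancel₀ hu0, one_pow, one_mul]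
  rw [← v.intValuation_le_pow_iff_mem] at hn ⊢
  refine le_trans ?_ hn
  have h2 : v.valuation K (algebraMap (𝓞 K) K W'.Δ) ≤
      v.valuation K (algebraMap (𝓞 K) K (crv (e D)).Δ) := by
    rw [h1, map_mul, map_pow]
    exact mul_le_of_le_one_left zero_le (pow_le_one₀ zero_le hu)
  rw [v.valuation_of_algebraMap (K := K), v.valuation_of_algebraMap (K := K)] at h2
  exact h2


end

end Run7.h26.QI
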