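import Pool.Agent.Y699.Crit
import Pool.Agent.Run7.h26.QI.Mm

/-!
The two-descent for `y² = x³ - G² x`, `G` square-free.
-/

set_option autoImplicit false
set_option linter.unusedSectionVars false

namespace Run7.h26.QI

open Pool.Agent.Y699
open H385 (ZI RQ im1 nrm)
open Pool.Agent.W164.RC (two2 prim_iff_dvd unit_norm unit_cases)
open Pool.Agent.H304R2.EC.A1 (prim prim_mul prim_cancel prim_one prim_norm_odd prim_star eq_one_of_prim
  norm_def' re_mul' im_mul' eq_of_dvd prim_ne_zero exists_prim)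

lemma dvd_of_primes {d G : ZI} (hd : Squarefree d) (h : ∀ ρ : ZI, Prime ρ → ρ ∣ d → ρ ∣ G) : d ∣ G := by
  obtain ⟨d1, hd1⟩ := EuclideanDomain.gcd_dvd_left d G
  by_cases hu : IsUnit d1
  · obtain ⟨c, hc⟩ := hu.exists_right_inv
    have h1 : d ∣ EuclideanDomain.gcd d G := ⟨c, by
      have : d * c = EuclideanDomain.gcd d G * (d1 * c) := by rw [← mul_assoc, ← hd1]
      rw [this, hc, mul_one]⟩
    exact h1.trans (EuclideanDomain.gcd_dvd_right d G)
  · exfalso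
    have hd10 : d1 ≠ 0 := by
      rintro h0
      rw [h0, mul_zero] at hd1
      exact hd.ne_zero hd1
    obtain ⟨ρ, hρ, hρu⟩ := WfDvdMonoid.exists_irreducible_factor hu hd10
    have hρ' : Prime ρ := irreducible_iff_prime.1 hρ
    have h1 : ρ ∣ d := by rw [hd1]; exact hρu.mul_left _
    have h2 : ρ ∣ EuclideanDomain.gcd d G := EuclideanDomain.dvd_gcd h1 (h ρ hρ' h1)
    have h3 : ρ * ρ ∣ d := by rw [hd1]; exact mul_dvd_mul h2 hρu
    exact hρ'.not_isUnit (hd _ h3)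

variable {F : Type} [Field F] [Algebra ZI F] [IsFractionRing ZI F]

theorem decomp0 {G : ZI} (hG : Squarefree G) {x y : F} (hy : y ≠ 0)
    (hxy : y ^ 2 = x ^ 3 - (algebraMap ZI F G) ^ 2 * x) :
    ∃ (d d' f b Y : ZI), G = d * d' ∧ IsCoprime f b ∧ f ≠ 0 ∧ b ≠ 0 ∧
      x = algebraMap ZI F d * (algebraMap ZI F f / algebraMap ZI F b) ^ 2 ∧
      d * Y ^ 2 = f ^ 4 - d' ^ 2 * b ^ 4 := by
  classical
  have hx : x ≠ 0 := by
    rintro rfl
    apply hy
    have : y ^ 2 = 0 := by rw [hxy]; ring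
    exact pow_eq_zero_iff (by norm_num) |>.1 this
  obtain ⟨a, m, hm, hxa⟩ := IsFractionRing.div_surjective (A := ZI) x
  have hm0 : m ≠ 0 := nonZeroDivisors.ne_zero hm
  have ha0 : a ≠ 0 := by
    rintro rfl
    apply hx
    rw [← hxa, map_zero, zero_div]
  have hc0 : a * m ≠ 0 := mul_ne_zero ha0 hm0
  obtain ⟨d, h, hdh, hd⟩ := sqf_decomp _ (a * m) hc0 le_rfl
  have hh0 : h ≠ 0 := by
    rintro rfl
    apply hc0
    rw [hdh]; ring
  have hd0 : d ≠ 0 := hd.ne_zero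
  obtain ⟨f, b', hfb, hfb'⟩ := IsFractionRing.exists_reduced_fraction (A := ZI)
    (algebraMap ZI F h / algebraMap ZI F m)
  set b : ZI := (b' : ZI) with hb
  have hb0 : b ≠ 0 := nonZeroDivisors.ne_zero b'.2
  have hw : algebraMap ZI F h / algebraMap ZI F m = algebraMap ZI F f / algebraMap ZI F b := by
    rw [← hfb', IsFractionRing.mk'_eq_div]
  have hcop : IsCoprime f b := hfb.isCoprime
  have hAm := A_ne (F := F) hm0
  have hAb := A_ne (F := F) hb0
  have hAh := A_ne (F := F) hh0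
  have hf0 : f ≠ 0 := by
    rintro rfl
    rw [map_zero, zero_div] at hw
    exact (div_ne_zero hAh hAm) hw
  have hAf := A_ne (F := F) hf0
  have hxd : x = algebraMap ZI F d * (algebraMap ZI F f / algebraMap ZI F b) ^ 2 := by
    rw [← hw, ← hxa]
    have h1 := congrArg (algebraMap ZI F) hdh
    rw [map_mul, map_mul, map_pow] at h1
    field_simp
    linear_combination h1
  -- the integral equation
  obtain ⟨Y, hY⟩ : ∃ Y : ZI, Y ^ 2 = d * (d ^ 2 * f ^ 4 - G ^ 2 * b ^ 4) := by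
    have h1 : (y * (algebraMap ZI F b) ^ 3 / algebraMap ZI F f) ^ 2 =
        algebraMap ZI F (d * (d ^ 2 * f ^ 4 - G ^ 2 * b ^ 4)) := by
      rw [div_pow, mul_pow, hxy, hxd]
      simp only [map_mul, map_sub, map_pow]
      field_simp
    obtain ⟨Y, hY⟩ := sq_int h1
    refine ⟨Y, ?_⟩
    apply A_inj (F := F)
    rw [map_pow, hY, h1]
  have hprime : ∀ ρ : ZI, Prime ρ → ρ ∣ d → ρ ∣ G := by
    intro ρ hρ hρd
    by_contra hρD
    obtain ⟨d', hd'⟩ := hρd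
    have hnd : ¬ ρ ∣ d' := by
      rintro ⟨e, he⟩
      exact hρ.not_isUnit (hd ρ ⟨e, by rw [hd', he]; ring⟩)
    have h1 : ρ ∣ Y := by
      apply hρ.dvd_of_dvd_pow (n := 2)
      rw [hY, hd']
      exact (dvd_mul_right _ _).mul_right _
    obtain ⟨Y1, hY1⟩ := h1
    have h2 : ρ * Y1 ^ 2 = d' * (d ^ 2 * f ^ 4 - G ^ 2 * b ^ 4) := by
      apply mul_left_cancel₀ hρ.ne_zero
      have : ρ * (d' * (d ^ 2 * f ^ 4 - G ^ 2 * b ^ 4)) = Y ^ 2 := by rw [hY, hd']; ring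
      rw [this, hY1]
      ring
    have h3 : ρ ∣ b := by
      have h4 : ρ ∣ d' * (d ^ 2 * f ^ 4 - G ^ 2 * b ^ 4) := by rw [← h2]; exact dvd_mul_right _ _
      have h5 := (hρ.dvd_or_dvd h4).resolve_left hnd
      have h6 : ρ ∣ G ^ 2 * b ^ 4 := by
        have h7 : ρ ∣ d ^ 2 * f ^ 4 := by
          rw [hd']
          exact (dvd_pow (dvd_mul_right ρ d') (by norm_num)).mul_right _
        have h8 := dvd_sub h7 h5
        rwa [sub_sub_cancel] at h8
      rcases hρ.dvd_or_dvd h6 with h7 | h7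
      · exact absurd (hρ.dvd_of_dvd_pow h7) hρD
      · exact hρ.dvd_of_dvd_pow h7
    obtain ⟨b1, hb1⟩ := h3
    have hnf : ¬ ρ ∣ f := by
      intro h4
      exact hρ.not_isUnit (hcop.isUnit_of_dvd' h4 ⟨b1, hb1⟩)
    have h4 : Y1 ^ 2 = ρ * (d' * (d' ^ 2 * f ^ 4 - ρ ^ 2 * (G ^ 2 * b1 ^ 4))) := by
      apply mul_left_cancel₀ hρ.ne_zero
      rw [h2, hd', hb1]
      ring
    have h5 : ρ ∣ Y1 := hρ.dvd_of_dvd_pow (n := 2) (by rw [h4]; exact dvd_mul_right _ _)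
    obtain ⟨Y2, hY2⟩ := h5
    have h6 : ρ ∣ d' * (d' ^ 2 * f ^ 4 - ρ ^ 2 * (G ^ 2 * b1 ^ 4)) := by
      refine ⟨Y2 ^ 2, ?_⟩
      apply mul_left_cancel₀ hρ.ne_zero
      rw [← h4, hY2]
      ring
    have h7 := (hρ.dvd_or_dvd h6).resolve_left hnd
    have h8 : ρ ∣ d' ^ 2 * f ^ 4 := by
      have h9 : ρ ∣ ρ ^ 2 * (G ^ 2 * b1 ^ 4) := (dvd_pow_self ρ (by norm_num)).mul_right _
      have := dvd_add h7 h9
      rwa [sub_add_cancel] at this
    rcases hρ.dvd_or_dvd h8 with h9 | h9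
    · exact hnd (hρ.dvd_of_dvd_pow h9)
    · exact hnf (hρ.dvd_of_dvd_pow h9)
  obtain ⟨d', hd'⟩ := dvd_of_primes hd hprime
  have e1 : Y ^ 2 = d ^ 3 * (f ^ 4 - d' ^ 2 * b ^ 4) := by
    rw [hY, hd']; ring
  have h1 : d ∣ Y := by
    rw [← hd.dvd_pow_iff_dvd (n := 2) (by norm_num), e1]
    exact (dvd_pow_self _ (by norm_num)).mul_right _
  obtain ⟨Y1, hY1⟩ := h1
  have e2 : Y1 ^ 2 = d * (f ^ 4 - d' ^ 2 * b ^ 4) := by
    apply mul_left_cancel₀ (pow_ne_zero 2 hd0)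
    have : d ^ 2 * Y1 ^ 2 = Y ^ 2 := by rw [hY1]; ring
    rw [this, e1]
    ring
  have h2 : d ∣ Y1 := by
    rw [← hd.dvd_pow_iff_dvd (n := 2) (by norm_num), e2]
    exact dvd_mul_right _ _
  obtain ⟨Y2, hY2⟩ := h2
  refine ⟨d, d', f, b, Y2, hd', hcop, hf0, hb0, hxd, ?_⟩
  apply mul_left_cancel₀ hd0
  rw [← e2, hY2]
  ring

/-- the local conditions -/
theorem local0 {G d d' f b Y : ZI} (hG : Squarefree G) (hGd : G = d * d') (hcop : IsCoprime f b)
    (hE : d * Y ^ 2 = f ^ 4 - d' ^ 2 * b ^ 4) {π : ZI} (hπ : PP π) (hdv : π ∣ G) :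
    (¬ π ∣ d → qr π d = 1) ∧ (π ∣ d → qr π d' = 1) := by
  have hP := hπ.pr
  constructor
  · intro hnd
    rw [hGd] at hdv
    obtain ⟨D'', hD''⟩ := (hP.dvd_or_dvd hdv).resolve_left hnd
    have hnD'' : ¬ π ∣ D'' := by
      rintro ⟨e, he⟩
      exact hP.not_isUnit (hG π ⟨d * e, by rw [hGd, hD'', he]; ring⟩)
    by_cases hf : π ∣ f
    · obtain ⟨f1, hf1⟩ := hf
      have hnb : ¬ π ∣ b := fun h => hP.not_isUnit (hcop.isUnit_of_dvd' ⟨f1, hf1⟩ h)
      have h1 : π ∣ Y := by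
        have h2 : π ∣ d * Y ^ 2 := by
          rw [hE, hf1, hD'']
          exact ⟨π ^ 3 * f1 ^ 4 - π * (D'' ^ 2 * b ^ 4), by ring⟩
        exact hP.dvd_of_dvd_pow ((hP.dvd_or_dvd h2).resolve_left hnd)
      obtain ⟨Y1, hY1⟩ := h1
      have h2 : d * Y1 ^ 2 = π ^ 2 * f1 ^ 4 - D'' ^ 2 * b ^ 4 := by
        apply mul_left_cancel₀ (pow_ne_zero 2 hP.ne_zero)
        have : π ^ 2 * (d * Y1 ^ 2) = d * Y ^ 2 := by rw [hY1]; ring
        rw [this, hE, hf1, hD'']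
        ring
      have h3 : π ∣ d * Y1 ^ 2 - (-(D'' ^ 2 * b ^ 4)) := by
        rw [h2]
        exact ⟨π * f1 ^ 4, by ring⟩
      have h4 : ¬ π ∣ D'' * b ^ 2 := by
        intro h
        rcases hP.dvd_or_dvd h with h5 | h5
        · exact hnD'' h5
        · exact hnb (hP.dvd_of_dvd_pow h5)
      have h5 := qr_per h3
      have e1 : D'' ^ 2 * b ^ 4 = (D'' * b ^ 2) ^ 2 := by ring
      rw [qr_neg hπ, e1, qr_mul hπ, qr_sq' hπ h4] at h5
      have h6 : ¬ π ∣ Y1 := by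
        intro h
        have : qr π (Y1 ^ 2) = 0 := qr_zero_iff.2 (dvd_pow h (by norm_num))
        rw [this, mul_zero] at h5
        exact zero_ne_one h5
      rw [qr_sq' hπ h6, mul_one] at h5
      exact h5
    · have h3 : π ∣ d * Y ^ 2 - (f ^ 2) ^ 2 := by
        rw [hE, hD'']
        exact ⟨-(π * (D'' ^ 2 * b ^ 4)), by ring⟩
      have h5 := qr_per h3
      have h4 : ¬ π ∣ f ^ 2 := fun h => hf (hP.dvd_of_dvd_pow h)
      rw [qr_mul hπ, qr_sq' hπ h4] at h5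
      have h6 : ¬ π ∣ Y := by
        intro h
        have : qr π (Y ^ 2) = 0 := qr_zero_iff.2 (dvd_pow h (by norm_num))
        rw [this, mul_zero] at h5
        exact zero_ne_one h5
      rw [qr_sq' hπ h6, mul_one] at h5
      exact h5
  · intro hdd
    have hnd' : ¬ π ∣ d' := by
      rintro ⟨e, he⟩
      obtain ⟨e', he'⟩ := hdd
      exact hP.not_isUnit (hG π ⟨e' * e, by rw [hGd, he, he']; ring⟩)
    have h2 : π ∣ f ^ 4 - d' ^ 2 * b ^ 4 := by
      rw [← hE]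
      exact hdd.mul_right _
    have hnb : ¬ π ∣ b := by
      intro hb
      have h3 : π ∣ f ^ 4 := by
        have h4 : π ∣ d' ^ 2 * b ^ 4 := (dvd_pow hb (by norm_num)).mul_left _
        have := dvd_add h2 h4
        rwa [sub_add_cancel] at this
      exact hP.not_isUnit (hcop.isUnit_of_dvd' (hP.dvd_of_dvd_pow h3) hb)
    have hnf : ¬ π ∣ f := by
      intro hf
      have h3 : π ∣ d' ^ 2 * b ^ 4 := by
        have h4 : π ∣ f ^ 4 := dvd_pow hf (by norm_num)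
        have := dvd_sub h4 h2
        rwa [sub_sub_cancel] at this
      rcases hP.dvd_or_dvd h3 with h4 | h4
      · exact hnd' (hP.dvd_of_dvd_pow h4)
      · exact hnb (hP.dvd_of_dvd_pow h4)
    have e1 : f ^ 4 - d' ^ 2 * b ^ 4 = (d' * b ^ 2 - f ^ 2) * (-(d' * b ^ 2 - -(f ^ 2))) := by ring
    rw [e1] at h2
    have h3 : qr π (d' * b ^ 2) = qr π (f ^ 2) := by
      rcases hP.dvd_or_dvd h2 with h4 | h4
      · exact qr_per h4
      · have h5 := qr_per ((dvd_neg).1 h4)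
        rw [h5, qr_neg hπ]
    rw [qr_mul hπ, qr_sq' hπ hnb, qr_sq' hπ hnf, mul_one] at h3
    exact h3

/-! ### the parity condition -/

lemma odd_mod2 {z : ZI} (h : ¬ pi1 ∣ z) : (2 : ZI) ∣ z - 1 ∨ (2 : ZI) ∣ z - im1 := by
  have h1 := (norm_odd_iff z).2 h
  rw [norm_def'] at h1
  have e : ∀ z : ℤ, z ^ 2 % 2 = z % 2 := by
    intro z
    rcases Int.emod_two_eq_zero_or_one z with h | h <;> rw [sq, Int.mul_emod, h] <;> norm_num
  have q1 := e z.re
  have q2 := e z.im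
  rcases Int.emod_two_eq_zero_or_one z.im with h3 | h3
  · left
    refine ⟨⟨(z.re - 1) / 2, z.im / 2⟩, ?_⟩
    apply Zsqrtd.ext
    · rw [re_mul', Zsqrtd.re_sub]
      change z.re - 1 = 2 * ((z.re - 1) / 2) - 0 * (z.im / 2)
      omega
    · rw [im_mul', Zsqrtd.im_sub]
      change z.im - 0 = 2 * (z.im / 2) + 0 * ((z.re - 1) / 2)
      omega
  · right
    refine ⟨⟨z.re / 2, (z.im - 1) / 2⟩, ?_⟩
    apply Zsqrtd.ext
    · rw [re_mul', Zsqrtd.re_sub]
      change z.re - 0 = 2 * (z.re / 2) - 0 * ((z.im - 1) / 2)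
      omega
    · rw [im_mul', Zsqrtd.im_sub]
      change z.im - 1 = 2 * ((z.im - 1) / 2) + 0 * (z.re / 2)
      omega

lemma sq_mod4 {z : ZI} (h : ¬ pi1 ∣ z) : ∃ w : ZI, z ^ 2 = 1 + 4 * w ∨ z ^ 2 = -1 + 4 * w := by
  rcases odd_mod2 h with ⟨w, hw⟩ | ⟨w, hw⟩
  · refine ⟨w + w ^ 2, Or.inl ?_⟩
    have : z = 1 + 2 * w := by linear_combination hw
    rw [this]; ring
  · refine ⟨im1 * w + w ^ 2, Or.inr ?_⟩
    have : z = im1 + 2 * w := by linear_combination hw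
    rw [this]
    linear_combination im1_sq

lemma four_mod8 {z : ZI} (h : ¬ pi1 ∣ z) : ∃ w : ZI, z ^ 4 = 1 + 8 * w := by
  obtain ⟨w, h1 | h1⟩ := sq_mod4 h
  · refine ⟨w + 2 * w ^ 2, ?_⟩
    have : z ^ 4 = (z ^ 2) ^ 2 := by ring
    rw [this, h1]; ring
  · refine ⟨-w + 2 * w ^ 2, ?_⟩
    have : z ^ 4 = (z ^ 2) ^ 2 := by ring
    rw [this, h1]; ring

lemma pi1_two_ne {w : ZI} (h : (2 : ZI) ∣ w) : pi1 ∣ w := pi1_two.trans h

lemma prim_mod2 {D : ZI} (h : prim D) : (2 : ZI) ∣ D - 1 := by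
  have e : two2 = 2 * pi1 := by decide
  exact (Dvd.intro pi1 e.symm).trans ((prim_iff_dvd D).1 h)

lemma two_im_one : ¬ (2 : ZI) ∣ im1 - 1 := by
  rintro ⟨t, ht⟩
  have := congrArg Zsqrtd.im ht
  rw [im_mul'] at this
  change 1 - 0 = 2 * t.im + 0 * t.re at this
  omega

lemma one_not : ¬ pi1 ∣ (1 : ZI) := fun h => pi1_prime.not_isUnit (isUnit_of_dvd_one h)

lemma not_pi1_of_two {z : ZI} (h : (2 : ZI) ∣ z - 1) : ¬ pi1 ∣ z := by
  intro h1
  have h2 : pi1 ∣ z - (z - 1) := dvd_sub h1 (pi1_two.trans h)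
  rw [sub_sub_cancel] at h2
  exact one_not h2

/-- the square of an element `i` modulo two -/
lemma sq_i {z : ZI} (h : (2 : ZI) ∣ z - im1) : ∃ r : ZI, z ^ 2 = -1 + 4 * pi1 * r := by
  obtain ⟨w, hw⟩ := h
  have hz : z = im1 + 2 * w := by linear_combination hw
  have h1 : pi1 ∣ w * (w + im1) := by
    by_cases hw1 : pi1 ∣ w
    · exact hw1.mul_right _
    · refine Dvd.dvd.mul_left ?_ _
      rcases odd_mod2 hw1 with ⟨t, ht⟩ | ⟨t, ht⟩
      · have : w + im1 = pi1 + 2 * t := by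
          have e : pi1 = 1 + im1 := by decide
          rw [e]; linear_combination ht
        rw [this]
        exact dvd_add dvd_rfl (pi1_two.mul_right _)
      · have : w + im1 = 2 * (im1 + t) := by linear_combination ht
        rw [this]
        exact pi1_two.mul_right _
  obtain ⟨r, hr⟩ := h1
  refine ⟨r, ?_⟩
  rw [hz]
  linear_combination 4 * hr + im1_sq

/-- the unit cases -/
def cc3 (c : ZI) : Prop := c = im1 ∨ c = pi1 ∨ c = im1 * pi1

/-- **the parity condition** -/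
theorem parity {c D d d' f b Y : ZI} (hc : cc3 c) (hD : prim D) (h : c * D = d * d')
    (hcop : IsCoprime f b) (hE : d * Y ^ 2 = f ^ 4 - d' ^ 2 * b ^ 4) :
    (2 : ZI) ∣ d - 1 ∨ (2 : ZI) ∣ d' - 1 := by
  have hD1 := pi1_prim hD
  by_cases hcu : c = im1
  · -- the unit case
    rw [hcu] at h
    have h1 : ¬ pi1 ∣ im1 * D := not_dvd_mul pi1_im1 hD1
    have hd : ¬ pi1 ∣ d := fun h' => h1 (by rw [h]; exact h'.mul_right _)
    have hd' : ¬ pi1 ∣ d' := fun h' => h1 (by rw [h]; exact h'.mul_left _)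
    rcases odd_mod2 hd with h2 | h2
    · exact Or.inl h2
    rcases odd_mod2 hd' with h3 | h3
    · exact Or.inr h3
    exfalso
    obtain ⟨t1, ht1⟩ := h2
    obtain ⟨t2, ht2⟩ := h3
    obtain ⟨t3, ht3⟩ := prim_mod2 hD
    apply two_im_one
    refine ⟨im1 * t1 + im1 * t2 + 2 * t1 * t2 - im1 * t3 - 1, ?_⟩
    have e1 : d = im1 + 2 * t1 := by linear_combination ht1
    have e2 : d' = im1 + 2 * t2 := by linear_combination ht2
    have e3 : D = 1 + 2 * t3 := by linear_combination ht3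
    rw [e1, e2, e3] at h
    linear_combination im1_sq + h
  -- the case of valuation one
  obtain ⟨c1, hc1, hc1u⟩ : ∃ c1, c = pi1 * c1 ∧ ¬ pi1 ∣ c1 := by
    rcases hc with h1 | h1 | h1
    · exact absurd h1 hcu
    · exact ⟨1, by rw [h1, mul_one], one_not⟩
    · exact ⟨im1, by rw [h1, mul_comm], pi1_im1⟩
  have hn : ¬ pi1 ∣ c1 * D := not_dvd_mul hc1u hD1
  have hfb : ¬ (pi1 ∣ f ∧ pi1 ∣ b) := fun h' => pi1_prime.not_isUnit (hcop.isUnit_of_dvd' h'.1 h'.2)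
  have hdd : pi1 ∣ d * d' := by rw [← h, hc1]; exact ⟨c1 * D, by ring⟩
  rcases pi1_prime.dvd_or_dvd hdd with h1 | h1
  · -- `d` even
    obtain ⟨e, he⟩ := h1
    have h2 : c1 * D = e * d' := by
      apply mul_left_cancel₀ pi1_prime.ne_zero
      linear_combination h + d' * he - D * hc1
    have he1 : ¬ pi1 ∣ e := fun h' => hn (by rw [h2]; exact h'.mul_right _)
    have hd' : ¬ pi1 ∣ d' := fun h' => hn (by rw [h2]; exact h'.mul_left _)
    have hL : pi1 ∣ f ^ 4 - d' ^ 2 * b ^ 4 := by rw [← hE, he]; exact ⟨e * Y ^ 2, by ring⟩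
    have hf : ¬ pi1 ∣ f := by
      intro hf
      have h3 : pi1 ∣ d' ^ 2 * b ^ 4 := by
        have := dvd_sub (dvd_pow hf (by norm_num : 4 ≠ 0)) hL
        rwa [sub_sub_cancel] at this
      rcases pi1_prime.dvd_or_dvd h3 with h4 | h4
      · exact hd' (pi1_prime.dvd_of_dvd_pow h4)
      · exact hfb ⟨hf, pi1_prime.dvd_of_dvd_pow h4⟩
    have hb : ¬ pi1 ∣ b := by
      intro hb
      have h3 : pi1 ∣ f ^ 4 := by
        have := dvd_add hL ((dvd_pow hb (by norm_num : 4 ≠ 0)).mul_left (d' ^ 2))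
        rwa [sub_add_cancel] at this
      exact hf (pi1_prime.dvd_of_dvd_pow h3)
    rcases odd_mod2 hd' with h3 | h3
    · exact Or.inr h3
    exfalso
    obtain ⟨p, hp⟩ := four_mod8 hf
    obtain ⟨q, hq⟩ := four_mod8 hb
    obtain ⟨r, hr⟩ := sq_i h3
    -- `e Y² pi1 = 2 (1 + pi1 m)`
    have h4 : pi1 * e * Y ^ 2 = 2 + 8 * p + 8 * q - 4 * pi1 * r - 32 * pi1 * r * q := by
      rw [← he, hE, hp, hq, hr]; ring
    have e8 : (2 : ZI) = pi1 * (pi1 * (-im1)) := by decide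
    have h5 : e * Y ^ 2 = pi1 * (-im1) * (1 + 4 * p + 4 * q - 2 * pi1 * r - 16 * pi1 * r * q) := by
      apply mul_left_cancel₀ pi1_prime.ne_zero
      linear_combination h4 + (1 + 4 * p + 4 * q - 2 * pi1 * r - 16 * pi1 * r * q) * e8
    have h6 : pi1 ∣ Y := by
      have : pi1 ∣ e * Y ^ 2 := by rw [h5]; exact ⟨_, by rw [mul_assoc]⟩
      exact pi1_prime.dvd_of_dvd_pow ((pi1_prime.dvd_or_dvd this).resolve_left he1)
    obtain ⟨Y1, hY1⟩ := h6
    have h7 : e * pi1 * Y1 ^ 2 = (-im1) * (1 + 4 * p + 4 * q - 2 * pi1 * r - 16 * pi1 * r * q) := by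
      apply mul_left_cancel₀ pi1_prime.ne_zero
      rw [hY1] at h5
      linear_combination h5
    have h8 : ¬ pi1 ∣ (-im1) * (1 + 4 * p + 4 * q - 2 * pi1 * r - 16 * pi1 * r * q) := by
      refine not_dvd_mul (fun h' => pi1_im1 ((dvd_neg).1 h')) ?_
      apply not_pi1_of_two
      exact ⟨2 * p + 2 * q - pi1 * r - 8 * pi1 * r * q, by ring⟩
    exact h8 (by rw [← h7]; exact ⟨e * Y1 ^ 2, by ring⟩)
  · -- `d'` even
    left
    obtain ⟨e, he⟩ := h1
    have h2 : c1 * D = e * d := by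
      apply mul_left_cancel₀ pi1_prime.ne_zero
      linear_combination h + d * he - D * hc1
    have he1 : ¬ pi1 ∣ e := fun h' => hn (by rw [h2]; exact h'.mul_right _)
    have hd : ¬ pi1 ∣ d := fun h' => hn (by rw [h2]; exact h'.mul_left _)
    rcases odd_mod2 hd with h3 | h3
    · exact h3
    exfalso
    obtain ⟨t, ht⟩ := h3
    have hdt : d = im1 + 2 * t := by linear_combination ht
    -- an odd `Z` with `d Z² = 1 mod 2` is impossible
    have key : ∀ Z m : ZI, d * Z ^ 2 = 1 + 2 * m → False := by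
      intro Z m hZ
      have hZ1 : ¬ pi1 ∣ Z := by
        intro h4
        have h5 : ¬ pi1 ∣ 1 + 2 * m := not_pi1_of_two ⟨m, by ring⟩
        exact h5 (by rw [← hZ]; exact (dvd_pow h4 (by norm_num)).mul_left _)
      obtain ⟨w, hw | hw⟩ := sq_mod4 hZ1
      · rw [hw, hdt] at hZ
        apply two_im_one
        exact ⟨m - t - 2 * im1 * w - 4 * t * w, by linear_combination hZ⟩
      · rw [hw, hdt] at hZ
        apply two_im_one
        exact ⟨m + im1 + t - 2 * im1 * w - 4 * t * w, by linear_combination hZ⟩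
    by_cases hf : pi1 ∣ f
    · have hb : ¬ pi1 ∣ b := fun h' => hfb ⟨hf, h'⟩
      obtain ⟨f1, hf1⟩ := hf
      have h6 : pi1 ∣ Y := by
        have : pi1 ∣ d * Y ^ 2 := by
          rw [hE, hf1, he]
          exact ⟨pi1 ^ 3 * f1 ^ 4 - pi1 * e ^ 2 * b ^ 4, by ring⟩
        exact pi1_prime.dvd_of_dvd_pow ((pi1_prime.dvd_or_dvd this).resolve_left hd)
      obtain ⟨Y1, hY1⟩ := h6
      have h7 : d * Y1 ^ 2 = pi1 ^ 2 * f1 ^ 4 - e ^ 2 * b ^ 4 := by
        apply mul_left_cancel₀ (pow_ne_zero 2 pi1_prime.ne_zero)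
        have : pi1 ^ 2 * (d * Y1 ^ 2) = d * Y ^ 2 := by rw [hY1]; ring
        rw [this, hE, hf1, he]; ring
      obtain ⟨q, hq⟩ := four_mod8 hb
      obtain ⟨w, hw | hw⟩ := sq_mod4 he1
      · rw [hq, hw, pi1_sq] at h7
        exact key Y1 (im1 * f1 ^ 4 - 1 - 4 * q - 2 * w - 16 * w * q) (by linear_combination h7)
      · rw [hq, hw, pi1_sq] at h7
        exact key Y1 (im1 * f1 ^ 4 + 4 * q - 2 * w - 16 * w * q) (by linear_combination h7)
    · obtain ⟨p, hp⟩ := four_mod8 hf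
      rw [hp, he] at hE
      exact key Y (4 * p - im1 * e ^ 2 * b ^ 4) (by
        linear_combination hE - e ^ 2 * b ^ 4 * pi1_sq)

end Run7.h26.QI
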