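import Pool.Agent.Y699.Hal2
import Pool.Agent.Run7.h26.QI.Sl
import Pool.Agent.Run7.h26.QI.Ds

/-!
Mean values for the quadratic characters twisted by a unit or by `1 + i`.
-/

set_option autoImplicit false
set_option linter.unusedSectionVars false

open Finset

namespace Run7.h26.QI

open Pool.Agent.Y699 hiding f1 f2 LE f1_hasProd f2_hasProd
open Run7.h26.CN (th th_cases th_pm th_four th_one)
open H385 (ZI RQ im1 nrm)
open Pool.Agent.W164.RC (two2 prim_iff_dvd unit_norm unit_cases)
open Pool.Agent.H304R2.EC.A1 (prim prim_mul prim_cancel prim_one prim_norm_odd prim_star eq_one_of_prim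
  norm_def' re_mul' im_mul' eq_of_dvd prim_ne_zero exists_prim)

/-- a real character on the primary elements -/
structure Rc (χ : ZI → ℝ) (q : ZI) : Prop where
  q0 : q ≠ 0
  tw : two2 ∣ q
  cs : ∀ a, χ a = 0 ∨ χ a = 1 ∨ χ a = -1
  one : χ 1 = 1
  mul : ∀ a b, prim a → prim b → χ (a * b) = χ a * χ b
  per : ∀ a b, prim a → q ∣ a - b → χ a = χ b
  flip : ∃ c, prim c ∧ IsCoprime c q ∧ χ c = -1

variable {χ : ZI → ℝ} {q : ZI}

lemma Rc.abs (h : Rc χ q) (a : ZI) : |χ a| ≤ 1 := by
  rcases h.cs a with h | h | h <;> rw [h] <;> norm_num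

lemma prim_congr {a b : ZI} (h : two2 ∣ a - b) : prim a ↔ prim b := by
  rw [prim_iff_dvd, prim_iff_dvd]
  constructor
  · intro h1
    have := dvd_sub h1 h
    rwa [show a - 1 - (a - b) = b - 1 by ring] at this
  · intro h1
    have := dvd_add h1 h
    rwa [show b - 1 + (a - b) = a - 1 by ring] at this

lemma Rc.sum (h : Rc χ q) {v : ℕ} (hv : 1 ≤ v) : |∑ d ∈ PB v, χ d| ≤ 9 * nrm q * Real.sqrt v := by
  classical
  obtain ⟨c, hc, hcq, hcc⟩ := h.flip
  have e : ∑ d ∈ PB v, χ d = ∑ a ∈ ZB v, if prim a then χ a else 0 := by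
    unfold PB
    rw [sum_filter]
  rw [e]
  have h1 := csum h.q0 (f := fun a => if prim a then χ a else 0) ?_ ?_ hcq ?_ v
  · refine h1.trans ?_
    have h2 : (1 : ℝ) ≤ Real.sqrt v := Real.one_le_sqrt.2 (by exact_mod_cast hv)
    have h3 : (0 : ℝ) ≤ nrm q := Nat.cast_nonneg _
    nlinarith
  · intro a b hab
    have h2 := prim_congr (h.tw.trans hab)
    by_cases ha : prim a
    · rw [if_pos ha, if_pos (h2.1 ha), h.per a b ha hab]
    · rw [if_neg ha, if_neg (fun hb => ha (h2.2 hb))]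
  · intro a
    split_ifs
    · exact h.abs a
    · simp
  · intro a
    by_cases ha : prim a
    · rw [if_pos ha, if_pos (prim_mul hc ha), h.mul c a hc ha, hcc, neg_one_mul]
    · rw [if_neg ha, if_neg (fun hb => ha (prim_cancel hc hb)), neg_zero]

lemma Rc.sum' (h : Rc χ q) {v : ℕ} (hv : 1 ≤ v) : |∑ d ∈ PB v, χ d| ≤ 9 * v := by
  refine (abs_sum_le_sum_abs _ _).trans ((sum_le_sum fun d _ => h.abs d).trans ?_)
  rw [sum_const, nsmul_eq_mul, mul_one]
  exact card_PB_le hv

/-- partial sums of the L-series at 1 -/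
theorem Rc.log (h : Rc χ q) (Y : ℕ) :
    |∑ d ∈ PB Y, χ d / nrm d| ≤ 45 * lg (nrm q) := by
  classical
  have hN1 : 1 ≤ nrm q := nrm_pos' h.q0
  set N := nrm q with hN
  have hlg := one_le_lg N
  rcases Nat.eq_zero_or_pos Y with h0 | hY
  · have : PB Y = ∅ := by
      rw [eq_empty_iff_forall_notMem]
      intro x hx
      rw [mem_PB] at hx
      have := nrm_pos' (prim_ne_zero hx.2)
      omega
    rw [this, sum_empty, abs_zero]
    linarith
  have hYr : (0 : ℝ) < Y := by exact_mod_cast hY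
  -- summation by parts
  have e1 : ∑ d ∈ PB Y, χ d / nrm d = (∑ d ∈ PB Y, χ d) * (1 / Y) +
      ∑ v ∈ Ico 1 Y, (∑ d ∈ PB v, χ d) * (1 / ((v : ℝ) * (v + 1))) := by
    have e2 : ∀ d ∈ PB Y, χ d / nrm d = χ d * (1 / Y) +
        ∑ v ∈ Ico 1 Y, if nrm d ≤ v then χ d * (1 / ((v : ℝ) * (v + 1))) else 0 := by
      intro d hd
      rw [mem_PB] at hd
      have hd1 := nrm_pos' (prim_ne_zero hd.2)
      have h2 := inv_tel (nrm d) hd1 Y hd.1
      rw [div_eq_mul_one_div, h2, mul_add, mul_sum]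
      congr 1
      rw [← sum_filter]
      refine sum_congr ?_ fun _ _ => rfl
      ext v
      rw [mem_filter, mem_Ico, mem_Ico]
      constructor
      · rintro ⟨a1, a2⟩; exact ⟨⟨by omega, a2⟩, a1⟩
      · rintro ⟨⟨-, a2⟩, a1⟩; exact ⟨a1, a2⟩
    rw [sum_congr rfl e2, sum_add_distrib, ← sum_mul, sum_comm]
    congr 1
    refine sum_congr rfl fun v hv => ?_
    rw [mem_Ico] at hv
    rw [← sum_filter, ← sum_mul]
    congr 1
    refine sum_congr ?_ fun _ _ => rfl
    ext d
    rw [mem_filter, mem_PB, mem_PB]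
    constructor
    · rintro ⟨⟨-, a2⟩, a1⟩; exact ⟨a1, a2⟩
    · rintro ⟨a1, a2⟩; exact ⟨⟨by omega, a2⟩, a1⟩
  rw [e1]
  refine (abs_add_le _ _).trans ?_
  have e3 : |(∑ d ∈ PB Y, χ d) * (1 / Y)| ≤ 9 := by
    rw [abs_mul, abs_of_pos (show (0 : ℝ) < 1 / Y by positivity), mul_one_div, div_le_iff₀ hYr]
    exact h.sum' hY
  have e4 : ∀ v ∈ Ico 1 Y, |(∑ d ∈ PB v, χ d) * (1 / ((v : ℝ) * (v + 1)))| ≤
      (if v < N ^ 2 then 9 * (1 / ((v : ℝ) + 1)) else 0) +
      (if N ^ 2 ≤ v then 9 * N * (Real.sqrt v / (v * (v + 1))) else 0) := by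
    intro v hv
    rw [mem_Ico] at hv
    have v0 : (0 : ℝ) < v := by exact_mod_cast hv.1
    have hp : (0 : ℝ) < 1 / ((v : ℝ) * (v + 1)) := by positivity
    rw [abs_mul, abs_of_pos hp]
    by_cases h4 : v < N ^ 2
    · rw [if_pos h4, if_neg (by omega), add_zero]
      calc |∑ d ∈ PB v, χ d| * (1 / ((v : ℝ) * (v + 1))) ≤ (9 * v) * (1 / ((v : ℝ) * (v + 1))) :=
            mul_le_mul_of_nonneg_right (h.sum' hv.1) hp.le
        _ = 9 * (1 / ((v : ℝ) + 1)) := by field_simp
    · rw [if_neg h4, if_pos (by omega), zero_add]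
      calc |∑ d ∈ PB v, χ d| * (1 / ((v : ℝ) * (v + 1))) ≤
            (9 * N * Real.sqrt v) * (1 / ((v : ℝ) * (v + 1))) :=
            mul_le_mul_of_nonneg_right (h.sum hv.1) hp.le
        _ = 9 * N * (Real.sqrt v / (v * (v + 1))) := by ring
  have e5 : |∑ v ∈ Ico 1 Y, (∑ d ∈ PB v, χ d) * (1 / ((v : ℝ) * (v + 1)))| ≤
      9 * (2 * lg N) + 18 := by
    refine (abs_sum_le_sum_abs _ _).trans ((sum_le_sum e4).trans ?_)
    rw [sum_add_distrib]
    have hN2 : 1 ≤ N ^ 2 := Nat.one_le_pow _ _ hN1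
    have a1 : ∑ v ∈ Ico 1 Y, (if v < N ^ 2 then 9 * (1 / ((v : ℝ) + 1)) else 0) ≤ 9 * (2 * lg N) := by
      rw [← sum_filter, ← mul_sum]
      have h2 : ∑ v ∈ (Ico 1 Y).filter (fun v => v < N ^ 2), (1 : ℝ) / ((v : ℝ) + 1) ≤
          ∑ v ∈ Ico 1 (N ^ 2), (1 : ℝ) / ((v : ℝ) + 1) := by
        refine sum_le_sum_of_subset_of_nonneg ?_ (fun _ _ _ => by positivity)
        intro v hv
        rw [mem_filter, mem_Ico] at hv
        rw [mem_Ico]
        exact ⟨hv.1.1, hv.2⟩
      have h3 := harm_le (N ^ 2) hN2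
      have h4 : Real.log ((N ^ 2 : ℕ) : ℝ) = 2 * Real.log N := by
        push_cast
        rw [Real.log_pow]
        push_cast
        ring
      rw [h4] at h3
      have h5 := log_le_lg hN1
      linarith
    have a2 : ∑ v ∈ Ico 1 Y, (if N ^ 2 ≤ v then 9 * (N : ℝ) * (Real.sqrt v / (v * (v + 1))) else 0) ≤ 18 := by
      rw [← sum_filter, ← mul_sum]
      have h2 : ∑ v ∈ (Ico 1 Y).filter (fun v => N ^ 2 ≤ v), Real.sqrt v / ((v : ℝ) * (v + 1)) ≤
          ∑ v ∈ Ico (N ^ 2) (max Y (N ^ 2)), Real.sqrt v / ((v : ℝ) * (v + 1)) := by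
        refine sum_le_sum_of_subset_of_nonneg ?_ (fun _ _ _ => by positivity)
        intro v hv
        rw [mem_filter, mem_Ico] at hv
        rw [mem_Ico]
        exact ⟨hv.2, lt_of_lt_of_le hv.1.2 (le_max_left _ _)⟩
      have h3 := sqrt_tel (N ^ 2) hN2 (max Y (N ^ 2)) (le_max_right _ _)
      have h4 : Real.sqrt ((N ^ 2 : ℕ) : ℝ) = N := by
        push_cast
        exact Real.sqrt_sq (Nat.cast_nonneg _)
      rw [h4] at h3
      have h5 : (0 : ℝ) ≤ 1 / Real.sqrt ((max Y (N ^ 2) : ℕ) : ℝ) := by positivity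
      have Nr : (0 : ℝ) < N := by exact_mod_cast hN1
      calc 9 * (N : ℝ) * ∑ v ∈ (Ico 1 Y).filter (fun v => N ^ 2 ≤ v), Real.sqrt v / ((v : ℝ) * (v + 1))
          ≤ 9 * N * (2 * (1 / N)) := by
            apply mul_le_mul_of_nonneg_left _ (by positivity)
            linarith
        _ = 18 := by field_simp; norm_num
    linarith
  linarith

theorem Rc.conv (hχ : Rc χ q) : ∀ n : ZI, prim n → mf (fun π => 1 + χ π) n ≤ ∑ d ∈ DP n, χ d := by
  have hnn : ∀ n, 0 ≤ mf (fun π => 1 + χ π) n := by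
    intro n
    apply mf_nonneg
    intro π
    rcases hχ.cs π with h | h | h <;> rw [h] <;> norm_num
  have key : ∀ N : ℕ, ∀ n : ZI, nrm n = N → prim n →
      mf (fun π => 1 + χ π) n ≤ ∑ d ∈ DP n, χ d := by
    intro N
    induction N using Nat.strong_induction_on with
    | _ N ih =>
      intro n hN hn
      have hn0 := prim_ne_zero hn
      by_cases h1 : n = 1
      · rw [h1]
        have e1 : mf (fun π => 1 + χ π) 1 = 1 := by unfold mf; rw [PD_one]; simp
        have e2 : DP (1 : ZI) = {1} := by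
          ext d
          rw [mem_DP one_ne_zero, mem_singleton]
          constructor
          · rintro ⟨a1, a2⟩
            have h2 := isUnit_of_dvd_one a2
            obtain ⟨u, rfl⟩ := h2
            exact eq_one_of_prim a1 (unit_norm u)
          · rintro rfl
            exact ⟨prim_one, dvd_rfl⟩
        rw [e1, e2, sum_singleton, hχ.one]
      · have hnu : ¬ IsUnit n := by
          intro h2
          obtain ⟨u, hu⟩ := h2
          apply h1
          rw [← hu]
          rw [← hu] at hn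
          exact eq_one_of_prim hn (unit_norm u)
        obtain ⟨ρ, hρ, hρn⟩ := WfDvdMonoid.exists_irreducible_factor hnu hn0
        obtain ⟨π, hπ, hass⟩ := exists_PP (irreducible_iff_prime.1 hρ) (odd_of_dvd hρn (prim_norm_odd hn))
        have hπn : π ∣ n := hass.dvd.trans hρn
        obtain ⟨k, m, hm, hnm⟩ := WfDvdMonoid.max_power_factor hn0 hπ.pr.irreducible
        have hk : 1 ≤ k := by
          by_contra h2
          have : k = 0 := by omega
          rw [this, pow_zero, one_mul] at hnm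
          rw [hnm] at hπn
          exact hm hπn
        have hmp : prim m := prim_cancel (prim_pow hπ.prm k) (by rw [← hnm]; exact hn)
        have hm0 := prim_ne_zero hmp
        have hlt : nrm m < N := by
          rw [← hN, hnm, nrm_mul]
          have h2 : 1 < nrm (π ^ k) := by
            have h3 : π ∣ π ^ k := dvd_pow_self π (by omega)
            have h4 : nrm π ≤ nrm (π ^ k) := norm_le_of_dvd (pow_ne_zero _ hπ.ne) h3
            have h5 := hπ.nrm_ne_one
            have h6 := nrm_pos' hπ.ne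
            omega
          have h3 := nrm_pos' hm0
          nlinarith
        have h2 := ih (nrm m) hlt m rfl hmp
        rw [hnm, sum_DP_mul hπ hmp hm]
        have e1 : mf (fun π => 1 + χ π) (π ^ k * m) =
            (1 + χ π) * mf (fun π => 1 + χ π) m := by
          unfold mf
          classical
          have h3 : PD (π ^ k * m) = insert π (PD m) := by
            ext ρ
            rw [mem_insert, mem_PD (mul_ne_zero (pow_ne_zero _ hπ.ne) hm0), mem_PD hm0]
            constructor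
            · rintro ⟨a1, a2⟩
              rcases a1.pr.dvd_or_dvd a2 with a3 | a3
              · left
                exact a1.eq_of_dvd hπ (a1.pr.dvd_of_dvd_pow a3)
              · right
                exact ⟨a1, a3⟩
            · rintro (rfl | ⟨a1, a2⟩)
              · exact ⟨hπ, (dvd_pow_self _ (by omega)).mul_right _⟩
              · exact ⟨a1, a2.mul_left _⟩
          rw [h3, prod_insert]
          rw [mem_PD hm0]
          exact fun h4 => hm h4.2
        rw [e1]
        have e2 : ∀ j, ∀ d, prim d → χ (π ^ j * d) = χ π ^ j * χ d := by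
          intro j
          induction j with
          | zero => intro d _; rw [pow_zero, pow_zero, one_mul, one_mul]
          | succ j ih2 =>
            intro d hd
            rw [pow_succ, mul_assoc, ih2 (π * d) (prim_mul hπ.prm hd), hχ.mul π d hπ.prm hd, pow_succ]
            ring
        have e3 : ∀ j ∈ range (k + 1), ∑ d ∈ DP m, χ (π ^ j * d) = χ π ^ j * ∑ d ∈ DP m, χ d := by
          intro j _
          rw [mul_sum]
          refine sum_congr rfl fun d hd => e2 j d ((mem_DP hm0).1 hd).1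
        rw [sum_congr rfl e3, ← sum_mul]
        have h3 := sgn_sum (hχ.cs π) hk
        have h4 : (0 : ℝ) ≤ 1 + χ π := by
          rcases hχ.cs π with h | h | h <;> rw [h] <;> norm_num
        exact mul_le_mul h3 h2 (hnn m) (h4.trans h3)
  intro n hn
  exact key _ n rfl hn

/-- **the half-density mean value** -/
theorem Rc.hall (h : Rc χ q) (T : ℕ) :
    ∑ n ∈ SB T, mf (fun π => (1 + χ π) / 2) n ≤ 861 * Real.sqrt (lg (nrm q)) * (T / Real.sqrt (lg T)) := by
  classical
  rcases Nat.eq_zero_or_pos T with h0 | hT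
  · have : SB T = ∅ := by
      rw [eq_empty_iff_forall_notMem]
      intro x hx
      rw [mem_SB] at hx
      have := nrm_pos' hx.2.ne
      omega
    rw [this, sum_empty]
    positivity
  have hl := one_le_lg (nrm q)
  have hA : ∑ n ∈ PB (T ^ 2), mf (fun π => 2 * ((1 + χ π) / 2)) n / nrm n ≤
      (1681 * lg (nrm q)) * lg T := by
    have e1 : (fun π : ZI => 2 * ((1 + χ π) / 2)) = fun π => 1 + χ π := by
      funext π; ring
    rw [e1]
    have e2 : ∑ n ∈ PB (T ^ 2), mf (fun π => 1 + χ π) n / nrm n ≤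
        ∑ n ∈ PB (T ^ 2), (∑ d ∈ DP n, χ d) / nrm n := by
      refine sum_le_sum fun n hn => ?_
      exact div_le_div_of_nonneg_right (h.conv n (mem_PB.1 hn).2) (Nat.cast_nonneg _)
    rw [conv_sum] at e2
    refine e2.trans ?_
    have e3 : ∀ k ∈ PB (T ^ 2), (1 / (nrm k : ℝ)) * ∑ d ∈ PB (T ^ 2 / nrm k), χ d / nrm d ≤
        (45 * lg (nrm q)) * (1 / nrm k) := by
      intro k _
      rw [mul_comm]
      exact mul_le_mul_of_nonneg_right ((le_abs_self _).trans (h.log _)) (by positivity)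
    refine (sum_le_sum e3).trans ?_
    rw [← mul_sum]
    have e4 := hsum (T ^ 2)
    have e5 := lg_sq T
    have e6 := lg_pos T
    have e7 : (45 * lg (nrm q)) * ∑ k ∈ PB (T ^ 2), (1 : ℝ) / nrm k ≤ (45 * lg (nrm q)) * (36 * lg T) := by
      apply mul_le_mul_of_nonneg_left _ (by linarith)
      linarith
    refine e7.trans ?_
    have : 0 ≤ lg (nrm q) * lg T := by positivity
    nlinarith
  have h2 := hall_aux (g := fun π => (1 + χ π) / 2)
    (fun π => by rcases h.cs π with h | h | h <;> simp only [h] <;> norm_num)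
    (fun π => by rcases h.cs π with h | h | h <;> simp only [h] <;> norm_num) hT (by linarith) hA
  refine h2.trans (le_of_eq ?_)
  have e : Real.sqrt (1681 * lg (nrm q)) = 41 * Real.sqrt (lg (nrm q)) := by
    rw [Real.sqrt_mul (by norm_num)]
    congr 1
    rw [show (1681 : ℝ) = 41 ^ 2 by norm_num]
    exact Real.sqrt_sq (by norm_num)
  rw [e]
  ring

/-! ### the twisted characters -/

/-- the symbol of `c` on the primary elements -/
structure Ec (c : ZI) (ep : ZI → ℤ) : Prop where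
  cs : ∀ a, ep a = 1 ∨ ep a = -1
  one : ep 1 = 1
  mul : ∀ {a b : ZI}, prim a → prim b → ep (a * b) = ep a * ep b
  per : ∀ a t : ZI, ep (a + m5 * t) = ep a
  flip : ∃ c0, prim c0 ∧ ep c0 = -1
  val : ∀ π, PP π → ep π = qr π c

lemma Ec.of_Sg {c : ZI} {ep : ZI → ℤ} (he : Sg ep) (h : ∀ π, PP π → ep π = qr π c) : Ec c ep where
  cs := he.cs
  one := he.one
  mul := he.mul
  per := he.per
  flip := ⟨5, ⟨by decide, by decide⟩, he.five⟩
  val := h

theorem exists_Ec {c : ZI} (hc : cc3 c) : ∃ ep, Ec c ep := by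
  rcases hc with h | h | h
  · refine ⟨th, th_cases, th_one, fun ha hb => th_pm ha hb, ?_, ⟨⟨3, 2⟩, ⟨by decide, by decide⟩, by decide⟩, ?_⟩
    · intro a t
      have e : a + m5 * t = a + 4 * (pi1 * t) := by rw [m5_eq]; ring
      rw [e, th_four]
    · intro π hπ
      rw [h, qr_th hπ]
  · exact ⟨lm, Ec.of_Sg lm_Sg (fun π hπ => by rw [h, qr_pi1 hπ])⟩
  · refine ⟨_, Ec.of_Sg lt_Sg (fun π hπ => ?_)⟩
    rw [h, qr_mul hπ, qr_pi1 hπ, qr_th hπ, mul_comm]

lemma cop_pi1 {a : ZI} (ha : prim a) : IsCoprime a pi1 := by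
  rw [isCoprime_comm]
  exact (pi1_prime.irreducible.coprime_iff_not_dvd).2 (pi1_prim ha)

lemma cop_m5 {a : ZI} (ha : prim a) : IsCoprime a m5 := by
  have h := (cop_pi1 ha).pow_right (n := 5)
  have e : m5 = pi1 ^ 5 * (-1) := by decide
  rw [e]
  exact h.mul_right (by
    refine ⟨0, -1, by ring⟩)

theorem Rc.of_Ec {c : ZI} {ep : ZI → ℤ} (he : Ec c ep) {G : ZI} (hG : PS G) :
    Rc (fun a => (jac G a : ℝ) * ep a) (m5 * G) where
  q0 := mul_ne_zero (by decide) hG.ne
  tw := by
    refine Dvd.dvd.mul_right ?_ _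
    exact ⟨2, m5_two⟩
  cs := by
    intro a
    rcases jac_cases G a with h | h | h <;> rcases he.cs a with h' | h' <;> simp only [h, h'] <;> norm_num
  one := by
    simp only [jac_one_right hG.ne, he.one]
    norm_num
  mul := by
    intro a b ha hb
    simp only [jac_mul_right hG.ne, he.mul ha hb]
    push_cast
    ring
  per := by
    intro a b _ hab
    have h1 := jac_per hG.ne ((dvd_mul_left G m5).trans hab)
    obtain ⟨t, ht⟩ := hab
    have h2 : a = b + m5 * (G * t) := by linear_combination ht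
    have h3 : ep a = ep b := by rw [h2, he.per]
    rw [h1, h3]
  flip := by
    obtain ⟨c0, hc0, hc1⟩ := he.flip
    obtain ⟨u, v, huv⟩ := cop_m5 hG.prm
    have hprim : prim (c0 + m5 * (v * (1 - c0))) := by
      refine (prim_congr ?_).2 hc0
      refine ⟨2 * (v * (1 - c0)), ?_⟩
      rw [m5_two]; ring
    have hG1 : c0 + m5 * (v * (1 - c0)) - 1 = G * (u * (c0 - 1)) := by
      linear_combination (1 - c0) * huv
    refine ⟨c0 + m5 * (v * (1 - c0)), hprim, ?_, ?_⟩
    · refine (cop_m5 hprim).mul_right ?_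
      exact ⟨1, -(u * (c0 - 1)), by linear_combination hG1⟩
    · rw [he.per, hc1]
      have : jac G (c0 + m5 * (v * (1 - c0))) = jac G 1 := jac_per hG.ne ⟨_, hG1⟩
      rw [this, jac_one_right hG.ne]
      norm_num

lemma lg_m5 {n : ℕ} (hn : 1 ≤ n) : lg (32 * n) ≤ 6 * lg n := by
  unfold lg
  have h1 : Nat.log 2 (32 * n) = Nat.log 2 n + 5 := by
    have h2 : 32 * n = n * 2 * 2 * 2 * 2 * 2 := by ring
    rw [h2]
    rw [Nat.log_mul_base (by norm_num) (by omega), Nat.log_mul_base (by norm_num) (by omega),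
      Nat.log_mul_base (by norm_num) (by omega), Nat.log_mul_base (by norm_num) (by omega),
      Nat.log_mul_base (by norm_num) (by omega)]
  rw [h1]
  have h3 : (0 : ℝ) ≤ Nat.log 2 n := Nat.cast_nonneg _
  push_cast
  linarith

/-- **the half-density mean value for the twisted characters** -/
theorem hallE {c : ZI} {ep : ZI → ℤ} (he : Ec c ep) {G : ZI} (hG : PS G) (T : ℕ) :
    ∑ n ∈ SB T, mf (fun π => (1 + (jac G π : ℝ) * ep π) / 2) n ≤
      2600 * Real.sqrt (lg (nrm G)) * (T / Real.sqrt (lg T)) := by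
  have h := (Rc.of_Ec he hG).hall T
  refine h.trans ?_
  have h1 : nrm (m5 * G) = 32 * nrm G := by
    rw [nrm_mul]
    congr 1
  rw [h1]
  have h2 := lg_m5 (nrm_pos' hG.ne)
  have h3 := one_le_lg (nrm G)
  have h4 : Real.sqrt (lg (32 * nrm G)) ≤ 3 * Real.sqrt (lg (nrm G)) := by
    have h5 : lg (32 * nrm G) ≤ 9 * lg (nrm G) := by linarith
    refine (Real.sqrt_le_sqrt h5).trans (le_of_eq ?_)
    rw [Real.sqrt_mul (by norm_num)]
    congr 1
    rw [show (9 : ℝ) = 3 ^ 2 by norm_num]
    exact Real.sqrt_sq (by norm_num)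
  have h5 : 0 ≤ Real.sqrt (lg (nrm G)) := Real.sqrt_nonneg _
  have h6 : (0 : ℝ) ≤ T / Real.sqrt (lg T) := by positivity
  apply mul_le_mul_of_nonneg_right _ h6
  linarith

end Run7.h26.QI
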