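import Pool.Agent.Run7.h691.GZ.Few
import Pool.Agent.Run7.h691.GZ.BOX
import Pool.Agent.Run7.h26.QI.Ct1

/-!
Counting with one further vertex: the definitions, and the degenerate labels (after `GZ/Few` of helper691).
-/

set_option autoImplicit false
set_option linter.unusedVariables false

open scoped Classical

namespace Run7.h26.QI

open Finset Filter
open H385 (ZI nrm im1)
open Pool.Agent.Y699 hiding kk f1 f2 LE f1_hasProd f2_hasProd sg
open Pool.Agent.Y703.CX (eL zz kk)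
open Pool.Agent.H691.GZ
open Pool.Agent.H691.GZ.BF (fiber_le half_le Dg pair_count gen pN)

/-- the system with the vertex `c` -/
def SolC (c : ZI) (S : Finset ZI) (v : ZI → ZMod 2) : Prop :=
  ∀ π ∈ S, ∑ ρ ∈ S, qa π ρ * (v ρ - v π) + qa π c * v π = 0

/-- only the zero solution -/
def GdC (c : ZI) (S : Finset ZI) : Prop := ∀ v, SolC c S v → ∀ π ∈ S, v π = 0

/-- the labels are not degenerate -/
def NdC (c : ZI) (S₀ S₁ : Finset ZI) : Prop :=
  ∀ (v : ZI → ZMod 2) (a : ZMod 2), ((∃ u ∈ S₀, v u ≠ 0) ∨ a ≠ 0) →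
    ∃ π ∈ S₁, ∑ u ∈ S₀, v u * qa u π + a * qa π c ≠ 0

theorem notNdC {c : ZI} {S₀ T : Finset ZI} (h : ¬ NdC c S₀ T) : ∃ A : Finset ZI, A ⊆ S₀ ∧
    ((A.Nonempty ∧ Dg A T) ∨ ∀ π ∈ T, ∑ u ∈ A, qa u π + qa π c = 0) := by
  unfold NdC at h
  push Not at h
  obtain ⟨v, a, h1, h2⟩ := h
  have key0 : ∀ c : ZMod 2, c ≠ 0 → c = 1 := by decide
  refine ⟨S₀.filter fun u => v u = 1, filter_subset _ _, ?_⟩
  have hsum : ∀ π, ∑ u ∈ S₀.filter (fun u => v u = 1), qa u π = ∑ u ∈ S₀, v u * qa u π := by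
    intro π
    rw [sum_filter]
    refine sum_congr rfl fun u _ => ?_
    have key : ∀ a b : ZMod 2, (if a = 1 then b else 0) = a * b := by decide
    exact key (v u) (qa u π)
  by_cases ha : a = 0
  · left
    rcases h1 with ⟨u, hu, hu0⟩ | h1
    · refine ⟨⟨u, mem_filter.2 ⟨hu, key0 _ hu0⟩⟩, ?_⟩
      intro π hπ
      rw [hsum]
      have h3 := h2 π hπ
      rwa [ha, zero_mul, add_zero] at h3
    · exact absurd ha h1
  · right
    intro π hπ
    rw [hsum]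
    have h3 := h2 π hπ
    rwa [key0 _ ha, one_mul] at h3

theorem pair_count' {c : ZI} {ep : ZI → ℤ} (he : Ec c ep) (R : Finset ℕ) (X z : ℕ) (S₀ : Finset ZI)
    (hS₀ : ∀ u ∈ S₀, PP u ∧ nrm u ≤ z) (A : Finset ZI) (hA : A ⊆ S₀)
    (F : Finset (Finset ZI)) (hF : ∀ S ∈ F, (S ∈ SS R X ∧ sm z S = S₀) ∧
      ∀ π ∈ la z S, ∑ u ∈ A, qa u π + qa π c = 0) :
    (F.card : ℝ) ≤ 2600 * lg (pN S₀) * (((X / pN S₀ : ℕ) : ℝ) *
          (lg (X / pN S₀)) ^ (-(1 / 3) : ℝ)) := by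
  obtain ⟨a1, a2⟩ := PS_prod (S := A) fun π hπ => (hS₀ π (hA hπ)).1
  set a := ∏ π ∈ A, π with ha
  have hval : ∀ S ∈ F, ∀ π ∈ la z S, (jac a π : ℝ) * ep π = 1 := by
    intro S hS π hπ
    obtain ⟨⟨h1, h2⟩, h3⟩ := hF S hS
    have hπq : PP π ∧ ¬ nrm π ≤ z := by
      unfold la at hπ
      rw [mem_filter] at hπ
      unfold SS at h1
      rw [mem_filter] at h1
      exact ⟨h1.2.1.1 π hπ.1, hπ.2⟩
    have hchi : ∀ u ∈ S₀, Pool.Agent.H691.GZ.sg (qa u π) = (qr u π : ℝ) := by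
      intro u hu
      refine sg_qa fun hdv => ?_
      have := (hS₀ u hu).1.eq_of_dvd hπq.1 hdv
      subst this
      exact hπq.2 (hS₀ u hu).2
    have hc : Pool.Agent.H691.GZ.sg (qa π c) = (ep π : ℝ) := by
      have h4 := he.val π hπq.1
      have h5 := he.cs π
      unfold Pool.Agent.H691.GZ.sg qa
      rw [← h4]
      rcases h5 with h5 | h5 <;> rw [h5] <;> norm_num
    have h5 : (jac a π : ℝ) * ep π = 1 := by
      unfold jac
      rw [a2]
      push_cast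
      rw [prod_congr rfl fun u hu => (hchi u (hA hu)).symm, ← EQ.sg_sum, ← hc, ← EQ.sg_add, h3 π hπ,
        EQ.sg_zero]
    exact_mod_cast h5
  have hχ : ∀ π, (jac a π : ℝ) * ep π = 0 ∨ (jac a π : ℝ) * ep π = 1 ∨ (jac a π : ℝ) * ep π = -1 :=
    (Rc.of_Ec he a1).cs
  have h := fiber_le R X z S₀ (fun u hu => (hS₀ u hu).1) F (fun S hS => (hF S hS).1)
    (fun π => (1 + (jac a π : ℝ) * ep π) / 2) (fun π => by
      rcases hχ π with h | h | h <;> simp only [h] <;> norm_num) 1 (fun S hS => by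
      refine le_of_eq (prod_eq_one fun π hπ => ?_).symm
      rw [hval S hS π hπ]
      norm_num)
  rw [mul_one] at h
  refine h.trans ((hallE he a1 _).trans ?_)
  have hnn : nrm a ≤ pN S₀ := by
    rw [ha, nrm_prod]
    unfold pN
    refine prod_le_prod_of_subset_of_one_le' hA fun u hu _ => ?_
    exact nrm_pos' (hS₀ u hu).1.ne
  have h4 : Real.sqrt (lg (nrm a)) ≤ lg (pN S₀) := by
    calc Real.sqrt (lg (nrm a)) ≤ lg (nrm a) := by
          rw [Real.sqrt_le_left (by have := one_le_lg (nrm a); linarith)]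
          have := one_le_lg (nrm a)
          nlinarith
      _ ≤ lg (pN S₀) := lg_mono hnn
  have hTl : 0 ≤ ((X / pN S₀ : ℕ) : ℝ) * (lg (X / pN S₀)) ^ (-(1 / 3) : ℝ) :=
    mul_nonneg (Nat.cast_nonneg _) (Real.rpow_nonneg (zero_le_one.trans (one_le_lg _)) _)
  have h5 := half_le (X / pN S₀)
  have h6 : 0 ≤ ((X / pN S₀ : ℕ) : ℝ) / Real.sqrt (lg (X / pN S₀)) := by positivity
  have h7 : 0 ≤ lg (pN S₀) := (lg_pos _).le
  gcongr

theorem bad_count' {c : ZI} {ep : ZI → ℤ} (he : Ec c ep) (R : Finset ℕ) (X : ℕ) (S₀ : Finset ZI)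
    (hS₀ : ∀ u ∈ S₀, PP u ∧ nrm u ≤ zz X) (G : Finset (Finset ZI))
    (hG : ∀ S ∈ G, S ∈ SS R X ∧ (S.card ≤ kk X ∧ ¬ NdC c (sm (zz X) S) (la (zz X) S)) ∧
      sm (zz X) S = S₀) : (G.card : ℝ) ≤
        4280 * 2 ^ S₀.card * lg (pN S₀) * (((X / pN S₀ : ℕ) : ℝ) *
          (lg (X / pN S₀)) ^ (-(1 / 3) : ℝ)) := by
  set Q : Finset ZI → Finset (Finset ZI) := fun p => (G.filter fun S => p.Nonempty ∧ Dg p (la (zz X) S)) ∪
    (G.filter fun S => ∀ π ∈ la (zz X) S, ∑ u ∈ p, qa u π + qa π c = 0) with hQ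
  have hsub : G ⊆ S₀.powerset.biUnion Q := by
    intro S hS
    obtain ⟨h1, ⟨h2, h3⟩, h4⟩ := hG S hS
    rw [h4] at h3
    obtain ⟨A, hA, hAB⟩ := notNdC h3
    rw [mem_biUnion]
    refine ⟨A, mem_powerset.2 hA, ?_⟩
    rw [hQ, mem_union, mem_filter, mem_filter]
    rcases hAB with h5 | h5
    · exact Or.inl ⟨hS, h5⟩
    · exact Or.inr ⟨hS, h5⟩
  set E : ℝ := lg (pN S₀) * (((X / pN S₀ : ℕ) : ℝ) * (lg (X / pN S₀)) ^ (-(1 / 3) : ℝ)) with hE
  have hTl : 0 ≤ ((X / pN S₀ : ℕ) : ℝ) * (lg (X / pN S₀)) ^ (-(1 / 3) : ℝ) :=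
    mul_nonneg (Nat.cast_nonneg _) (Real.rpow_nonneg (zero_le_one.trans (one_le_lg _)) _)
  have hE0 : 0 ≤ E := mul_nonneg (lg_pos _).le hTl
  have h1 : (G.card : ℝ) ≤ ∑ p ∈ S₀.powerset, ((Q p).card : ℝ) := by
    exact_mod_cast (card_le_card hsub).trans card_biUnion_le
  have h2 : ∀ p ∈ S₀.powerset, ((Q p).card : ℝ) ≤ 4280 * E := by
    intro p hp
    rw [mem_powerset] at hp
    have g1 : ((G.filter fun S => p.Nonempty ∧ Dg p (la (zz X) S)).card : ℝ) ≤ 1680 * E := by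
      by_cases hne : p.Nonempty
      · have := pair_count R X (zz X) S₀ hS₀ p hp hne
          (G.filter fun S => p.Nonempty ∧ Dg p (la (zz X) S)) (by
          intro S hS
          rw [mem_filter] at hS
          have h := hG S hS.1
          exact ⟨⟨h.1, h.2.2⟩, hS.2.2⟩)
        rw [hE, ← mul_assoc]
        exact this
      · have : (G.filter fun S => p.Nonempty ∧ Dg p (la (zz X) S)) = ∅ := by
          rw [filter_eq_empty_iff]
          intro S _ h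
          exact hne h.1
        rw [this, card_empty, Nat.cast_zero]
        positivity
    have g2 : ((G.filter fun S => ∀ π ∈ la (zz X) S, ∑ u ∈ p, qa u π + qa π c = 0).card : ℝ) ≤ 2600 * E := by
      have := pair_count' he R X (zz X) S₀ hS₀ p hp
        (G.filter fun S => ∀ π ∈ la (zz X) S, ∑ u ∈ p, qa u π + qa π c = 0) (by
        intro S hS
        rw [mem_filter] at hS
        have h := hG S hS.1
        exact ⟨⟨h.1, h.2.2⟩, hS.2⟩)
      rw [hE, ← mul_assoc]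
      exact this
    have g3 : ((Q p).card : ℝ) ≤ ((G.filter fun S => p.Nonempty ∧ Dg p (la (zz X) S)).card : ℝ) +
        ((G.filter fun S => ∀ π ∈ la (zz X) S, ∑ u ∈ p, qa u π + qa π c = 0).card : ℝ) := by
      exact_mod_cast card_union_le _ _
    linarith
  have h3 : (S₀.powerset.card : ℝ) = 2 ^ S₀.card := by
    rw [card_powerset]
    push_cast
    rfl
  calc (G.card : ℝ) ≤ ∑ p ∈ S₀.powerset, 4280 * E := h1.trans (sum_le_sum h2)
    _ = 2 ^ S₀.card * (4280 * E) := by rw [sum_const, nsmul_eq_mul, h3]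
    _ = _ := by rw [hE]; ring

theorem bad_C {c : ZI} {ep : ZI → ℤ} (he : Ec c ep) (R : Finset ℕ) (ε : ℝ) (hε : 0 < ε) :
    ∃ X₀ : ℕ, ∀ X : ℕ, X₀ ≤ X →
      (((SS R X).filter fun S => S.card ≤ kk X ∧ ¬ NdC c (sm (zz X) S) (la (zz X) S)).card : ℝ) ≤ ε * X := by
  obtain ⟨X₀, hX₀⟩ := gen R 2 4280 (by norm_num) (by norm_num)
    (fun X S => ¬ NdC c (sm (zz X) S) (la (zz X) S))
    (fun X S₀ hS₀ _ F hF => by
      have h := bad_count' he R X S₀ hS₀ F hF
      exact h) ε hε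
  refine ⟨X₀, fun X hX => hX₀ X hX _ fun S hS => ?_⟩
  rw [mem_filter] at hS
  exact hS

end Run7.h26.QI
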