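import Pool.Agent.Run7.h26.QI.Ct2

/-!
Counting with one further vertex: the count in a box (after `GZ/BOX` of helper691).
-/

set_option autoImplicit false
set_option linter.unusedVariables false

open scoped Classical

namespace Run7.h26.QI

open Finset
open H385 (ZI nrm)
open Pool.Agent.Y699 (PP PP.ps jac_prime jac_rec)
open Pool.Agent.Y703.CQ (c2)
open Pool.Agent.H691.GZ
open Pool.Agent.H691.GZ.BOX (qa_symm ez0 ez0_coe sum_un ext_sum HB_sub)

/-- the label of a prime with respect to the small primes and `c` -/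
noncomputable def lbC (c : ZI) (S₀ : Finset ZI) (x : ZI) : Option S₀ → ZMod 2
  | none => qa x c
  | some u => qa u x

/-- the good labels -/
def LNC {ι U : Type} [Fintype U] (β : ι → U → ZMod 2) : Prop :=
  ∀ w : U → ZMod 2, (∃ u, w u ≠ 0) → ∃ i, ∑ u, w u * β i u ≠ 0

section one
variable {ι : Type} [Fintype ι] [LinearOrder ι] {S₀ : Finset ZI} {p : ι → ZI} {c : ZI}

omit [LinearOrder ι] in
theorem nd_iffC : NdC c S₀ (univ.image p) ↔ LNC (fun i => lbC c S₀ (p i)) := by
  unfold NdC LNC
  constructor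
  · intro h w hw
    obtain ⟨x, hx, hx2⟩ := h (ez0 fun u => w (some u)) (w none) (by
      obtain ⟨u, hu⟩ := hw
      rcases u with _ | u
      · exact Or.inr hu
      · exact Or.inl ⟨u, u.2, by rw [ez0_coe]; exact hu⟩)
    rw [Finset.mem_image] at hx
    obtain ⟨i, -, rfl⟩ := hx
    refine ⟨i, ?_⟩
    rw [← Finset.sum_coe_sort S₀] at hx2
    intro h0
    apply hx2
    rw [← h0, Fintype.sum_option, add_comm]
    congr 1
    refine Finset.sum_congr rfl fun u _ => ?_
    rw [ez0_coe]
    rfl
  · intro h w a hw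
    obtain ⟨i, hi⟩ := h (fun u => Option.elim u a (fun u => w u)) (by
      rcases hw with ⟨u, hu0, hu⟩ | h1
      · exact ⟨some ⟨u, hu0⟩, hu⟩
      · exact ⟨none, h1⟩)
    refine ⟨p i, Finset.mem_image_of_mem _ (Finset.mem_univ _), ?_⟩
    rw [← Finset.sum_coe_sort S₀]
    rw [Fintype.sum_option, add_comm] at hi
    exact hi

/-- the block matrix of the small vertices -/
noncomputable def mA (c : ZI) (S₀ : Finset ZI) : Option S₀ → Option S₀ → ZMod 2
  | none, none => 0
  | none, some v => qa v c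
  | some u, none => qa u c
  | some u, some v => qa u v

theorem mA_symm (hS₀ : ∀ u ∈ S₀, PP u) (u v : Option S₀) : mA c S₀ u v = mA c S₀ v u := by
  rcases u with _ | u <;> rcases v with _ | v
  · rfl
  · rfl
  · rfl
  · exact qa_symm (hS₀ u u.2) (hS₀ v v.2)

theorem anti_sum {S : Finset ZI} (hS : ∀ u ∈ S, PP u) (v : ZI → ZMod 2) :
    ∑ π ∈ S, ∑ ρ ∈ S, qa π ρ * (v ρ - v π) = 0 := by
  have h1 : ∑ π ∈ S, ∑ ρ ∈ S, qa π ρ * (v ρ - v π) =
      ∑ π ∈ S, ∑ ρ ∈ S, qa π ρ * v ρ - ∑ π ∈ S, ∑ ρ ∈ S, qa π ρ * v π := by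
    rw [← sum_sub_distrib]
    refine sum_congr rfl fun π _ => ?_
    rw [← sum_sub_distrib]
    exact sum_congr rfl fun ρ _ => by ring
  rw [h1, sum_comm, sub_eq_zero]
  refine sum_congr rfl fun π hπ => sum_congr rfl fun ρ hρ => ?_
  rw [qa_symm (hS π hπ) (hS ρ hρ)]

theorem gd_iffC (hp : Function.Injective p) (hpr : ∀ i, PP (p i)) (hS₀ : ∀ u ∈ S₀, PP u)
    (hd : ∀ i, p i ∉ S₀) :
    GdC c (S₀ ∪ univ.image p) ↔ GdA (mA c S₀) (fun u l => lbC c S₀ (p l) u)
      (Pool.Agent.H691.GZ.ext fun e : prs ι => qa (p e.1.1) (p e.1.2)) := by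
  have hch : ∀ a b t : ZMod 2, a * (t - (b + t)) = a * b := by decide
  have hsym : ∀ (v : ZI → ZMod 2) (k : ι), ∑ u : S₀, qa (p k) u * (v u - v (p k)) =
      ∑ u : S₀, qa u (p k) * (v u - v (p k)) := by
    intro v k
    refine Finset.sum_congr rfl fun u _ => ?_
    rw [qa_symm (hpr k) (hS₀ u u.2)]
  -- the system in terms of the blocks
  have hsol : ∀ v : ZI → ZMod 2, SolC c (S₀ ∪ univ.image p) v ↔
      (∀ u : S₀, (∑ w : S₀, qa u w * (v w - v u) + ∑ l, qa u (p l) * (v (p l) - v u)) + qa u c * v u = 0) ∧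
      (∀ k : ι, (∑ u : S₀, qa u (p k) * (v u - v (p k)) +
        ∑ l, Pool.Agent.H691.GZ.ext (fun e : prs ι => qa (p e.1.1) (p e.1.2)) k l *
          (v (p l) - v (p k))) + qa (p k) c * v (p k) = 0) := by
    intro v
    unfold SolC
    constructor
    · intro h
      refine ⟨fun u => ?_, fun k => ?_⟩
      · have := h u (Finset.mem_union_left _ u.2)
        rw [sum_un hp hd] at this
        exact this
      · have := h (p k) (Finset.mem_union_right _ (Finset.mem_image_of_mem _ (Finset.mem_univ _)))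
        rw [sum_un hp hd, hsym] at this
        rw [ext_sum hpr k (fun l => v (p l))]
        exact this
    · rintro ⟨h1, h2⟩ x hx
      rw [sum_un hp hd]
      rw [Finset.mem_union, Finset.mem_image] at hx
      rcases hx with hx | ⟨k, -, rfl⟩
      · exact h1 ⟨x, hx⟩
      · have := h2 k
        rw [ext_sum hpr k (fun l => v (p l))] at this
        rw [hsym]
        exact this
  unfold GdC GdA
  constructor
  · intro h a d h1 h2
    set t := a none with ht
    obtain ⟨v, hv⟩ : ∃ v : ZI → ZMod 2, ∀ n, v n = if h : n ∈ S₀ then a (some ⟨n, h⟩) - t else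
      if h : ∃ l, p l = n then d h.choose - t else 0 := ⟨_, fun n => rfl⟩
    have e1 : ∀ u : S₀, v u = a (some u) - t := by
      intro u
      rw [hv, dif_pos u.2]
    have e2 : ∀ l, v (p l) = d l - t := by
      intro l
      have hex : ∃ l', p l' = p l := ⟨l, rfl⟩
      rw [hv, dif_neg (hd l), dif_pos hex]
      exact congrArg (fun x => d x - t) (hp hex.choose_spec)
    have hs : SolC c (S₀ ∪ univ.image p) v := by
      rw [hsol]
      refine ⟨fun u => ?_, fun k => ?_⟩
      · simp only [e1, e2]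
        have h3 := h1 (some u)
        rw [Fintype.sum_option] at h3
        have e3 : mA c S₀ (some u) none * (a none - a (some u)) = qa u c * (a (some u) - t) := by
          change qa u c * (t - a (some u)) = _
          have : a (some u) = (a (some u) - t) + t := by ring
          rw [this, hch, sub_add_cancel]
        rw [e3] at h3
        have e4 : ∑ w : S₀, qa u w * (a (some w) - t - (a (some u) - t)) =
            ∑ w : S₀, mA c S₀ (some u) (some w) * (a (some w) - a (some u)) := by
          refine sum_congr rfl fun w _ => ?_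
          change _ = qa u w * _
          ring
        have e5 : ∑ l, qa u (p l) * (d l - t - (a (some u) - t)) =
            ∑ l, lbC c S₀ (p l) (some u) * (d l - a (some u)) := by
          refine sum_congr rfl fun l _ => ?_
          change _ = qa u (p l) * _
          ring
        rw [e4, e5, ← h3]
        ring
      · simp only [e1, e2]
        have h3 := h2 k
        rw [Fintype.sum_option] at h3
        have e3 : lbC c S₀ (p k) none * (a none - d k) = qa (p k) c * (d k - t) := by
          change qa (p k) c * (t - d k) = _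
          have : d k = (d k - t) + t := by ring
          rw [this, hch, sub_add_cancel]
        rw [e3] at h3
        have e4 : ∑ u : S₀, qa u (p k) * (a (some u) - t - (d k - t)) =
            ∑ u : S₀, lbC c S₀ (p k) (some u) * (a (some u) - d k) := by
          refine sum_congr rfl fun w _ => ?_
          change _ = qa w (p k) * _
          ring
        have e5 : ∑ l, Pool.Agent.H691.GZ.ext (fun e : prs ι => qa (p e.1.1) (p e.1.2)) k l *
            (d l - t - (d k - t)) = ∑ l, Pool.Agent.H691.GZ.ext (fun e : prs ι => qa (p e.1.1) (p e.1.2)) k l *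
            (d l - d k) := by
          refine sum_congr rfl fun l _ => by ring
        rw [e4, e5, ← h3]
        ring
    have h3 := h v hs
    refine ⟨t, fun u => ?_, fun l => ?_⟩
    · rcases u with _ | u
      · rfl
      · have h4 := h3 u (Finset.mem_union_left _ u.2)
        rw [e1] at h4
        exact sub_eq_zero.1 h4
    · have h4 := h3 (p l) (Finset.mem_union_right _ (Finset.mem_image_of_mem _ (Finset.mem_univ _)))
      rw [e2] at h4
      exact sub_eq_zero.1 h4
  · intro h v hv
    have hS : ∀ x ∈ S₀ ∪ univ.image p, PP x := by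
      intro x hx
      rw [Finset.mem_union, Finset.mem_image] at hx
      rcases hx with hx | ⟨k, -, rfl⟩
      · exact hS₀ x hx
      · exact hpr k
    have htot : ∑ x ∈ S₀ ∪ univ.image p, qa x c * v x = 0 := by
      have h1 : ∑ x ∈ S₀ ∪ univ.image p, (∑ ρ ∈ S₀ ∪ univ.image p, qa x ρ * (v ρ - v x) + qa x c * v x) = 0 :=
        sum_eq_zero hv
      rw [sum_add_distrib, anti_sum hS, zero_add] at h1
      exact h1
    rw [sum_un hp hd] at htot
    have hv' := hv
    rw [hsol] at hv'
    obtain ⟨h1, h2⟩ := hv'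
    have g1 : ∀ u : Option S₀, ∑ w, mA c S₀ u w * ((Option.elim w 0 (fun u => v u) : ZMod 2) -
        Option.elim u 0 (fun u => v u)) + ∑ l, lbC c S₀ (p l) u * (v (p l) -
        Option.elim u 0 (fun u => v u)) = 0 := by
      intro u
      rcases u with _ | u
      · rw [Fintype.sum_option]
        change (0 * (0 - 0) + ∑ w : S₀, qa w c * (v w - 0)) + ∑ l, qa (p l) c * (v (p l) - 0) = 0
        simp only [sub_zero, mul_zero, zero_add]
        exact htot
      · have h3 := h1 u
        rw [Fintype.sum_option]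
        change (qa u c * (0 - v u) + ∑ w : S₀, qa u w * (v w - v u)) + ∑ l, qa u (p l) * (v (p l) - v u) = 0
        have e3 : qa u c * (0 - v u) = qa u c * v u := by
          have := hch (qa u c) (v u) 0
          rwa [add_zero] at this
        rw [e3, ← h3]
        ring
    have g2 : ∀ k, ∑ u, lbC c S₀ (p k) u * ((Option.elim u 0 (fun u => v u) : ZMod 2) - v (p k)) +
        ∑ l, Pool.Agent.H691.GZ.ext (fun e : prs ι => qa (p e.1.1) (p e.1.2)) k l *
          (v (p l) - v (p k)) = 0 := by
      intro k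
      have h3 := h2 k
      rw [Fintype.sum_option]
      change (qa (p k) c * (0 - v (p k)) + ∑ u : S₀, qa u (p k) * (v u - v (p k))) +
        ∑ l, Pool.Agent.H691.GZ.ext (fun e : prs ι => qa (p e.1.1) (p e.1.2)) k l * (v (p l) - v (p k)) = 0
      have e3 : qa (p k) c * (0 - v (p k)) = qa (p k) c * v (p k) := by
        have := hch (qa (p k) c) (v (p k)) 0
        rwa [add_zero] at this
      rw [e3, ← h3]
      ring
    obtain ⟨t, ht1, ht2⟩ := h (fun u => Option.elim u 0 (fun u => v u)) (fun l => v (p l)) g1 g2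
    have ht : t = 0 := (ht1 none).symm
    intro x hx
    rw [Finset.mem_union, Finset.mem_image] at hx
    rcases hx with hx | ⟨k, -, rfl⟩
    · have := ht1 (some ⟨x, hx⟩)
      rw [ht] at this
      exact this
    · have := ht2 k
      rw [ht] at this
      exact this

end one

/-- the statement for the boxes, for `ND`, the property `G`, the limit `cc` and the constant `B` -/
def BXN (ND : Finset ZI → Finset ZI → Prop) (G : Finset ZI → Prop) (cc B : ℝ) : Prop :=
  ∀ (ι : Type) [Fintype ι] [LinearOrder ι]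
  (C : ι → Finset ZI) (X : ι → ℕ) (κ : ℝ) (S₀ : Finset ZI), 0 ≤ κ → (∀ i, (C i).card ≤ X i) →
  HB C X κ → (∀ u ∈ S₀, PP u) → (∀ i, ∀ π ∈ C i, PP π ∧ π ∉ S₀) →
  (∀ i l, i ≠ l → Disjoint (C i) (C l)) → S₀.card + 1 < Fintype.card ι →
  |(((Fintype.piFinset C).filter fun p => ND S₀ (univ.image p) ∧ G (S₀ ∪ univ.image p)).card : ℝ) -
      cc * (((Fintype.piFinset C).filter fun p => ND S₀ (univ.image p)).card : ℝ)| ≤
    B * (2 ^ S₀.card / 2 ^ Fintype.card ι) *
      (((Fintype.piFinset C).filter fun p => ND S₀ (univ.image p)).card : ℝ) +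
    2 ^ ((S₀.card + 1) * Fintype.card ι + (prs ι).card) * (κ * ∏ j, (X j : ℝ))

/-- **The count in a box.** -/
theorem t_BXC (c : ZI) (hEQ : S_EQ) (hLA : S_LA) : BXN (NdC c) (GdC c) c2 4 := by
  intro ι _ _ C X κ S₀ hκ hCX hHB hS₀ hC hdis hcard
  obtain ⟨cc, hcc⟩ : ∃ cc : ℝ, cc = 4 * (2 ^ S₀.card / 2 ^ Fintype.card ι) := ⟨_, rfl⟩
  obtain ⟨R, hR⟩ : ∃ R : ℝ, R = 2 ^ (prs ι).card * (κ * ∏ j, (X j : ℝ)) := ⟨_, rfl⟩
  have hcc0 : 0 ≤ cc := by rw [hcc]; positivity
  have hcc' : cc = 2 * (2 ^ (S₀.card + 1) / 2 ^ Fintype.card ι) := by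
    rw [hcc, pow_succ]; ring
  have hR0 : 0 ≤ R := by
    rw [hR]
    exact mul_nonneg (by positivity)
      (mul_nonneg hκ (Finset.prod_nonneg fun j _ => by positivity))
  have hcU : Fintype.card (Option S₀) = S₀.card + 1 := by
    rw [Fintype.card_option, Fintype.card_coe]
  -- facts on tuples
  have hinj : ∀ p ∈ Fintype.piFinset C, Function.Injective p := by
    intro p hp i j hij
    rw [Fintype.mem_piFinset] at hp
    by_contra hne
    have h1 := Finset.disjoint_left.1 (hdis i j hne) (hp i)
    rw [hij] at h1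
    exact h1 (hp j)
  have hd : ∀ p ∈ Fintype.piFinset C, ∀ i, p i ∉ S₀ := by
    intro p hp i
    rw [Fintype.mem_piFinset] at hp
    exact (hC i _ (hp i)).2
  have hpr : ∀ p ∈ Fintype.piFinset C, ∀ i, PP (p i) := by
    intro p hp i
    rw [Fintype.mem_piFinset] at hp
    exact (hC i _ (hp i)).1
  -- the part with given labels
  have h1 : ∀ β : ι → Option S₀ → ZMod 2, LNC β →
      |(((Fintype.piFinset C).filter fun p => (fun i => lbC c S₀ (p i)) = β ∧
          GdC c (S₀ ∪ univ.image p)).card : ℝ) -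
        c2 * (((Fintype.piFinset C).filter fun p => (fun i => lbC c S₀ (p i)) = β).card : ℝ)| ≤
      cc * (((Fintype.piFinset C).filter fun p => (fun i => lbC c S₀ (p i)) = β).card : ℝ) + R := by
    intro β hβ
    obtain ⟨C', hC'⟩ : ∃ C' : ι → Finset ZI, C' = fun i => (C i).filter fun q => lbC c S₀ q = β i :=
      ⟨_, rfl⟩
    have hpi : (Fintype.piFinset C).filter (fun p => (fun i => lbC c S₀ (p i)) = β) =
        Fintype.piFinset C' := by
      ext p
      simp only [Finset.mem_filter, Fintype.mem_piFinset, hC']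
      constructor
      · rintro ⟨h2, h3⟩ i
        exact ⟨h2 i, congrFun h3 i⟩
      · intro h2
        exact ⟨fun i => (h2 i).1, funext fun i => (h2 i).2⟩
    have h2 := hLA (Option S₀) ι (mA c S₀) (fun u l => β l u)
      (by rw [hcU]; exact hcard)
      (fun u v => mA_symm hS₀ u v)
      (fun w hw => hβ w hw)
    obtain ⟨Q, hQ⟩ : ∃ Q : (prs ι → ZMod 2) → Prop, Q = fun α =>
        GdA (mA c S₀) (fun (u : Option S₀) l => β l u)
          (Pool.Agent.H691.GZ.ext α) := ⟨_, rfl⟩
    have h3 := hEQ ι C' X κ hκ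
      (fun i => (Finset.card_le_card (by rw [hC']; exact Finset.filter_subset _ _)).trans (hCX i))
      (by rw [hC']; exact HB_sub hHB fun i q => lbC c S₀ q = β i) Q
    have h4 : ((Fintype.piFinset C).filter fun p => (fun i => lbC c S₀ (p i)) = β ∧
        GdC c (S₀ ∪ univ.image p)) = ((Fintype.piFinset C').filter fun p =>
          Q fun e => qa (p e.1.1) (p e.1.2)) := by
      rw [← hpi, Finset.filter_filter]
      refine Finset.filter_congr fun p hp => ?_
      refine and_congr_right fun hl => ?_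
      rw [gd_iffC (hinj p hp) (hpr p hp) hS₀ (hd p hp)]
      subst hl
      rw [hQ]
    have h5 : (((Fintype.piFinset C').card : ℕ) : ℝ) = ∏ j, ((C' j).card : ℝ) := by
      rw [Fintype.card_piFinset]
      push_cast
      rfl
    rw [h4, hpi, h5]
    rw [hcU, ← hcc'] at h2
    rw [← hR] at h3
    obtain ⟨n, hn⟩ : ∃ n : ℝ, n = (((Fintype.piFinset C').filter fun p =>
          Q fun e => qa (p e.1.1) (p e.1.2)).card : ℝ) := ⟨_, rfl⟩
    obtain ⟨q, hq⟩ : ∃ q : ℝ, q = ((univ.filter Q).card : ℝ) / 2 ^ (prs ι).card := ⟨_, rfl⟩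
    obtain ⟨P, hP⟩ : ∃ P : ℝ, P = ∏ j, ((C' j).card : ℝ) := ⟨_, rfl⟩
    have hP0 : 0 ≤ P := by
      rw [hP]
      exact Finset.prod_nonneg fun j _ => by positivity
    have h2' : |q - c2| ≤ cc := by
      rw [hq, hQ]
      exact h2
    rw [← hn, ← hq, ← hP] at h3
    rw [← hn, ← hP]
    have h6 : |n - c2 * P| ≤ |n - q * P| + |q - c2| * P := by
      have h7 : n - c2 * P = (n - q * P) + (q - c2) * P := by ring
      have h8 : |(q - c2) * P| = |q - c2| * P := by rw [abs_mul, abs_of_nonneg hP0]
      rw [h7, ← h8]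
      exact abs_add_le _ _
    have h7 : |q - c2| * P ≤ cc * P := mul_le_mul_of_nonneg_right h2' hP0
    linarith
  -- sum over the labels
  obtain ⟨LL, hLL⟩ : ∃ LL : Finset (ι → Option S₀ → ZMod 2), LL = univ.filter (fun β => LNC β) :=
    ⟨_, rfl⟩
  have hfib : ∀ T : (ι → ZI) → Prop,
      (((Fintype.piFinset C).filter fun p => NdC c S₀ (univ.image p) ∧ T p).card : ℝ) =
      ∑ β ∈ LL, (((Fintype.piFinset C).filter fun p =>
        (fun i => lbC c S₀ (p i)) = β ∧ T p).card : ℝ) := by
    intro T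
    rw [Finset.card_eq_sum_card_fiberwise (f := fun (p : ι → ZI) (i : ι) => lbC c S₀ (p i))
      (t := LL) (by
        intro p hp
        rw [Finset.mem_coe, Finset.mem_filter] at hp
        rw [Finset.mem_coe, hLL, Finset.mem_filter]
        exact ⟨Finset.mem_univ _, nd_iffC.1 hp.2.1⟩)]
    push_cast
    refine Finset.sum_congr rfl fun β hβ => ?_
    rw [hLL, Finset.mem_filter] at hβ
    congr 2
    ext p
    simp only [Finset.mem_filter]
    constructor
    · rintro ⟨⟨h3, h4, h4'⟩, h5⟩
      exact ⟨h3, h5, h4'⟩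
    · rintro ⟨h3, h4, h5⟩
      refine ⟨⟨h3, ?_, h5⟩, h4⟩
      rw [nd_iffC, h4]
      exact hβ.2
  have hf1 := hfib fun p => GdC c (S₀ ∪ univ.image p)
  have hf2 := hfib fun _ => True
  simp only [and_true] at hf2
  rw [← hcc, hf1, hf2, Finset.mul_sum, ← Finset.sum_sub_distrib]
  refine (Finset.abs_sum_le_sum_abs _ _).trans ?_
  refine (Finset.sum_le_sum fun β hβ => h1 β (by
    rw [hLL] at hβ
    exact (Finset.mem_filter.1 hβ).2)).trans ?_
  rw [Finset.sum_add_distrib, ← Finset.mul_sum, Finset.sum_const, nsmul_eq_mul]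
  have h5 : ((LL.card : ℕ) : ℝ) ≤ 2 ^ ((S₀.card + 1) * Fintype.card ι) := by
    have h6 : LL.card ≤ Fintype.card (ι → Option S₀ → ZMod 2) :=
      Finset.card_le_univ _
    rw [Fintype.card_fun, Fintype.card_fun, ZMod.card, hcU, ← pow_mul] at h6
    exact_mod_cast h6
  have h6 := mul_le_mul_of_nonneg_right h5 hR0
  rw [pow_add, mul_assoc, ← hR]
  linarith

end Run7.h26.QI
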