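import Pool.Agent.Run7.h691.GZ.Fin
import Pool.Agent.Run7.h26.QI.Ct4

/-!
Counting with one further vertex: the asymptotics (after `GZ/Asy` and `GZ/NS` of helper691).
-/

set_option autoImplicit false
set_option linter.unusedVariables false

open scoped Classical
open Finset Filter

namespace Run7.h26.QI

open H385 (ZI nrm im1)
open Pool.Agent.Y699 (PP QB)
open Pool.Agent.Y703.CX (jj XX eL zz kk eL_tendsto logX_eq rpow_eL HH NN ev_eL one_le_exp
  HH_ge HH_le HH_pos kk_ge kk_le X_pos one_add_log lin_le zz_ge zz_pos)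
open Pool.Agent.Y703.CQ (Sml sml_of sml_add S_C2 c2)
open Pool.Agent.H691.GZ
open Pool.Agent.H691.GZ.AS

/-- the sets outside the regular part -/
theorem out_subN (ND : Finset ZI → Finset ZI → Prop) (R : Finset ℕ) (X z H k V : ℕ) :
    SS R X \ ((RR R X z H k V).filter fun S => ND (sm z S) (la z S)) ⊆
      (((((SS R X).filter fun S => k < S.card) ∪
      ((SS R X).filter fun S => S.card ≤ k ∧
        X < (∏ π ∈ sm z S, nrm π) * ∏ π ∈ la z S, XX H (bl H π))) ∪
      ((SS R X).filter fun S => ¬ Set.InjOn (bl H) (la z S : Set ZI))) ∪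
      ((SS R X).filter fun S => S.card ≤ k ∧ (la z S).card ≤ (sm z S).card + V)) ∪
      ((SS R X).filter fun S => S.card ≤ k ∧ ¬ ND (sm z S) (la z S)) := by
  intro S hS
  rw [Finset.mem_sdiff, Finset.mem_filter] at hS
  obtain ⟨h1, h2⟩ := hS
  simp only [mem_union, mem_filter]
  by_contra hc
  push Not at hc
  obtain ⟨⟨⟨⟨c1, c2⟩, c3⟩, c4⟩, c5⟩ := hc
  have d1 : S.card ≤ k := c1 h1
  have d2 := c2 h1 d1
  have d3 := c3 h1
  have d4 := c4 h1 d1
  have d5 := c5 h1 d1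
  apply h2
  refine ⟨?_, d5⟩
  unfold RR
  rw [mem_filter]
  exact ⟨h1, d3, d1, d2, d4⟩

theorem t_DQN {ND : Finset ZI → Finset ZI → Prop} {Gd : Finset ZI → Prop} (hK : KEN ND Gd c2 4)
    (hC : S_CNT) (hB : ∀ (R : Finset ℕ) (ε : ℝ), 0 < ε → ∃ X₀ : ℕ, ∀ X : ℕ, X₀ ≤ X →
      (((SS R X).filter fun S => S.card ≤ kk X ∧ ¬ ND (sm (zz X) S) (la (zz X) S)).card : ℝ) ≤ ε * X)
    (hF : S_FEW) (hc2 : S_C2) (R : Finset ℕ) (hLo : S_LOW R) : Filter.Tendsto
  (fun X : ℕ => (((SS R X).filter Gd).card : ℝ) / ((SS R X).card : ℝ)) Filter.atTop (nhds c2) := by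
  obtain ⟨C, hC1, hkey⟩ := hK
  obtain ⟨D, hD⟩ := hC R
  obtain ⟨c, X₀, hc, hlow⟩ := hLo
  rw [Metric.tendsto_nhds]
  intro ε hε
  obtain ⟨V₁, hV₁⟩ := exists_pow_lt_of_lt_one (show (0 : ℝ) < ε / 12 by linarith)
    (show (1 / 2 : ℝ) < 1 by norm_num)
  obtain ⟨V, hVd⟩ : ∃ V, V = V₁ + 1 := ⟨_, rfl⟩
  have hV1 : 1 ≤ V := by omega
  have hV : (1 / 2 : ℝ) ^ V < ε / 12 := by
    rw [hVd, pow_succ]
    have : (0 : ℝ) < (1 / 2) ^ V₁ := by positivity
    linarith
  have s1 := sml_many hD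
  have s2 := sml_cut hD
  have s3 := sml_coll hD
  have s4 := sml_eps (hF R V)
  have s5 := sml_eps (hB R)
  have s6 := sml_main hC1
  have s := sml_add (sml_add (sml_add (sml_add (sml_add s1 s2) s3) s4) s5) s6
  have hδ : (0 : ℝ) < c * ε / 4 := by positivity
  filter_upwards [s (c * ε / 4) hδ, ev_eL 1, eventually_ge_atTop X₀] with X hX hl hX0
  rw [neg_zero, zero_mul, Real.exp_zero, mul_one] at hX
  have hl0 : 0 < eL X := by linarith
  have hlo := hlow X hX0
  have hXp := X_pos hl0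
  have hXp' : (0 : ℝ) < X := by exact_mod_cast hXp
  have hSpos : (0 : ℝ) < ((SS R X).card : ℝ) := by
    refine lt_of_lt_of_le ?_ hlo
    positivity
  have hN : (HH X : ℝ) * Real.log X < NN X := by
    unfold NN
    push_cast
    exact Nat.lt_floor_add_one _
  have hmain := hkey R X (zz X) (HH X) (kk X) V (NN X) (kap C X) hXp (HH_pos hl0) (zz_pos hl)
    (kap_nonneg hC1 X) (kap_pow hC1 hl) hN hV1
  set T := (RR R X (zz X) (HH X) (kk X) V).filter fun S => ND (sm (zz X) S) (la (zz X) S) with hT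
  have hTG : (RR R X (zz X) (HH X) (kk X) V).filter
      (fun S => ND (sm (zz X) S) (la (zz X) S) ∧ Gd S) = T.filter Gd := by
    rw [hT, filter_filter]
  rw [hTG] at hmain
  have hTS : T ⊆ SS R X := (filter_subset _ _).trans (filter_subset _ _)
  have hRS : ((RR R X (zz X) (HH X) (kk X) V).card : ℝ) ≤ ((SS R X).card : ℝ) := by
    exact_mod_cast card_le_card (filter_subset _ _)
  have hcmp := cmp Gd T (SS R X) hTS c2 hc2.2.1.le hc2.2.2.1.le
  have hout : ((SS R X \ T).card : ℝ) ≤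
      ((((SS R X).filter fun S => kk X < S.card).card : ℝ) +
      (((SS R X).filter fun S => S.card ≤ kk X ∧
        X < (∏ π ∈ sm (zz X) S, nrm π) * ∏ π ∈ la (zz X) S, XX (HH X) (bl (HH X) π)).card : ℝ) +
      (((SS R X).filter fun S => ¬ Set.InjOn (bl (HH X)) (la (zz X) S : Set ZI)).card : ℝ) +
      (((SS R X).filter fun S => S.card ≤ kk X ∧
        (la (zz X) S).card ≤ (sm (zz X) S).card + V).card : ℝ)) +
      (((SS R X).filter fun S => S.card ≤ kk X ∧ ¬ ND (sm (zz X) S) (la (zz X) S)).card : ℝ) := by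
    have g := card_le_card (out_subN ND R X (zz X) (HH X) (kk X) V)
    rw [← hT] at g
    have g2 := (g.trans (card_union_le _ _)).trans (Nat.add_le_add_right ((card_union_le _ _).trans
      (Nat.add_le_add_right ((card_union_le _ _).trans
      (Nat.add_le_add_right (card_union_le _ _) _)) _)) _)
    exact_mod_cast g2
  have htot : |(((SS R X).filter Gd).card : ℝ) - c2 * ((SS R X).card : ℝ)| ≤
      4 * (1 / 2 : ℝ) ^ V * ((SS R X).card : ℝ) + c * ε / 4 * X := by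
    have g1 : 4 * (1 / 2 : ℝ) ^ V * ((RR R X (zz X) (HH X) (kk X) V).card : ℝ) ≤
        4 * (1 / 2 : ℝ) ^ V * ((SS R X).card : ℝ) := mul_le_mul_of_nonneg_left hRS (by positivity)
    linarith
  rw [Real.dist_eq]
  have e3 : (((SS R X).filter Gd).card : ℝ) / ((SS R X).card : ℝ) - c2 =
      ((((SS R X).filter Gd).card : ℝ) - c2 * ((SS R X).card : ℝ)) /
        ((SS R X).card : ℝ) := by
    field_simp
  rw [e3, abs_div, abs_of_pos hSpos, div_lt_iff₀ hSpos]
  refine lt_of_le_of_lt htot ?_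
  have g2 : c * ε / 4 * X ≤ ε / 4 * ((SS R X).card : ℝ) := by
    calc c * ε / 4 * X = ε / 4 * (c * X) := by ring
      _ ≤ _ := mul_le_mul_of_nonneg_left hlo (by linarith)
  have g3 : 4 * (1 / 2 : ℝ) ^ V * ((SS R X).card : ℝ) ≤ 4 * (ε / 12) * ((SS R X).card : ℝ) := by
    gcongr
  have g4 : 0 < ε * ((SS R X).card : ℝ) := by positivity
  linarith


/-- **the proportion of the good sets** -/
theorem dens_set {c : ZI} (hc : cc3 c) (R : Finset ℕ) (hLo : S_LOW R) : Filter.Tendsto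
    (fun X : ℕ => (((SS R X).filter (GdC c)).card : ℝ) / ((SS R X).card : ℝ)) Filter.atTop (nhds c2) := by
  obtain ⟨ep, he⟩ := exists_Ec hc
  exact t_DQN (t_KEN t_BIL (t_BXC c EQ.t_EQ (LA.t_LA Pool.Agent.Y839.CQ.t_SYM Pool.Agent.Y948.CQ.t_C2))
    (by norm_num)) CNT.t_CNT (bad_C he) BF.t_FEW Pool.Agent.Y948.CQ.t_C2 R hLo

end Run7.h26.QI
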