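import Pool.Agent.Run7.h26.QI.Ct5
import Pool.Agent.Run7.h691.GZ.Sq4
import Pool.Agent.Run7.h26.QI.Cr

/-!
Counting with one further vertex: the elements (after `GZ/NS` of helper691).
-/

set_option autoImplicit false
set_option linter.unusedVariables false

open scoped Classical

namespace Run7.h26.QI

open Finset
open H385 (ZI nrm im1)
open Pool.Agent.Y699 hiding kk f1 f2 LE f1_hasProd f2_hasProd sg qr_prod
open Pool.Agent.H304R2.EC.A1 (prim prim_mul prim_cancel prim_one prim_ne_zero)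
open Pool.Agent.Y703.CQ (c2)
open Pool.Agent.H691.GZ
open Pool.Agent.H691.GZ.NS (qr_prod card_eq card_cls cls_iff)

theorem qrc {c : ZI} (hc : cc3 c) {S B : Finset ZI} (hS : ∀ π ∈ S, PP π) (hB : B ⊆ S) {π : ZI} (hπ : π ∈ S)
    (hn : π ∉ B) : qr π (c * ∏ ρ ∈ B, ρ) = 1 ↔ ∑ ρ ∈ B, qa π ρ + qa π c = 0 := by
  have hP := hS π hπ
  have h1 := qr_prod hS hB hπ hn
  have hnd : ¬ π ∣ ∏ ρ ∈ B, ρ := by
    intro h
    obtain ⟨ρ, hρ, hd⟩ := (hP.pr.dvd_finsetProd_iff _).1 h
    have := hP.eq_of_dvd (hS ρ (hB hρ)) hd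
    exact hn (this ▸ hρ)
  have h01 : ∀ a : ZMod 2, a + 1 = 0 ↔ ¬ a = 0 := by decide
  rw [qr_mul hP]
  rcases qr_cases (not_dvd_cc3 hc hP) with h2 | h2
  · have h3 : qa π c = 0 := by unfold qa; rw [h2]; norm_num
    rw [h2, one_mul, h3, add_zero]
    exact h1
  · have h3 : qa π c = 1 := by unfold qa; rw [h2, if_pos rfl]
    rw [h2, h3, h01, ← h1]
    rcases qr_cases hnd with h4 | h4 <;> rw [h4] <;> norm_num

theorem gdC_of_ker {c D : ZI} (hc : cc3 c) (h : GoodC c D) : GdC c (PD D) := by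
  have hD := h.ps
  intro v hv
  have hS : ∀ π ∈ PD D, PP π := fun π hπ => ((mem_PD hD.ne).1 hπ).1
  obtain ⟨A, hA⟩ : ∃ A, A = (PD D).filter fun π => v π = 0 := ⟨_, rfl⟩
  obtain ⟨B, hB⟩ : ∃ B, B = (PD D).filter fun π => ¬ v π = 0 := ⟨_, rfl⟩
  have hAS : A ⊆ PD D := by rw [hA]; exact filter_subset _ _
  have hBS : B ⊆ PD D := by rw [hB]; exact filter_subset _ _
  obtain ⟨a1, a2⟩ := PS_prod (S := A) fun π hπ => hS π (hAS hπ)
  obtain ⟨b1, b2⟩ := PS_prod (S := B) fun π hπ => hS π (hBS hπ)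
  have hprod : D = (∏ π ∈ B, π) * ∏ π ∈ A, π := by
    rw [hA, hB, mul_comm, prod_filter_mul_prod_filter_not]
    exact hD.prod.symm
  have hv1 : ∀ x : ZMod 2, x ≠ 0 → x = 1 := by decide
  have key : ∀ π ∈ PD D, ∑ ρ ∈ PD D, qa π ρ * (v ρ - v π) =
      if v π = 0 then ∑ ρ ∈ B, qa π ρ else ∑ ρ ∈ A, qa π ρ := by
    intro π hπ
    rw [← sum_filter_add_sum_filter_not (PD D) (fun ρ => v ρ = 0), ← hA, ← hB]
    have e1 : ∀ ρ ∈ A, v ρ = 0 := fun ρ hρ => by rw [hA, mem_filter] at hρ; exact hρ.2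
    have e2 : ∀ ρ ∈ B, v ρ = 1 := fun ρ hρ => by rw [hB, mem_filter] at hρ; exact hv1 _ hρ.2
    split_ifs with h0
    · rw [sum_congr rfl fun ρ hρ => by rw [e1 ρ hρ, h0, sub_self, mul_zero],
        sum_congr (s₁ := B) rfl fun ρ hρ => by rw [e2 ρ hρ, h0, sub_zero, mul_one], sum_const_zero,
        zero_add]
    · have h1 := hv1 _ h0
      rw [sum_congr rfl fun ρ hρ => by rw [e1 ρ hρ, h1, zero_sub],
        sum_congr (s₁ := B) rfl fun ρ hρ => by rw [e2 ρ hρ, h1, sub_self, mul_zero], sum_const_zero,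
        add_zero]
      refine sum_congr rfl fun ρ _ => ?_
      have : (-1 : ZMod 2) = 1 := by decide
      rw [this, mul_one]
  have h1 := h.ker _ _ b1.prm a1.prm hprod (fun π hπ => by
      rw [b2] at hπ
      rw [hB, mem_filter] at hπ
      refine (qrc hc hS hAS hπ.1 ?_).2 ?_
      · rw [hA, mem_filter]
        exact fun h => hπ.2 h.2
      · have h2 := hv π hπ.1
        rw [key π hπ.1, if_neg hπ.2, hv1 _ hπ.2, mul_one] at h2
        exact h2)
    (fun π hπ => by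
      rw [a2] at hπ
      rw [hA, mem_filter] at hπ
      refine (qr_prod hS hBS hπ.1 ?_).2 ?_
      · rw [hB, mem_filter]
        exact fun h => h.2 hπ.2
      · have h2 := hv π hπ.1
        rw [key π hπ.1, if_pos hπ.2, hπ.2, mul_zero, add_zero] at h2
        exact h2)
  have hBe : B = ∅ := by rw [← b2, h1, PD_one]
  intro π hπ
  by_contra h3
  have : π ∈ B := by rw [hB, mem_filter]; exact ⟨hπ, h3⟩
  rw [hBe] at this
  exact absurd this (notMem_empty _)

theorem kerC_of_gd {c D : ZI} (hc : cc3 c) (hD : PS D) (hg : GdC c (PD D)) : GoodC c D := by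
  refine ⟨hD, ?_⟩
  intro d d' hd hd' he h1 h2
  have hS : ∀ π ∈ PD D, PP π := fun π hπ => ((mem_PD hD.ne).1 hπ).1
  have pd : PS d := hD.of_dvd hd ⟨d', he⟩
  have pd' : PS d' := hD.of_dvd hd' ⟨d, by rw [he, mul_comm]⟩
  have hun : PD D = PD d ∪ PD d' := by rw [he, PD_mul pd.ne pd'.ne]
  have hdis : Disjoint (PD d) (PD d') := by
    rw [disjoint_left]
    intro π hπ hπ'
    have k1 := ((mem_PD pd.ne).1 hπ)
    have k2 := ((mem_PD pd'.ne).1 hπ')
    have k3 : π * π ∣ D := by rw [he]; exact mul_dvd_mul k1.2 k2.2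
    exact k1.1.pr.not_isUnit (hD.sqf π k3)
  have hsub : PD d ⊆ PD D := by rw [hun]; exact subset_union_left
  have hsub' : PD d' ⊆ PD D := by rw [hun]; exact subset_union_right
  obtain ⟨v, hv⟩ : ∃ v : ZI → ZMod 2, ∀ π, v π = if π ∈ PD d then 1 else 0 := ⟨_, fun _ => rfl⟩
  have e1 : ∀ π ∈ PD d, v π = 1 := fun π hπ => by rw [hv, if_pos hπ]
  have e2 : ∀ π ∈ PD d', v π = 0 := fun π hπ => by
    rw [hv, if_neg (disjoint_right.1 hdis hπ)]
  have hsol : SolC c (PD D) v := by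
    intro π hπ
    have hsum : ∑ ρ ∈ PD D, qa π ρ * (v ρ - v π) =
        ∑ ρ ∈ PD d, qa π ρ * (1 - v π) + ∑ ρ ∈ PD d', qa π ρ * (0 - v π) := by
      rw [hun, sum_union hdis]
      congr 1
      · exact sum_congr rfl fun ρ hρ => by rw [e1 ρ hρ]
      · exact sum_congr rfl fun ρ hρ => by rw [e2 ρ hρ]
    rw [hsum]
    rw [hun, mem_union] at hπ
    rcases hπ with hπ | hπ
    · rw [e1 π hπ]
      have h3 := (qrc hc hS hsub' (hsub hπ) (disjoint_left.1 hdis hπ)).1 (by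
        rw [pd'.prod]; exact h1 π hπ)
      have : (0 - 1 : ZMod 2) = 1 := by decide
      simp only [sub_self, mul_zero, sum_const_zero, zero_add, this, mul_one]
      exact h3
    · rw [e2 π hπ]
      have h3 := (qr_prod hS hsub (hsub' hπ) (disjoint_right.1 hdis hπ)).1 (by
        rw [pd.prod]; exact h2 π hπ)
      simp only [sub_self, mul_zero, sum_const_zero, add_zero, sub_zero, mul_one]
      exact h3
  have hz := hg v hsol
  have hde : PD d = ∅ := by
    rw [eq_empty_iff_forall_notMem]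
    intro ρ hρ
    have := hz ρ (hsub hρ)
    rw [e1 ρ hρ] at this
    exact absurd this (by decide)
  rw [← pd.prod, hde, prod_empty]

theorem card_goodC {c : ZI} (hc : cc3 c) (R : Finset ℕ) (X : ℕ) :
    {D : ZI | nrm D ≤ X ∧ ClsE R D ∧ GoodC c D}.ncard = ((SS R X).filter (GdC c)).card := by
  rw [← card_eq R X (GdC c)]
  congr 1
  ext D
  constructor
  · rintro ⟨h1, h2, h3⟩
    exact ⟨h1, h2, gdC_of_ker hc h3⟩
  · rintro ⟨h1, h2, h3⟩
    exact ⟨h1, h2, kerC_of_gd hc h2.ps h3⟩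

/-- **the proportion of the good elements in a class** -/
theorem dens_R {c : ZI} (hc : cc3 c) (R : Finset ℕ) (hR : S_LOW R) : Filter.Tendsto
    (fun X : ℕ => ({D : ZI | nrm D ≤ X ∧ ClsE R D ∧ GoodC c D}.ncard : ℝ) /
      ({D : ZI | nrm D ≤ X ∧ ClsE R D}.ncard : ℝ)) Filter.atTop (nhds c2) := by
  refine (dens_set hc R hR).congr fun X => ?_
  rw [card_cls, card_goodC hc]

/-- all the classes of norms -/
def RA : Finset ℕ := {1, 5, 9, 13}

theorem clsA_iff (D : ZI) : ClsE RA D ↔ PS D := by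
  constructor
  · exact fun h => h.ps
  · intro h
    refine ⟨h, ?_⟩
    have h1 := SQ.prim_mod4 h.prm
    unfold RA
    simp only [mem_insert, mem_singleton]
    omega

theorem SS_mono {R R' : Finset ℕ} (h : R ⊆ R') (X : ℕ) : SS R X ⊆ SS R' X := by
  intro S hS
  unfold SS at hS ⊢
  rw [mem_filter] at hS ⊢
  exact ⟨hS.1, ⟨hS.2.1.1, h hS.2.1.2⟩, hS.2.2⟩

theorem lowA : S_LOW RA := by
  obtain ⟨c, X₀, hc, h⟩ := low5
  refine ⟨c, X₀, hc, fun X hX => (h X hX).trans ?_⟩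
  exact_mod_cast card_le_card (SS_mono (by decide) X)

/-- the number of the squarefree primary elements -/
noncomputable def sA (X : ℕ) : ℕ := {D : ZI | nrm D ≤ X ∧ PS D}.ncard

/-- the number of the good ones -/
noncomputable def bC (c : ZI) (X : ℕ) : ℕ := {D : ZI | nrm D ≤ X ∧ GoodC c D}.ncard

theorem sA_eq (X : ℕ) : sA X = (SS RA X).card := by
  rw [← card_cls]
  unfold sA
  congr 1
  ext D
  exact and_congr_right fun _ => (clsA_iff D).symm

/-- **the proportion of the good elements** -/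
theorem dens_C {c : ZI} (hc : cc3 c) : Filter.Tendsto (fun X : ℕ => (bC c X : ℝ) / (sA X : ℝ))
    Filter.atTop (nhds c2) := by
  refine (dens_R hc RA lowA).congr fun X => ?_
  rw [sA_eq, card_cls]
  congr 2
  unfold bC
  congr 1
  ext D
  constructor
  · rintro ⟨h1, h2, h3⟩
    exact ⟨h1, h3⟩
  · rintro ⟨h1, h3⟩
    exact ⟨h1, (clsA_iff D).2 h3.ps, h3⟩

end Run7.h26.QI
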