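import Pool.Agent.Run7.h26.QI.Ct6

/-!
The share of the good elements among all the squarefree Gaussian integers.
-/

set_option autoImplicit false
set_option linter.unusedVariables false

open scoped Classical

namespace Run7.h26.QI

open Finset Filter
open H385 (ZI nrm im1)
open Pool.Agent.Y699 hiding kk f1 f2 LE f1_hasProd f2_hasProd sg qr_prod
open Pool.Agent.W164.RC (two2 prim_iff_dvd unit_norm unit_cases)
open Pool.Agent.H304R2.EC.A1 (prim prim_mul prim_cancel prim_one prim_ne_zero prim_norm_odd eq_one_of_prim)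
open Pool.Agent.Y703.CQ (c2)
open Pool.Agent.H691.GZ
open Pool.Agent.H691.GZ.SQ (Per res res_eq count_sq MM MM_half TT AR FR FR_card per_AR AR_odd res5 err_small
  le_sqr prim_tt Od)

theorem per_prim : Per 4 prim := by
  intro x y h
  obtain ⟨c, hc⟩ := h
  have h1 : x.re = y.re + 4 * c.re := by
    have := congrArg Zsqrtd.re hc
    simp at this
    linarith
  have h2 : x.im = y.im + 4 * c.im := by
    have := congrArg Zsqrtd.im hc
    simp at this
    linarith
  unfold prim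
  rw [h1, h2]
  constructor
  · rintro ⟨h6, h7⟩
    constructor <;> omega
  · rintro ⟨h6, h7⟩
    constructor <;> omega

theorem res_prim (t : ZI) (ht : prim t) : res 4 (fun x => prim (t * t * x)) = 2 := by
  rw [res_eq (fun x y => decide (y % 2 = 0 ∧ (x + y) % 4 = 1))
    (fun x y => by
      rw [prim_tt ht, decide_eq_true_iff]
      exact Iff.rfl)]
  decide

/-- the error term -/
noncomputable def Er (X : ℕ) : ℝ := 36 * Real.sqrt X * lg (Nat.sqrt X + 1) + 9 * ((Nat.sqrt X + 1 : ℕ) : ℝ)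

theorem Er_nonneg (X : ℕ) : 0 ≤ Er X := by
  unfold Er
  have := lg_pos (Nat.sqrt X + 1)
  positivity

theorem sA_filter (X : ℕ) : sA X = ((ZB X).filter fun D => prim D ∧ Squarefree D).card := by
  unfold sA
  rw [← Set.ncard_coe_finset]
  congr 1
  ext D
  rw [Set.mem_setOf_eq, mem_coe, mem_filter, mem_ZB]
  exact and_congr_right fun _ => ⟨fun h => ⟨h.prm, h.sqf⟩, fun h => ⟨h.1, h.2⟩⟩

theorem sA_MM {V X : ℕ} (hV : V ≤ X) : |(sA V : ℝ) - 1 / 8 * MM V (Nat.sqrt X + 1)| ≤ 12 * Er X := by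
  have h := count_sq (m := 4) (by norm_num) per_prim (fun x h => prim_norm_odd h) res_prim
    (hV.trans (le_sqr X)) (by omega : 1 ≤ Nat.sqrt X + 1)
  rw [← sA_filter] at h
  have e : ((2 : ℕ) : ℝ) / ((4 : ℕ) : ℝ) ^ 2 = 1 / 8 := by norm_num
  rw [e] at h
  refine h.trans ?_
  unfold Er
  have h5 : Real.sqrt (V : ℝ) ≤ Real.sqrt X := by
    apply Real.sqrt_le_sqrt
    exact_mod_cast hV
  have h6 : Real.sqrt (V : ℝ) * lg (Nat.sqrt X + 1) ≤ Real.sqrt X * lg (Nat.sqrt X + 1) :=
    mul_le_mul_of_nonneg_right h5 (lg_pos _).le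
  push_cast
  nlinarith

theorem s5_MM (X : ℕ) : |(((SS {5, 13} X).card : ℕ) : ℝ) - 1 / 16 * MM X (Nat.sqrt X + 1)| ≤ 24 * Er X := by
  have h := count_sq (m := 8) (by norm_num) (per_AR {5, 13}) (AR_odd {5, 13}) res5 (le_sqr X)
    (by omega : 1 ≤ Nat.sqrt X + 1)
  have e : ((4 : ℕ) : ℝ) / ((8 : ℕ) : ℝ) ^ 2 = 1 / 16 := by norm_num
  rw [e] at h
  rw [← FR_card]
  refine h.trans (le_of_eq ?_)
  unfold Er
  push_cast
  ring

theorem half_s5 (X : ℕ) : |((SS {5, 13} X).card : ℝ) - 1 / 2 * (sA X : ℝ)| ≤ 30 * Er X := by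
  have h1 := s5_MM X
  have h2 := sA_MM (le_refl X)
  rw [abs_le] at h1 h2 ⊢
  constructor <;> linarith [h1.1, h1.2, h2.1, h2.2]

theorem half_sA (X : ℕ) : |(sA (X / 2) : ℝ) - 1 / 2 * (sA X : ℝ)| ≤ 30 * Er X := by
  have h1 := sA_MM (Nat.div_le_self X 2)
  have h2 := sA_MM (le_refl X)
  have h3 := MM_half (X := X) (by omega : 1 ≤ Nat.sqrt X + 1)
  have e : (6 : ℝ) * (36 * Real.sqrt X * lg (Nat.sqrt X + 1) + 9 * ((Nat.sqrt X + 1 : ℕ) : ℝ)) = 6 * Er X := rfl
  rw [e] at h3
  have h0 := Er_nonneg X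
  rw [abs_le] at h1 h2 h3 ⊢
  constructor <;> linarith [h1.1, h1.2, h2.1, h2.2, h3.1, h3.2]

theorem sA_low : ∃ (c : ℝ) (X₀ : ℕ), 0 < c ∧ ∀ X : ℕ, X₀ ≤ X → c * X ≤ (sA X : ℝ) := by
  obtain ⟨c, X₀, hc, h⟩ := lowA
  exact ⟨c, X₀, hc, fun X hX => by rw [sA_eq]; exact h X hX⟩

theorem ratio_lim {f : ℕ → ℝ} {a C : ℝ} (hC : 0 ≤ C) (h : ∀ X, |f X - a * (sA X : ℝ)| ≤ C * Er X) :
    Tendsto (fun X : ℕ => f X / (sA X : ℝ)) atTop (nhds a) := by
  obtain ⟨c, X₁, hc, hlo⟩ := sA_low
  rw [Metric.tendsto_atTop]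
  intro ε hε
  obtain ⟨X₂, hX₂⟩ := err_small (ε * c / (2 * (C + 1))) (by positivity)
  refine ⟨max (max X₁ X₂) 1, fun X hX => ?_⟩
  have k1 : X₁ ≤ X := (le_max_left _ _).trans ((le_max_left _ _).trans hX)
  have k2 : X₂ ≤ X := (le_max_right _ _).trans ((le_max_left _ _).trans hX)
  have k3 : 1 ≤ X := (le_max_right _ _).trans hX
  have hXr : (0 : ℝ) < X := by exact_mod_cast k3
  have l1 := hlo X k1
  have l2 : Er X ≤ ε * c / (2 * (C + 1)) * X := hX₂ X k2
  have hs : (0 : ℝ) < (sA X : ℝ) := lt_of_lt_of_le (by positivity) l1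
  rw [Real.dist_eq]
  have e : f X / (sA X : ℝ) - a = (f X - a * (sA X : ℝ)) / (sA X : ℝ) := by
    field_simp
  rw [e, abs_div, abs_of_pos hs, div_lt_iff₀ hs]
  have l3 : C * Er X ≤ ε / 2 * (c * X) := by
    have h0 := Er_nonneg X
    calc C * Er X ≤ (C + 1) * Er X := by nlinarith
      _ ≤ (C + 1) * (ε * c / (2 * (C + 1)) * X) := mul_le_mul_of_nonneg_left l2 (by linarith)
      _ = ε / 2 * (c * X) := by field_simp
  have l4 : ε / 2 * (c * X) ≤ ε / 2 * (sA X : ℝ) := mul_le_mul_of_nonneg_left l1 (by linarith)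
  have l5 := h X
  nlinarith

theorem lim_s5 : Tendsto (fun X : ℕ => ((SS {5, 13} X).card : ℝ) / (sA X : ℝ)) atTop (nhds (1 / 2)) :=
  ratio_lim (by norm_num) half_s5

theorem lim_half : Tendsto (fun X : ℕ => (sA (X / 2) : ℝ) / (sA X : ℝ)) atTop (nhds (1 / 2)) :=
  ratio_lim (by norm_num) half_sA

theorem sA_pos : ∀ᶠ X : ℕ in atTop, (0 : ℝ) < sA X := by
  obtain ⟨c, X₁, hc, hlo⟩ := sA_low
  filter_upwards [eventually_ge_atTop X₁, eventually_ge_atTop 1] with X h1 h2
  have hXr : (0 : ℝ) < X := by exact_mod_cast h2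
  exact lt_of_lt_of_le (by positivity) (hlo X h1)

theorem half_tendsto : Tendsto (fun X : ℕ => X / 2) atTop atTop := by
  rw [tendsto_atTop_atTop]
  intro b
  exact ⟨2 * b, fun a ha => by omega⟩

/-- the good elements of norm at most `X / 2` -/
theorem lim_bC_half {c : ZI} (hc : cc3 c) :
    Tendsto (fun X : ℕ => (bC c (X / 2) : ℝ) / (sA X : ℝ)) atTop (nhds (c2 / 2)) := by
  have h1 := ((dens_C hc).comp half_tendsto).mul lim_half
  have e : c2 * (1 / 2) = c2 / 2 := by ring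
  rw [e] at h1
  refine h1.congr' ?_
  have h2 := half_tendsto.eventually sA_pos
  filter_upwards [h2] with X h3
  simp only [Function.comp]
  rw [div_mul_div_comm, mul_comm (sA (X / 2) : ℝ) (sA X : ℝ), mul_div_mul_right _ _ h3.ne']

/-! ### all the squarefree elements -/

/-- the number of elements of norm at most `X` with the property `Q` -/
noncomputable def nQ (Q : ZI → Prop) (X : ℕ) : ℕ := {g : ZI | nrm g ≤ X ∧ Q g}.ncard

theorem fin_Q (Q : ZI → Prop) (X : ℕ) : {g : ZI | nrm g ≤ X ∧ Q g}.Finite :=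
  (fin_norm_le X).subset fun _ h => h.1

theorem nrm_unit_mul {u : ZI} (hu : u.norm = 1) (g : ZI) : nrm (u * g) = nrm g := by
  unfold nrm
  rw [Zsqrtd.norm_mul, hu, one_mul]

theorem uniq {u u' D D' : ZI} (hu : u.norm = 1) (hu' : u'.norm = 1) (hD : prim D) (hD' : prim D')
    (h : u * D = u' * D') : u = u' ∧ D = D' := by
  have h1 := unit_mul_star hu
  have h2 : D = D' * (star u * u') := by
    have h3 : star u * (u * D) = D := by
      rw [← mul_assoc, mul_comm (star u), h1, one_mul]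
    rw [← h3, h]; ring
  have h3 : prim (star u * u') := prim_cancel hD' (by rw [← h2]; exact hD)
  have h4 : (star u * u').norm = 1 := by
    rw [Zsqrtd.norm_mul, hu', mul_one, Zsqrtd.norm_conj, hu]
  have h5 := eq_one_of_prim h3 h4
  constructor
  · have : u * (star u * u') = u := by rw [h5, mul_one]
    rw [← mul_assoc, h1, one_mul] at this
    exact this.symm
  · rw [h2, h5, mul_one]

/-- the units -/
def UU : Finset ZI := {1, -1, im1, -im1}

theorem mem_UU {u : ZI} : u ∈ UU ↔ u.norm = 1 := by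
  constructor
  · intro h
    unfold UU at h
    simp only [mem_insert, mem_singleton] at h
    rcases h with h | h | h | h <;> rw [h] <;> decide
  · intro h
    unfold UU
    simp only [mem_insert, mem_singleton]
    rcases unit_cases h with h | h | h | h
    · left; exact h
    · right; right; left; exact h
    · right; left; rw [h, im1_sq]
    · right; right; right; rw [h]; decide

/-- the odd elements -/
theorem nQ_odd {Q : ZI → Prop} (hQ : ∀ g, Q g → ¬ pi1 ∣ g) (X : ℕ) :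
    nQ Q X = ∑ u ∈ UU, nQ (fun D => prim D ∧ Q (u * D)) X := by
  have h1 : nQ Q X = ((fin_Q Q X).toFinset).card := by
    unfold nQ
    rw [Set.ncard_eq_toFinset_card _ (fin_Q Q X)]
  have h2 : (fin_Q Q X).toFinset = UU.biUnion fun u =>
      ((fin_Q (fun D => prim D ∧ Q (u * D)) X).toFinset).image fun D => u * D := by
    ext g
    rw [Set.Finite.mem_toFinset, mem_biUnion]
    constructor
    · rintro ⟨h3, h4⟩
      obtain ⟨u, hu1, hu2⟩ := exists_Um ((norm_odd_iff g).2 (hQ g h4))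
      have hs := unit_mul_star hu1
      have hus : (star u).norm = 1 := by rw [Zsqrtd.norm_conj, hu1]
      refine ⟨star u, mem_UU.2 hus, ?_⟩
      rw [mem_image]
      have he : star u * (u * g) = g := by rw [← mul_assoc, mul_comm (star u), hs, one_mul]
      refine ⟨u * g, ?_, he⟩
      rw [Set.Finite.mem_toFinset, Set.mem_setOf_eq, he]
      exact ⟨by rw [nrm_unit_mul hu1]; exact h3, hu2, h4⟩
    · rintro ⟨u, hu, h3⟩
      rw [mem_image] at h3
      obtain ⟨D, hD, rfl⟩ := h3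
      rw [Set.Finite.mem_toFinset] at hD
      exact ⟨by rw [nrm_unit_mul (mem_UU.1 hu)]; exact hD.1, hD.2.2⟩
  rw [h1, h2, card_biUnion]
  · refine sum_congr rfl fun u hu => ?_
    rw [card_image_of_injective]
    · unfold nQ
      rw [Set.ncard_eq_toFinset_card _ (fin_Q _ X)]
    · intro a b hab
      have hu0 : u ≠ 0 := by
        rintro rfl
        have := mem_UU.1 hu
        simp at this
      exact mul_left_cancel₀ hu0 hab
  · intro u hu u' hu' hne
    rw [mem_coe] at hu hu'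
    rw [Function.onFun, disjoint_left]
    intro g h3 h4
    rw [mem_image] at h3 h4
    obtain ⟨D, hD, rfl⟩ := h3
    obtain ⟨D', hD', h5⟩ := h4
    rw [Set.Finite.mem_toFinset] at hD hD'
    exact hne (uniq (mem_UU.1 hu) (mem_UU.1 hu') hD.2.1 hD'.2.1 h5.symm).1

/-- the splitting by the parity -/
theorem nQ_split (Q : ZI → Prop) (X : ℕ) :
    nQ Q X = nQ (fun g => Q g ∧ ¬ pi1 ∣ g) X + nQ (fun g => Q (pi1 * g)) (X / 2) := by
  have e0 : nQ (fun g => Q (pi1 * g)) (X / 2) = ((fun g => pi1 * g) '' {g : ZI | nrm g ≤ X / 2 ∧ Q (pi1 * g)}).ncard := by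
    unfold nQ
    rw [Set.ncard_image_of_injective]
    intro a b hab
    exact mul_left_cancel₀ pi1_prime.ne_zero hab
  rw [e0]
  unfold nQ
  rw [← Set.ncard_union_eq _ (fin_Q _ X) ((fin_Q _ (X / 2)).image _)]
  · congr 1
    ext g
    rw [Set.mem_union, Set.mem_image]
    constructor
    · rintro ⟨h1, h2⟩
      by_cases h3 : pi1 ∣ g
      · right
        obtain ⟨g', rfl⟩ := h3
        refine ⟨g', ⟨?_, h2⟩, rfl⟩
        rw [nrm_mul] at h1
        have : nrm pi1 = 2 := by decide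
        rw [this] at h1
        omega
      · exact Or.inl ⟨h1, h2, h3⟩
    · rintro (⟨h1, h2, h3⟩ | ⟨g', ⟨h1, h2⟩, rfl⟩)
      · exact ⟨h1, h2⟩
      · refine ⟨?_, h2⟩
        rw [nrm_mul]
        have : nrm pi1 = 2 := by decide
        rw [this]
        omega
  · rw [Set.disjoint_left]
    rintro g ⟨h1, h2, h3⟩ ⟨g', h4, rfl⟩
    exact h3 ⟨g', rfl⟩

/-- the count by classes -/
theorem nQ_classes {Q : ZI → Prop} (hQ : ∀ g, Q g → Squarefree g) (X : ℕ) :
    nQ Q X = ∑ u ∈ UU, nQ (fun D => prim D ∧ Q (u * D)) X +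
      ∑ u ∈ UU, nQ (fun D => prim D ∧ Q (pi1 * (u * D))) (X / 2) := by
  rw [nQ_split, nQ_odd (fun g h => h.2), nQ_odd (Q := fun g => Q (pi1 * g))]
  · congr 1
    refine sum_congr rfl fun u hu => ?_
    unfold nQ
    congr 1
    ext D
    refine and_congr_right fun _ => and_congr_right fun hD => and_iff_left ?_
    intro h
    have h1 := pi1_prim hD
    have hu1 := unit_mul_star (mem_UU.1 hu)
    apply h1
    have : D = star u * (u * D) := by rw [← mul_assoc, mul_comm (star u), hu1, one_mul]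
    rw [this]
    exact h.mul_left _
  · intro g h h2
    obtain ⟨g', rfl⟩ := h2
    exact pi1_prime.not_isUnit (hQ _ h pi1 ⟨g', by ring⟩)

end Run7.h26.QI
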