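import Pool.Agent.Run7.h26.QI.Ct7

/-!
The share of the good elements among all the squarefree Gaussian integers, continued.
-/

set_option autoImplicit false
set_option linter.unusedVariables false

open scoped Classical

namespace Run7.h26.QI

open Finset Filter
open H385 (ZI nrm im1)
open Pool.Agent.Y699 hiding kk f1 f2 LE f1_hasProd f2_hasProd sg qr_prod
open Pool.Agent.W164.RC (two2 prim_iff_dvd unit_norm unit_cases)
open Pool.Agent.H304R2.EC.A1 (prim prim_mul prim_cancel prim_one prim_ne_zero prim_norm_odd eq_one_of_prim)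
open Pool.Agent.Y703.CQ (c2)
open Pool.Agent.H691.GZ

/-- a good element -/
def GoodG (g : ZI) : Prop :=
  (∃ D, (g = D ∨ g = -D) ∧ GoodE {5, 13} D) ∨ ∃ c D, cc3 c ∧ (g = c * D ∨ g = -(c * D)) ∧ GoodC c D

/-- the number of the good elements of norm `5` modulo `8` -/
noncomputable def bE (X : ℕ) : ℕ := {D : ZI | nrm D ≤ X ∧ GoodE {5, 13} D}.ncard

theorem sqf_unit {u D : ZI} (hu : u.norm = 1) : Squarefree (u * D) ↔ Squarefree D := by
  have h1 := unit_mul_star hu
  have hU : IsUnit u := IsUnit.of_mul_eq_one _ h1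
  constructor
  · exact fun h a ha => h a (ha.mul_left u)
  · exact fun h a ha => h a ((hU.dvd_mul_left).1 ha)

theorem sqf_pi {D : ZI} (hD : prim D) : Squarefree (pi1 * D) ↔ Squarefree D := by
  constructor
  · exact fun h a ha => h a (ha.mul_left pi1)
  · intro h
    exact sqf_cD (Or.inr (Or.inl rfl)) ⟨hD, h⟩

theorem GoodG.sqf {g : ZI} (h : GoodG g) : Squarefree g := by
  rcases h with ⟨D, h1, h2⟩ | ⟨c, D, hc, h1, h2⟩
  · rcases h1 with h1 | h1
    · rw [h1]; exact h2.cl.ps.sqf
    · have e : -D = (-1 : ZI) * D := by ring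
      rw [h1, e]
      exact (sqf_unit (by decide)).2 h2.cl.ps.sqf
  · have h3 := sqf_cD hc h2.ps
    rcases h1 with h1 | h1
    · rw [h1]; exact h3
    · have e : -(c * D) = (-1 : ZI) * (c * D) := by ring
      rw [h1, e]
      exact (sqf_unit (by decide)).2 h3

/-- the eight representatives -/
theorem uniq8 {u u' D D' : ZI} (hu : u.norm = 1) (hu' : u'.norm = 1) (hD : prim D) (hD' : prim D') :
    u * D = pi1 * (u' * D') → False := by
  intro h
  have h1 := congrArg (fun z : ZI => z.norm % 2) h
  simp only [Zsqrtd.norm_mul, hu, hu', one_mul] at h1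
  rw [prim_norm_odd hD, show pi1.norm = 2 by decide] at h1
  omega

theorem good_odd1 {D : ZI} (hD : prim D) {u : ZI} (hu : u = 1 ∨ u = -1) :
    GoodG (u * D) ↔ GoodE {5, 13} D := by
  have hun : u.norm = 1 := by rcases hu with h | h <;> rw [h] <;> decide
  constructor
  · rintro (⟨D', h1, h2⟩ | ⟨c, D', hc, h1, h2⟩)
    · have hD' := h2.cl.ps.prm
      rcases h1 with h1 | h1
      · have h3 : u * D = 1 * D' := by rw [h1, one_mul]
        rw [(uniq hun (by decide) hD hD' h3).2]; exact h2
      · have h3 : u * D = -1 * D' := by rw [h1]; ring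
        rw [(uniq hun (by decide) hD hD' h3).2]; exact h2
    · exfalso
      have hD' := h2.ps.prm
      rcases hc with h | h | h <;> rw [h] at h1 <;> rcases h1 with h1 | h1
      · have := (uniq hun (by decide) hD hD' h1).1
        rcases hu with h4 | h4 <;> rw [h4] at this <;> revert this <;> decide
      · have h3 : u * D = (-im1) * D' := by rw [h1]; ring
        have := (uniq hun (by decide) hD hD' h3).1
        rcases hu with h4 | h4 <;> rw [h4] at this <;> revert this <;> decide
      · exact uniq8 hun (u' := 1) (by decide) hD hD' (by rw [h1]; ring)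
      · exact uniq8 hun (u' := -1) (by decide) hD hD' (by rw [h1]; ring)
      · exact uniq8 hun (u' := im1) (by decide) hD hD' (by rw [h1]; ring)
      · exact uniq8 hun (u' := -im1) (by decide) hD hD' (by rw [h1]; ring)
  · intro h
    left
    refine ⟨D, ?_, h⟩
    rcases hu with h4 | h4 <;> rw [h4]
    · left; ring
    · right; ring

theorem good_oddi {D : ZI} (hD : prim D) {u : ZI} (hu : u = im1 ∨ u = -im1) :
    GoodG (u * D) ↔ GoodC im1 D := by
  have hun : u.norm = 1 := by rcases hu with h | h <;> rw [h] <;> decide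
  constructor
  · rintro (⟨D', h1, h2⟩ | ⟨c, D', hc, h1, h2⟩)
    · exfalso
      have hD' := h2.cl.ps.prm
      rcases h1 with h1 | h1
      · have h3 : u * D = 1 * D' := by rw [h1, one_mul]
        have := (uniq hun (by decide) hD hD' h3).1
        rcases hu with h4 | h4 <;> rw [h4] at this <;> revert this <;> decide
      · have h3 : u * D = -1 * D' := by rw [h1]; ring
        have := (uniq hun (by decide) hD hD' h3).1
        rcases hu with h4 | h4 <;> rw [h4] at this <;> revert this <;> decide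
    · have hD' := h2.ps.prm
      rcases hc with h | h | h <;> rw [h] at h1 h2 <;> rcases h1 with h1 | h1
      · rw [(uniq hun (by decide) hD hD' h1).2]; exact h2
      · have h3 : u * D = (-im1) * D' := by rw [h1]; ring
        rw [(uniq hun (by decide) hD hD' h3).2]; exact h2
      · exact (uniq8 hun (u' := 1) (by decide) hD hD' (by rw [h1]; ring)).elim
      · exact (uniq8 hun (u' := -1) (by decide) hD hD' (by rw [h1]; ring)).elim
      · exact (uniq8 hun (u' := im1) (by decide) hD hD' (by rw [h1]; ring)).elim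
      · exact (uniq8 hun (u' := -im1) (by decide) hD hD' (by rw [h1]; ring)).elim
  · intro h
    right
    refine ⟨im1, D, Or.inl rfl, ?_, h⟩
    rcases hu with h4 | h4 <;> rw [h4]
    · left; ring
    · right; ring

theorem cancel_pi {u u' D D' : ZI} (h : pi1 * (u * D) = pi1 * (u' * D')) : u * D = u' * D' :=
  mul_left_cancel₀ pi1_prime.ne_zero h

theorem good_even1 {D : ZI} (hD : prim D) {u : ZI} (hu : u = 1 ∨ u = -1) :
    GoodG (pi1 * (u * D)) ↔ GoodC pi1 D := by
  have hun : u.norm = 1 := by rcases hu with h | h <;> rw [h] <;> decide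
  constructor
  · rintro (⟨D', h1, h2⟩ | ⟨c, D', hc, h1, h2⟩)
    · exfalso
      have hD' := h2.cl.ps.prm
      rcases h1 with h1 | h1
      · exact uniq8 (u := 1) (by decide) hun hD' hD (by rw [h1]; ring)
      · exact uniq8 (u := -1) (by decide) hun hD' hD (by rw [h1]; ring)
    · have hD' := h2.ps.prm
      rcases hc with h | h | h <;> rw [h] at h1 h2 <;> rcases h1 with h1 | h1
      · exact (uniq8 (u := im1) (by decide) hun hD' hD (by rw [h1])).elim
      · exact (uniq8 (u := -im1) (by decide) hun hD' hD (by rw [h1]; ring)).elim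
      · have h3 : u * D = 1 * D' := cancel_pi (by rw [h1]; ring)
        rw [(uniq hun (by decide) hD hD' h3).2]; exact h2
      · have h3 : u * D = (-1) * D' := cancel_pi (by rw [h1]; ring)
        rw [(uniq hun (by decide) hD hD' h3).2]; exact h2
      · exfalso
        have h3 : u * D = im1 * D' := cancel_pi (by rw [h1]; ring)
        have := (uniq hun (by decide) hD hD' h3).1
        rcases hu with h4 | h4 <;> rw [h4] at this <;> revert this <;> decide
      · exfalso
        have h3 : u * D = (-im1) * D' := cancel_pi (by rw [h1]; ring)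
        have := (uniq hun (by decide) hD hD' h3).1
        rcases hu with h4 | h4 <;> rw [h4] at this <;> revert this <;> decide
  · intro h
    right
    refine ⟨pi1, D, Or.inr (Or.inl rfl), ?_, h⟩
    rcases hu with h4 | h4 <;> rw [h4]
    · left; ring
    · right; ring

theorem good_eveni {D : ZI} (hD : prim D) {u : ZI} (hu : u = im1 ∨ u = -im1) :
    GoodG (pi1 * (u * D)) ↔ GoodC (im1 * pi1) D := by
  have hun : u.norm = 1 := by rcases hu with h | h <;> rw [h] <;> decide
  constructor
  · rintro (⟨D', h1, h2⟩ | ⟨c, D', hc, h1, h2⟩)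
    · exfalso
      have hD' := h2.cl.ps.prm
      rcases h1 with h1 | h1
      · exact uniq8 (u := 1) (by decide) hun hD' hD (by rw [h1]; ring)
      · exact uniq8 (u := -1) (by decide) hun hD' hD (by rw [h1]; ring)
    · have hD' := h2.ps.prm
      rcases hc with h | h | h <;> rw [h] at h1 h2 <;> rcases h1 with h1 | h1
      · exact (uniq8 (u := im1) (by decide) hun hD' hD (by rw [h1])).elim
      · exact (uniq8 (u := -im1) (by decide) hun hD' hD (by rw [h1]; ring)).elim
      · exfalso
        have h3 : u * D = 1 * D' := cancel_pi (by rw [h1]; ring)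
        have := (uniq hun (by decide) hD hD' h3).1
        rcases hu with h4 | h4 <;> rw [h4] at this <;> revert this <;> decide
      · exfalso
        have h3 : u * D = (-1) * D' := cancel_pi (by rw [h1]; ring)
        have := (uniq hun (by decide) hD hD' h3).1
        rcases hu with h4 | h4 <;> rw [h4] at this <;> revert this <;> decide
      · have h3 : u * D = im1 * D' := cancel_pi (by rw [h1]; ring)
        rw [(uniq hun (by decide) hD hD' h3).2]; exact h2
      · have h3 : u * D = (-im1) * D' := cancel_pi (by rw [h1]; ring)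
        rw [(uniq hun (by decide) hD hD' h3).2]; exact h2
  · intro h
    right
    refine ⟨im1 * pi1, D, Or.inr (Or.inr rfl), ?_, h⟩
    rcases hu with h4 | h4 <;> rw [h4]
    · left; ring
    · right; ring

theorem nQ_congr {Q Q' : ZI → Prop} (h : ∀ g, Q g ↔ Q' g) (X : ℕ) : nQ Q X = nQ Q' X := by
  unfold nQ
  congr 1
  ext g
  exact and_congr_right fun _ => h g

theorem sum_UU (f : ZI → ℕ) : ∑ u ∈ UU, f u = f 1 + f (-1) + f im1 + f (-im1) := by
  unfold UU
  rw [sum_insert (by decide), sum_insert (by decide), sum_insert (by decide), sum_singleton]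
  ring

/-- the number of all the squarefree elements -/
theorem count_sqf (X : ℕ) : nQ Squarefree X = 4 * sA X + 4 * sA (X / 2) := by
  rw [nQ_classes (fun g h => h)]
  have h1 : ∀ u ∈ UU, ∀ Y, nQ (fun D => prim D ∧ Squarefree (u * D)) Y = sA Y := by
    intro u hu Y
    unfold sA
    exact nQ_congr (Q' := PS) (fun g => ⟨fun h => ⟨h.1, (sqf_unit (mem_UU.1 hu)).1 h.2⟩,
      fun h => ⟨h.prm, (sqf_unit (mem_UU.1 hu)).2 h.sqf⟩⟩) Y
  have h2 : ∀ u ∈ UU, ∀ Y, nQ (fun D => prim D ∧ Squarefree (pi1 * (u * D))) Y = sA Y := by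
    intro u hu Y
    unfold sA
    refine nQ_congr (Q' := PS) (fun g => ?_) Y
    have hun := mem_UU.1 hu
    have e : pi1 * (u * g) = u * (pi1 * g) := by ring
    constructor
    · rintro ⟨h3, h4⟩
      rw [e, sqf_unit hun, sqf_pi h3] at h4
      exact ⟨h3, h4⟩
    · intro h3
      refine ⟨h3.prm, ?_⟩
      rw [e, sqf_unit hun, sqf_pi h3.prm]
      exact h3.sqf
  rw [sum_congr rfl fun u hu => h1 u hu X, sum_congr rfl fun u hu => h2 u hu (X / 2), sum_const, sum_const]
  rfl

/-- the number of the good elements -/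
theorem count_good (X : ℕ) : nQ GoodG X = 2 * bE X + 2 * bC im1 X + 2 * bC pi1 (X / 2) +
    2 * bC (im1 * pi1) (X / 2) := by
  rw [nQ_classes (fun g h => h.sqf), sum_UU, sum_UU]
  have h1 : ∀ u : ZI, (u = 1 ∨ u = -1) → nQ (fun D => prim D ∧ GoodG (u * D)) X = bE X := by
    intro u hu
    unfold bE
    refine nQ_congr (Q' := GoodE {5, 13}) (fun g => ?_) X
    exact ⟨fun h => (good_odd1 h.1 hu).1 h.2, fun h => ⟨h.cl.ps.prm, (good_odd1 h.cl.ps.prm hu).2 h⟩⟩
  have h2 : ∀ u : ZI, (u = im1 ∨ u = -im1) → nQ (fun D => prim D ∧ GoodG (u * D)) X = bC im1 X := by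
    intro u hu
    unfold bC
    refine nQ_congr (Q' := GoodC im1) (fun g => ?_) X
    exact ⟨fun h => (good_oddi h.1 hu).1 h.2, fun h => ⟨h.ps.prm, (good_oddi h.ps.prm hu).2 h⟩⟩
  have h3 : ∀ u : ZI, (u = 1 ∨ u = -1) → nQ (fun D => prim D ∧ GoodG (pi1 * (u * D))) (X / 2) =
      bC pi1 (X / 2) := by
    intro u hu
    unfold bC
    refine nQ_congr (Q' := GoodC pi1) (fun g => ?_) (X / 2)
    exact ⟨fun h => (good_even1 h.1 hu).1 h.2, fun h => ⟨h.ps.prm, (good_even1 h.ps.prm hu).2 h⟩⟩
  have h4 : ∀ u : ZI, (u = im1 ∨ u = -im1) → nQ (fun D => prim D ∧ GoodG (pi1 * (u * D))) (X / 2) =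
      bC (im1 * pi1) (X / 2) := by
    intro u hu
    unfold bC
    refine nQ_congr (Q' := GoodC (im1 * pi1)) (fun g => ?_) (X / 2)
    exact ⟨fun h => (good_eveni h.1 hu).1 h.2, fun h => ⟨h.ps.prm, (good_eveni h.ps.prm hu).2 h⟩⟩
  rw [h1 1 (Or.inl rfl), h1 (-1) (Or.inr rfl), h2 im1 (Or.inl rfl), h2 (-im1) (Or.inr rfl),
    h3 1 (Or.inl rfl), h3 (-1) (Or.inr rfl), h4 im1 (Or.inl rfl), h4 (-im1) (Or.inr rfl)]
  ring

theorem lim_bE : Tendsto (fun X : ℕ => (bE X : ℝ) / (sA X : ℝ)) atTop (nhds (c2 / 2)) := by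
  have h1 := (t_DEN {5, 13} low5).mul lim_s5
  have e : c2 * (1 / 2) = c2 / 2 := by ring
  rw [e] at h1
  refine h1.congr' ?_
  obtain ⟨c, X₀, hc, hlow⟩ := low5
  filter_upwards [eventually_ge_atTop X₀, eventually_ge_atTop 1] with X h2 h3
  have hXr : (0 : ℝ) < X := by exact_mod_cast h3
  have hS : (0 : ℝ) < ((SS {5, 13} X).card : ℝ) := lt_of_lt_of_le (by positivity) (hlow X h2)
  rw [NS.card_cls]
  unfold bE
  rw [div_mul_div_comm, mul_comm ((SS {5, 13} X).card : ℝ) (sA X : ℝ), mul_div_mul_right _ _ hS.ne']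

/-- **the share of the good elements among all the squarefree Gaussian integers** -/
theorem share_all : Tendsto (fun X : ℕ => (nQ GoodG X : ℝ) / (nQ Squarefree X : ℝ)) atTop
    (nhds (5 / 6 * c2)) := by
  have hi : cc3 im1 := Or.inl rfl
  have hp : cc3 pi1 := Or.inr (Or.inl rfl)
  have hip : cc3 (im1 * pi1) := Or.inr (Or.inr rfl)
  have h1 := ((((lim_bE.const_mul 2).add ((dens_C hi).const_mul 2)).add ((lim_bC_half hp).const_mul 2)).add
    ((lim_bC_half hip).const_mul 2))
  have h2 : Tendsto (fun X : ℕ => 4 + 4 * ((sA (X / 2) : ℝ) / (sA X : ℝ))) atTop (nhds (4 + 4 * (1 / 2))) :=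
    (lim_half.const_mul 4).const_add 4
  have h3 := h1.div h2 (by norm_num)
  have e : (2 * (c2 / 2) + 2 * c2 + 2 * (c2 / 2) + 2 * (c2 / 2)) / (4 + 4 * (1 / 2)) = 5 / 6 * c2 := by ring
  rw [e] at h3
  refine h3.congr' ?_
  filter_upwards [sA_pos] with X hX
  rw [Pi.div_apply, count_sqf, count_good]
  push_cast
  field_simp

end Run7.h26.QI
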