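import Pool.Agent.Run7.h26.QI.Ds

/-!
The square classes, and the dynamics when `G` has valuation one.
-/

set_option autoImplicit false
set_option linter.unusedSectionVars false

namespace Run7.h26.QI

open Pool.Agent.Y699
open H385 (ZI RQ im1 nrm)
open Pool.Agent.W164.RC (two2 prim_iff_dvd unit_norm unit_cases)
open Pool.Agent.H304R2.EC.A1 (prim prim_mul prim_cancel prim_one prim_norm_odd prim_star eq_one_of_prim
  norm_def' re_mul' im_mul' eq_of_dvd prim_ne_zero exists_prim)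
open Av (AV Nt g tau)

/-- the criterion -/
structure GoodC (c D : ZI) : Prop where
  ps : PS D
  ker : ∀ d d' : ZI, prim d → prim d' → D = d * d' → (∀ π ∈ PD d, qr π (c * d') = 1) →
    (∀ π ∈ PD d', qr π d = 1) → d = 1

lemma exists_sign {t : ZI} (h : (2 : ZI) ∣ t - 1) : ∃ e : ZI, (e = 1 ∨ e = -1) ∧ prim (e * t) := by
  have e2 : two2 = 2 * pi1 := by decide
  obtain ⟨w, hw⟩ := h
  by_cases h1 : pi1 ∣ w
  · obtain ⟨w1, hw1⟩ := h1
    refine ⟨1, Or.inl rfl, (prim_iff_dvd _).2 ⟨w1, ?_⟩⟩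
    rw [e2]
    linear_combination hw + 2 * hw1
  · refine ⟨-1, Or.inr rfl, (prim_iff_dvd _).2 ?_⟩
    have h3 : pi1 ∣ 1 + w := by
      rcases odd_mod2 h1 with ⟨r, hr⟩ | ⟨r, hr⟩
      · have : 1 + w = 2 * (1 + r) := by linear_combination hr
        rw [this]
        exact pi1_two.mul_right _
      · have e : pi1 = 1 + im1 := by decide
        have : 1 + w = pi1 + 2 * r := by rw [e]; linear_combination hr
        rw [this]
        exact dvd_add dvd_rfl (pi1_two.mul_right _)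
    obtain ⟨r, hr⟩ := h3
    refine ⟨-r, ?_⟩
    rw [e2]
    linear_combination (-1 : ZI) * hw - 2 * hr

lemma cc3_dvd {c : ZI} (hc : cc3 c) : c ∣ pi1 := by
  rcases hc with h | h | h <;> rw [h]
  · exact ⟨-im1 * pi1, by linear_combination pi1 * im1_sq⟩
  · exact ⟨-im1, by linear_combination pi1 * im1_sq⟩

lemma cc3_ne {c : ZI} (hc : cc3 c) : c ≠ 0 := by
  rcases hc with h | h | h <;> rw [h] <;> decide

lemma core {c D t t' : ZI} (hc : cc3 c) (h : GoodC c D) (hG : c * D = t * t') (h2 : (2 : ZI) ∣ t - 1)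
    (hloc : ∀ π, PP π → π ∣ D → (¬ π ∣ t → qr π t = 1) ∧ (π ∣ t → qr π t' = 1)) : t = 1 ∨ t = -1 := by
  obtain ⟨e, he, hp⟩ := exists_sign h2
  have he1 : e * e = 1 := by rcases he with h | h <;> rw [h] <;> ring
  have hqe : ∀ π, PP π → ∀ a : ZI, qr π (e * a) = qr π a := by
    intro π hπ a
    rcases he with h | h <;> rw [h]
    · rw [one_mul]
    · rw [neg_one_mul, qr_neg hπ]
  have hcop : IsCoprime t pi1 := by
    obtain ⟨w, hw⟩ := h2
    refine ⟨1, im1 * pi1 * w, ?_⟩
    linear_combination hw + w * im1 * pi1_sq + 2 * w * im1_sq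
  have htD : t ∣ D := by
    have h3 : t ∣ pi1 * D := (Dvd.intro _ hG.symm).trans (mul_dvd_mul_right (cc3_dvd hc) D)
    exact hcop.dvd_of_dvd_mul_left h3
  obtain ⟨s0, hs0⟩ := htD
  set s : ZI := e * s0 with hs
  have hDs : D = (e * t) * s := by
    rw [hs, hs0]
    linear_combination (-(t * s0)) * he1
  have hsp : prim s := prim_cancel hp (by rw [← hDs]; exact h.ps.prm)
  have ht0 : t ≠ 0 := by
    rintro rfl
    apply h.ps.ne
    rw [hs0, zero_mul]
  have ht' : t' = e * (c * s) := by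
    apply mul_left_cancel₀ ht0
    rw [← hG, hDs]
    ring
  have het0 : e * t ≠ 0 := prim_ne_zero hp
  have hs00 : s ≠ 0 := prim_ne_zero hsp
  have h1 := h.ker (e * t) s hp hsp hDs ?_ ?_
  · have : t = e := by
      have : e * (e * t) = e := by rw [h1, mul_one]
      rwa [← mul_assoc, he1, one_mul] at this
    rw [this]
    exact he
  · intro π hπ
    obtain ⟨p1, p2⟩ := (mem_PD het0).1 hπ
    have p3 : π ∣ t := by
      have : t = e * (e * t) := by rw [← mul_assoc, he1, one_mul]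
      rw [this]
      exact p2.mul_left _
    have p4 := (hloc π p1 (by rw [hDs]; exact p2.mul_right _)).2 p3
    rw [ht', hqe π p1] at p4
    exact p4
  · intro π hπ
    obtain ⟨p1, p2⟩ := (mem_PD hs00).1 hπ
    have p3 : ¬ π ∣ t := by
      rintro ⟨r, hr⟩
      obtain ⟨r', hr'⟩ := p2
      exact p1.pr.not_isUnit (h.ps.sqf π ⟨e * r * r', by rw [hDs, hr', hr]; ring⟩)
    have p4 := (hloc π p1 (by rw [hDs]; exact p2.mul_left _)).1 p3
    rw [hqe π p1]
    exact p4

lemma sqf_cD {c D : ZI} (hc : cc3 c) (hD : PS D) : Squarefree (c * D) := by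
  have hD1 := pi1_prim hD.prm
  have hu : IsUnit (im1 : ZI) := IsUnit.of_mul_eq_one (-im1) (by decide)
  have h1 : Squarefree (pi1 * D) := by
    rw [squarefree_mul_iff]
    refine ⟨?_, pi1_prime.squarefree, hD.sqf⟩
    intro a ha hb
    by_contra hau
    rcases pi1_prime.irreducible.isUnit_or_isUnit (ha.choose_spec) with h | h
    · exact hau h
    · obtain ⟨k, hk⟩ := h.exists_right_inv
      apply hD1
      have : pi1 ∣ a := ⟨k, by rw [ha.choose_spec, mul_assoc, hk, mul_one]⟩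
      exact this.trans hb
  have h2 : ∀ z : ZI, Squarefree z → Squarefree (im1 * z) := fun z hz a ha => hz a ((hu.dvd_mul_left).1 ha)
  rcases hc with h | h | h <;> rw [h]
  · exact h2 _ hD.sqf
  · exact h1
  · rw [mul_assoc]
    exact h2 _ h1

variable {F : Type} [Field F] [Algebra ZI F] [IsFractionRing ZI F]

theorem square_class0 {c D : ZI} (hc : cc3 c) (h : GoodC c D) {x y : F} (hy : y ≠ 0)
    (hxy : y ^ 2 = x ^ 3 - (algebraMap ZI F (c * D)) ^ 2 * x) :
    ∃ w : F, x = w ^ 2 ∨ x = algebraMap ZI F (c * D) * w ^ 2 := by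
  have hG := sqf_cD hc h.ps
  obtain ⟨d, d', f, b, Y, hd, hcop, hf0, hb0, hx, hE⟩ := decomp0 hG hy hxy
  have hloc := fun π (hπ : PP π) (hdv : π ∣ D) => local0 hG hd hcop hE hπ (hdv.mul_left c)
  rcases parity hc h.ps.prm hd hcop hE with h2 | h2
  · rcases core hc h hd h2 hloc with h3 | h3
    · exact ⟨algebraMap ZI F f / algebraMap ZI F b, Or.inl (by rw [hx, h3, map_one, one_mul])⟩
    · refine ⟨algebraMap ZI F im1 * (algebraMap ZI F f / algebraMap ZI F b), Or.inl ?_⟩
      rw [hx, h3, mul_pow, ← map_pow, im1_sq]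
  · have hloc' : ∀ π, PP π → π ∣ D → (¬ π ∣ d' → qr π d' = 1) ∧ (π ∣ d' → qr π d = 1) := by
      intro π hπ hdv
      obtain ⟨p1, p2⟩ := hloc π hπ hdv
      have h4 : π ∣ d * d' := by rw [← hd]; exact hdv.mul_left c
      refine ⟨fun h5 => p2 ((hπ.pr.dvd_or_dvd h4).resolve_right h5), fun h5 => p1 ?_⟩
      rintro ⟨r, hr⟩
      obtain ⟨r', hr'⟩ := h5
      exact hπ.pr.not_isUnit (hG π ⟨r * r', by rw [hd, hr', hr]; ring⟩)
    rcases core hc h (hd.trans (mul_comm _ _)) h2 hloc' with h3 | h3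
    · refine ⟨algebraMap ZI F f / algebraMap ZI F b, Or.inr ?_⟩
      rw [hx, hd, h3, mul_one]
    · refine ⟨algebraMap ZI F im1 * (algebraMap ZI F f / algebraMap ZI F b), Or.inr ?_⟩
      rw [hx, hd, h3, mul_pow, ← map_pow, im1_sq, map_mul, map_neg, map_one]
      ring

/-! ### the dynamics, valuation one -/

variable {K : Type*} [Field K] {v : K → ℤ}

/-- the setting: `l = 1 + i`, `j = i`, `D` of valuation one -/
structure Set3 (v : K → ℤ) (l j D : K) : Prop where
  av : AV v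
  ll : l ^ 2 = 2 * j
  jj : j ^ 2 = -1
  lj : 1 + j = l
  two : (2 : K) ≠ 0
  vl : v l = 1
  D0 : D ≠ 0
  vD : v D = 1
  res : ∀ t : K, t ≠ 0 → v t = 0 → t ≠ 1 → 1 ≤ v (t - 1)

variable {l j D : K}

lemma Set3.j0 (h : Set3 v l j D) : j ≠ 0 := by
  intro hj
  have := h.jj
  rw [hj] at this
  simp at this

lemma Set3.l0 (h : Set3 v l j D) : l ≠ 0 := by
  intro h0
  have h1 := h.ll
  rw [h0] at h1
  have : (2 : K) * j = 0 := by rw [← h1]; simp
  rcases mul_eq_zero.1 this with h2 | h2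
  · exact h.two h2
  · exact h.j0 h2

lemma Set3.vj (h : Set3 v l j D) : v j = 0 := by
  have h1 := h.av.pow h.j0 2
  rw [h.jj, h.av.neg_one] at h1
  push_cast at h1
  omega

lemma Set3.v2 (h : Set3 v l j D) : v 2 = 2 := by
  have h1 := h.av.pow h.l0 2
  rw [h.ll, h.av.mul h.two h.j0, h.vj, h.vl] at h1
  push_cast at h1
  omega

lemma Set3.v2D (h : Set3 v l j D) : v (2 * D) = 3 := by
  rw [h.av.mul h.two h.D0, h.v2, h.vD]
  norm_num

lemma w_g (h : Set3 v l j D) {x : K} (hx : Nt D x) :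
    v (g l D x) = v (x - D) + v (x + D) - 2 - v x := by
  obtain ⟨h0, h1, h2⟩ := hx
  unfold g
  have e : x ^ 2 - D ^ 2 = (x - D) * (x + D) := by ring
  rw [e, h.av.div (mul_ne_zero h1 h2) (mul_ne_zero (pow_ne_zero 2 h.l0) h0), h.av.mul h1 h2,
    h.av.mul (pow_ne_zero 2 h.l0) h0, h.av.pow h.l0, h.vl]
  push_cast
  ring

lemma w_tau (h : Set3 v l j D) {x : K} (hx : Nt D x) :
    v (tau D x) = 1 + v (x + D) - v (x - D) := by
  obtain ⟨h0, h1, h2⟩ := hx
  unfold tau
  rw [h.av.div (mul_ne_zero h.D0 h2) h1, h.av.mul h.D0 h2, h.vD]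

lemma w_tau_sub (h : Set3 v l j D) {x : K} (hx : Nt D x) :
    tau D x - D ≠ 0 ∧ v (tau D x - D) = 4 - v (x - D) := by
  obtain ⟨h0, h1, h2⟩ := hx
  have e : tau D x - D = (2 * D) * D / (x - D) := by
    unfold tau
    field_simp
    ring
  have h3 : (2 * D) * D ≠ 0 := mul_ne_zero (mul_ne_zero h.two h.D0) h.D0
  rw [e]
  refine ⟨div_ne_zero h3 h1, ?_⟩
  rw [h.av.div h3 h1, h.av.mul (mul_ne_zero h.two h.D0) h.D0, h.v2D, h.vD]
  ring

lemma w_tau_add (h : Set3 v l j D) {x : K} (hx : Nt D x) :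
    tau D x + D ≠ 0 ∧ v (tau D x + D) = 3 + v x - v (x - D) := by
  obtain ⟨h0, h1, h2⟩ := hx
  have e : tau D x + D = (2 * D) * x / (x - D) := by
    unfold tau
    field_simp
    ring
  have h3 : (2 * D) * x ≠ 0 := mul_ne_zero (mul_ne_zero h.two h.D0) h0
  rw [e]
  refine ⟨div_ne_zero h3 h1, ?_⟩
  rw [h.av.div h3 h1, h.av.mul (mul_ne_zero h.two h.D0) h0, h.v2D]

lemma nt_tau3 (h : Set3 v l j D) {x : K} (hx : Nt D x) : Nt D (tau D x) := by
  refine ⟨?_, (w_tau_sub h hx).1, (w_tau_add h hx).1⟩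
  exact div_ne_zero (mul_ne_zero h.D0 hx.2.2) hx.2.1

/-- the possible valuations of `x`, `x - D`, `x + D` -/
lemma cases4 (h : Set3 v l j D) {x : K} (hx : Nt D x) :
    (v x < 1 ∧ v (x - D) = v x ∧ v (x + D) = v x) ∨ (1 < v x ∧ v (x - D) = 1 ∧ v (x + D) = 1) ∨
      (v x = 1 ∧ v (x - D) = 2 ∧ v (x + D) = 2) ∨ (v x = 1 ∧ v (x - D) = 3 ∧ 4 ≤ v (x + D)) ∨
      (v x = 1 ∧ 4 ≤ v (x - D) ∧ v (x + D) = 3) := by
  obtain ⟨h0, h1, h2⟩ := hx
  have hDv := h.vD
  rcases lt_trichotomy (v x) 1 with h3 | h3 | h3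
  · left
    exact ⟨h3, (h.av.sub_eq h0 h.D0 (by omega)).2, (h.av.add_eq h0 h.D0 (by omega)).2⟩
  · right; right
    have h2D0 : (2 * D) ≠ 0 := mul_ne_zero h.two h.D0
    have h4 : 2 ≤ v (x - D) := by
      have h5 := h.res (x / D) (div_ne_zero h0 h.D0) (by rw [h.av.div h0 h.D0]; omega) (by
        intro h6
        rw [div_eq_one_iff_eq h.D0] at h6
        exact h1 (by rw [h6, sub_self]))
      have e : x / D - 1 = (x - D) / D := by
        have := h.D0
        field_simp
      rw [e, h.av.div h1 h.D0, hDv] at h5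
      omega
    have e : x + D = (x - D) + 2 * D := by ring
    have e' : x + D = 2 * D + (x - D) := by ring
    rcases lt_trichotomy (v (x - D)) 3 with h5 | h5 | h5
    · left
      have h6 := (h.av.add_eq h1 h2D0 (by rw [h.v2D]; exact h5)).2
      rw [← e] at h6
      omega
    · right; left
      refine ⟨h3, h5, ?_⟩
      have h6 := h.res (-(x - D) / (2 * D)) (div_ne_zero (neg_ne_zero.2 h1) h2D0) (by
        rw [h.av.div (neg_ne_zero.2 h1) h2D0, h.av.neg h1, h.v2D]; omega) (by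
        intro h7
        rw [div_eq_one_iff_eq h2D0] at h7
        exact h2 (by linear_combination -h7))
      have e2 : -(x - D) / (2 * D) - 1 = -(x + D) / (2 * D) := by
        have := h.D0
        have := h.two
        field_simp
        ring
      rw [e2, h.av.div (neg_ne_zero.2 h2) h2D0, h.av.neg h2, h.v2D] at h6
      omega
    · right; right
      have h6 := (h.av.add_eq h2D0 h1 (by rw [h.v2D]; exact h5)).2
      rw [← e', h.v2D] at h6
      omega
  · right; left
    have e1 : x - D = -(D - x) := by ring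
    have h4 := h.av.sub_eq h.D0 h0 (by omega)
    have h5 := (h.av.add_eq h.D0 h0 (by omega)).2
    refine ⟨h3, ?_, ?_⟩
    · rw [e1, h.av.neg h4.1, h4.2, hDv]
    · rw [add_comm, h5, hDv]

/-- distance at least `n` -/
def Ord3 (v : K → ℤ) (D : K) (n : ℤ) (x : K) : Prop :=
  v x ≤ -n ∨ 2 + n ≤ v x ∨ n + 4 ≤ v (x - D) ∨ n + 4 ≤ v (x + D)

/-- the identity or the opposite component -/
def Qp3 (v : K → ℤ) (D : K) (x : K) : Prop := v x ≠ 1 ∨ 3 ≤ v (x - D)

lemma ord_g3 (h : Set3 v l j D) {n : ℤ} (hn : 0 ≤ n) {x : K} (hx : Nt D x) (ho : Ord3 v D n x) :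
    Ord3 v D (n + 1) (g l D x) := by
  have h1 := w_g h hx
  have h2 := cases4 h hx
  unfold Ord3 at ho ⊢
  omega

lemma ord_tau3 (h : Set3 v l j D) {n : ℤ} (hn : 0 ≤ n) {x : K} (hx : Nt D x) (ho : Ord3 v D n x) :
    Ord3 v D n (tau D x) := by
  have h1 := w_tau h hx
  have h2 := cases4 h hx
  have h3 := (w_tau_sub h hx).2
  have h4 := (w_tau_add h hx).2
  unfold Ord3 at ho ⊢
  omega

lemma qp_tau3 (h : Set3 v l j D) {x : K} (hx : Nt D x) (ho : Qp3 v D x) : Qp3 v D (tau D x) := by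
  have h1 := w_tau h hx
  have h2 := cases4 h hx
  have h3 := (w_tau_sub h hx).2
  have h4 := (w_tau_add h hx).2
  unfold Qp3 at ho ⊢
  omega

lemma qp_ord3 (h : Set3 v l j D) {x : K} (hx : Nt D x) (ho : Qp3 v D x) : Ord3 v D 0 x := by
  have h2 := cases4 h hx
  unfold Qp3 at ho
  unfold Ord3
  omega

/-- after one step -/
lemma qp_g3 (h : Set3 v l j D) {x : K} (hx : Nt D x) (hgx : Nt D (g l D x)) : Qp3 v D (g l D x) := by
  have h1 := w_g h hx
  have h2 := cases4 h hx
  unfold Qp3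
  by_cases hb : v x = 1 ∧ v (x - D) = 2 ∧ v (x + D) = 2
  · right
    obtain ⟨b1, b2, b3⟩ := hb
    obtain ⟨h0, hm, hp⟩ := hx
    set t : K := (x - D) / (l * D) with ht
    have hl0 := h.l0
    have hD0 := h.D0
    have hlD : l * D ≠ 0 := mul_ne_zero hl0 hD0
    have ht0 : t ≠ 0 := div_ne_zero hm hlD
    have hvt : v t = 0 := by
      rw [ht, h.av.div hm hlD, h.av.mul hl0 hD0, h.vl, h.vD]; omega
    have hxt : x = D * (1 + l * t) := by
      rw [ht]; field_simp; ring
    have hr0 : 1 + l * t ≠ 0 := by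
      intro h5
      apply h0
      rw [hxt, h5, mul_zero]
    have hvr : v (1 + l * t) = 0 := by
      have := h.av.mul hD0 hr0
      rw [← hxt, b1, h.vD] at this
      omega
    have h2l : (2 : K) = - j * l ^ 2 := by
      rw [h.ll]
      linear_combination (2 : K) * h.jj
    have key : g l D x - D = D * (t ^ 2 - 1 - l ^ 2 * t) / (1 + l * t) := by
      have e1 : g l D x = D * ((1 + l * t) ^ 2 - 1) / (l ^ 2 * (1 + l * t)) := by
        unfold g
        rw [hxt]
        field_simp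
        try ring
      rw [e1]
      have e2 : (1 + l * t) ^ 2 - 1 = l ^ 2 * (t ^ 2 - j * l * t) := by
        linear_combination (l * t) * h2l
      rw [e2]
      have e3 : D * (l ^ 2 * (t ^ 2 - j * l * t)) / (l ^ 2 * (1 + l * t)) =
          D * (t ^ 2 - j * l * t) / (1 + l * t) := by
        field_simp
      have e4 : t ^ 2 - j * l * t - (1 + l * t) = t ^ 2 - 1 - l ^ 2 * t := by
        linear_combination (-(l * t)) * h.lj
      rw [e3, ← e4, eq_div_iff hr0, sub_mul, div_mul_cancel₀ _ hr0]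
      ring
    have hz : t ^ 2 - 1 - l ^ 2 * t ≠ 0 := by
      intro h5
      apply hgx.2.1
      rw [key, h5, mul_zero, zero_div]
    rw [key, h.av.div (mul_ne_zero hD0 hz) hr0, h.av.mul hD0 hz, hvr, h.vD]
    have hl2t : l ^ 2 * t ≠ 0 := mul_ne_zero (pow_ne_zero 2 hl0) ht0
    have hvl2 : v (l ^ 2 * t) = 2 := by
      rw [h.av.mul (pow_ne_zero 2 hl0) ht0, h.av.pow hl0, h.vl, hvt]; norm_num
    by_cases ht1 : t ^ 2 - 1 = 0
    · rw [ht1, zero_sub, h.av.neg hl2t, hvl2]; norm_num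
    · have e4 : t ^ 2 - 1 = (t - 1) * (t + 1) := by ring
      have hm1 : t - 1 ≠ 0 := by
        intro h5; apply ht1; rw [e4, h5, zero_mul]
      have hp1 : t + 1 ≠ 0 := by
        intro h5; apply ht1; rw [e4, h5, mul_zero]
      have h6 := h.res t ht0 hvt (fun h7 => hm1 (by rw [h7, sub_self]))
      have h7 : 1 ≤ v (t + 1) := by
        have h8 := h.res (-t) (neg_ne_zero.2 ht0) (by rw [h.av.neg ht0]; exact hvt)
          (fun h9 => hp1 (by rw [← h9]; ring))
        have e5 : -t - 1 = -(t + 1) := by ring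
        rwa [e5, h.av.neg hp1] at h8
      have h8 : v (t ^ 2 - 1) = v (t - 1) + v (t + 1) := by rw [e4, h.av.mul hm1 hp1]
      have h9 := h.av.sub ht1 hl2t hz
      rw [hvl2, h8, min_def] at h9
      split_ifs at h9 <;> omega
  · omega

/-- **no point is infinitely divisible** -/
theorem empty_of_step3 (h : Set3 v l j D) (X : Set K) (hX : ∀ x ∈ X, Nt D x)
    (hstep : ∀ x ∈ X, ∃ x' ∈ X, x = g l D x' ∨ (g l D x' ∈ X ∧ x = tau D (g l D x'))) : X = ∅ := by
  have hQ : ∀ x ∈ X, Qp3 v D x := by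
    intro x hx
    obtain ⟨x', hx', h1 | ⟨h1, h2⟩⟩ := hstep x hx
    · rw [h1]
      exact qp_g3 h (hX _ hx') (by rw [← h1]; exact hX _ hx)
    · rw [h2]
      exact qp_tau3 h (hX _ h1) (qp_g3 h (hX _ hx') (hX _ h1))
  have hO : ∀ n : ℕ, ∀ x ∈ X, Ord3 v D n x := by
    intro n
    induction n with
    | zero =>
      intro x hx
      have := qp_ord3 h (hX _ hx) (hQ _ hx)
      simpa using this
    | succ n ih =>
      intro x hx
      obtain ⟨x', hx', h1 | ⟨h1, h2⟩⟩ := hstep x hx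
      · rw [h1]
        have := ord_g3 h (by omega) (hX _ hx') (ih x' hx')
        push_cast
        exact this
      · rw [h2]
        have := ord_g3 h (by omega) (hX _ hx') (ih x' hx')
        have h3 := ord_tau3 h (by omega) (hX _ h1) this
        push_cast
        exact h3
  rw [Set.eq_empty_iff_forall_notMem]
  intro x hx
  have h1 := hO (((v x).natAbs + (v (x - D)).natAbs + (v (x + D)).natAbs) + 1) x hx
  unfold Ord3 at h1
  omega

end Run7.h26.QI
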