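import Pool.Agent.Run7.h26.QI.Dr

/-!
There are no points of infinite order.
-/

set_option autoImplicit false
set_option linter.unusedSectionVars false

open NumberField IsDedekindDomain WithZero

namespace Run7.h26.QI

open Pool.Agent.Y699
open H385 (ZI RQ im1 nrm)
open Pool.Agent.W164.RC (two2 prim_iff_dvd unit_norm unit_cases)
open Pool.Agent.H304R2.EC.A1 (prim prim_mul prim_cancel prim_one prim_norm_odd prim_star eq_one_of_prim
  norm_def' re_mul' im_mul' eq_of_dvd prim_ne_zero exists_prim)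
open Av (AV Set2 Nt g tau empty_of_step)

variable {F : Type} [Field F] [Algebra ZI F] [IsFractionRing ZI F]

lemma F_ll : (algebraMap ZI F pi1) ^ 2 = 2 * algebraMap ZI F im1 := by
  rw [← map_pow]
  have e : pi1 ^ 2 = 2 * im1 := by decide
  rw [e, map_mul, map_ofNat]

lemma F_jj : (algebraMap ZI F im1) ^ 2 = -1 := by
  rw [← map_pow]
  have e : im1 ^ 2 = (-1 : ZI) := by decide
  rw [e, map_neg, map_one]

lemma F_two : (2 : F) ≠ 0 := by
  have : algebraMap ZI F 2 ≠ 0 := A_ne (by decide)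
  rwa [map_ofNat] at this

/-- **the descent argument** -/
theorem no_points_gen {G : ZI} (hG0 : G ≠ 0)
    (hsq : ∀ x y : F, y ≠ 0 → y ^ 2 = x ^ 3 - (algebraMap ZI F G) ^ 2 * x →
      ∃ w : F, x = w ^ 2 ∨ x = algebraMap ZI F G * w ^ 2)
    (hdyn : ∀ X : Set F, (∀ x ∈ X, Nt (algebraMap ZI F G) x) →
      (∀ x ∈ X, ∃ x' ∈ X, x = g (algebraMap ZI F pi1) (algebraMap ZI F G) x' ∨
        (g (algebraMap ZI F pi1) (algebraMap ZI F G) x' ∈ X ∧
          x = tau (algebraMap ZI F G) (g (algebraMap ZI F pi1) (algebraMap ZI F G) x'))) → X = ∅)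
    {x y : F} (hxy : y ^ 2 = x ^ 3 - (algebraMap ZI F G) ^ 2 * x) : y = 0 := by
  have hD0 : algebraMap ZI F G ≠ 0 := A_ne hG0
  have hl0 : algebraMap ZI F pi1 ≠ 0 := A_ne pi1_prime.ne_zero
  have hj0 : algebraMap ZI F im1 ≠ 0 := A_ne (by decide)
  have h20 : (2 : F) ≠ 0 := F_two
  have hll := F_ll (F := F)
  have hjj := F_jj (F := F)
  revert hxy hsq hdyn hD0 hl0 hj0 hll hjj
  generalize algebraMap ZI F G = D
  generalize algebraMap ZI F pi1 = l
  generalize algebraMap ZI F im1 = j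
  intro hsq hdyn hxy hD0 hl0 hj0 hll hjj
  set X : Set F := {x | ∃ y : F, y ≠ 0 ∧ y ^ 2 = x ^ 3 - D ^ 2 * x} with hX
  have hnt : ∀ x ∈ X, Nt D x := by
    rintro x ⟨y, hy, hxy⟩
    have h1 : ∀ z : F, z = 0 → x ^ 3 - D ^ 2 * x = z * z → False := by
      intro z hz h
      apply hy
      have : y ^ 2 = 0 := by rw [hxy, h, hz, mul_zero]
      exact pow_eq_zero_iff (by norm_num) |>.1 this
    refine ⟨fun h => h1 0 rfl ?_, fun h => h1 0 rfl ?_, fun h => h1 0 rfl ?_⟩
    · rw [h]; ring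
    · have : x ^ 3 - D ^ 2 * x = (x - D) * (x * (x + D)) := by ring
      rw [this, h]; ring
    · have : x ^ 3 - D ^ 2 * x = (x + D) * (x * (x - D)) := by ring
      rw [this, h]; ring
  -- halving when the abscissa is a square
  have hhalf : ∀ x ∈ X, ∀ w : F, x = w ^ 2 → ∃ x' ∈ X, x = g l D x' := by
    rintro x hx w hxw
    obtain ⟨n0, n1, n2⟩ := hnt x hx
    obtain ⟨y, hy, hxy⟩ := hx
    have hw0 : w ≠ 0 := by
      rintro rfl
      apply n0
      rw [hxw]; ring
    set b : F := y / w with hb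
    have hb2 : b ^ 2 = x ^ 2 - D ^ 2 := by
      rw [hb, div_pow, hxy, ← hxw]
      field_simp
    have hprod : (w ^ 2 + b) * (w ^ 2 - b) = D ^ 2 := by
      rw [← hxw]
      linear_combination -hb2
    have hs0 : w ^ 2 + b ≠ 0 := by
      intro h
      rw [h, zero_mul] at hprod
      exact hD0 (pow_eq_zero_iff (by norm_num) |>.1 hprod.symm)
    set x' : F := j * (w ^ 2 + b) with hx'
    have hx'0 : x' ≠ 0 := mul_ne_zero hj0 hs0
    have key : x' ^ 2 - D ^ 2 = l ^ 2 * x' * x := by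
      rw [hx', hll, hxw]
      have hb2' : b ^ 2 = w ^ 4 - D ^ 2 := by rw [hb2, hxw]; ring
      linear_combination (w ^ 4 + 2 * w ^ 2 * b + b ^ 2 - 2 * w ^ 2 * (w ^ 2 + b)) * hjj - hb2'
    refine ⟨x', ⟨l * w * x', mul_ne_zero (mul_ne_zero hl0 hw0) hx'0, ?_⟩, ?_⟩
    · have e : x' ^ 3 - D ^ 2 * x' = x' * (x' ^ 2 - D ^ 2) := by ring
      rw [e, key, hxw]
      ring
    · unfold g
      rw [key]
      field_simp
  have hstep : ∀ x ∈ X, ∃ x' ∈ X, x = g l D x' ∨ (g l D x' ∈ X ∧ x = tau D (g l D x')) := by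
    intro x hx
    obtain ⟨n0, n1, n2⟩ := hnt x hx
    obtain ⟨y, hy, hxy⟩ := id hx
    obtain ⟨w, hw1 | hw1⟩ := hsq x y hy hxy
    · obtain ⟨x', hx', h1⟩ := hhalf x hx w hw1
      exact ⟨x', hx', Or.inl h1⟩
    · have hw0 : w ≠ 0 := by
        rintro rfl
        apply n0
        rw [hw1]; ring
      have hτ : tau D x ∈ X := by
        refine ⟨2 * D ^ 2 * y / (x - D) ^ 2,
          div_ne_zero (mul_ne_zero (mul_ne_zero h20 (pow_ne_zero 2 hD0)) hy) (pow_ne_zero 2 n1), ?_⟩
        unfold tau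
        rw [div_pow, mul_pow, hxy]
        field_simp
        ring
      have hτsq : tau D x = (y / (w * (x - D))) ^ 2 := by
        unfold tau
        rw [div_pow, hxy]
        have e : x ^ 3 - D ^ 2 * x = x * ((x - D) * (x + D)) := by ring
        rw [e]
        have e2 : x * ((x - D) * (x + D)) = D * w ^ 2 * ((x - D) * (x + D)) := by rw [← hw1]
        rw [e2]
        field_simp
      obtain ⟨x', hx', h1⟩ := hhalf _ hτ _ hτsq
      refine ⟨x', hx', Or.inr ⟨by rw [← h1]; exact hτ, ?_⟩⟩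
      rw [← h1]
      have e1 : tau D (tau D x) = D * (tau D x + D) / (tau D x - D) := rfl
      have e2 : tau D x + D = (2 * D) * x / (x - D) := by
        unfold tau; field_simp; ring
      have e3 : tau D x - D = (2 * D) * D / (x - D) := by
        unfold tau; field_simp; ring
      rw [e1, e2, e3]
      field_simp
  have hempty := hdyn X hnt hstep
  by_contra hy
  have : x ∈ X := ⟨y, hy, hxy⟩
  rw [hempty] at this
  exact this

lemma set2_im {D : ZI} (hD : prim D) : Set2 (vv F) (algebraMap ZI F pi1) (algebraMap ZI F im1)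
    (algebraMap ZI F (im1 * D)) where
  av := vv_av
  ll := F_ll
  jj := F_jj
  lj := (set2 (F := F) hD).lj
  two := F_two
  vl := vv_pi1
  D0 := A_ne (mul_ne_zero (by decide) (prim_ne_zero hD))
  vD := vv_odd (not_dvd_mul pi1_im1 (pi1_prim hD))
  res := (set2 (F := F) hD).res

lemma set3_pi {D c1 : ZI} (hD : prim D) (hc1 : ¬ pi1 ∣ c1) :
    Set3 (vv F) (algebraMap ZI F pi1) (algebraMap ZI F im1) (algebraMap ZI F (pi1 * c1 * D)) where
  av := vv_av
  ll := F_ll
  jj := F_jj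
  lj := (set2 (F := F) hD).lj
  two := F_two
  vl := vv_pi1
  D0 := by
    refine A_ne (mul_ne_zero (mul_ne_zero pi1_prime.ne_zero ?_) (prim_ne_zero hD))
    rintro rfl
    exact hc1 (dvd_zero _)
  vD := by
    have h1 : c1 ≠ 0 := by
      rintro rfl
      exact hc1 (dvd_zero _)
    rw [mul_assoc, map_mul, (vv_av (F := F)).mul (A_ne pi1_prime.ne_zero)
      (A_ne (mul_ne_zero h1 (prim_ne_zero hD))), vv_pi1, vv_odd (not_dvd_mul hc1 (pi1_prim hD))]
    norm_num
  res := (set2 (F := F) hD).res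

/-- **there are no points of infinite order** -/
theorem no_points' {c D : ZI} (hc : cc3 c) (h : GoodC c D) {x y : F}
    (hxy : y ^ 2 = x ^ 3 - (algebraMap ZI F (c * D)) ^ 2 * x) : y = 0 := by
  refine no_points_gen (F := F) (G := c * D) (mul_ne_zero (cc3_ne hc) h.ps.ne)
    (fun x y hy hxy => square_class0 hc h hy hxy) ?_ hxy
  intro X h1 h2
  have h3 := h.ps.prm
  by_cases hc1 : c = im1
  · rw [hc1] at h1 h2
    exact empty_of_step (set2_im h3) X h1 h2
  · obtain ⟨c1, hc2, hc3⟩ : ∃ c1, c = pi1 * c1 ∧ ¬ pi1 ∣ c1 := by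
      rcases hc with h4 | h4 | h4
      · exact absurd h4 hc1
      · exact ⟨1, by rw [h4, mul_one], one_not⟩
      · exact ⟨im1, by rw [h4, mul_comm], pi1_im1⟩
    rw [hc2] at h1 h2
    exact empty_of_step3 (set3_pi h3 hc3) X h1 h2

theorem crit_pts' {c D : ZI} (hc : cc3 c) (h : GoodC c D) {K : Type} [Field K] [NumberField K]
    (e : ZI ≃+* 𝓞 K) {x y : K} (hxy : y ^ 2 = x ^ 3 - (algebraMap (𝓞 K) K (e (c * D))) ^ 2 * x) :
    y = 0 := by
  letI : Algebra ZI K := ((algebraMap (𝓞 K) K).comp (e : ZI →+* 𝓞 K)).toAlgebra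
  haveI : IsFractionRing ZI K := IsFractionRing.of_ringEquiv_left e (fun _ => rfl)
  exact no_points' (F := K) hc h (x := x) hxy

end Run7.h26.QI
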