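import Pool.Agent.Y699.Chi

/-!
Regularized sums over the Gaussian integers for the quadratic characters times a character of
conductor `4 (1 + i)` (after `CN/Th`).
-/

set_option autoImplicit false
set_option linter.unusedSectionVars false

open Filter Complex
open scoped Topology PeriodPair
open H667R3 hiding sq
open Pool.Agent.TH936.CM Pool.Agent.W192.HK

namespace Run7.h26.QI

open Pool.Agent.Y699
open H385 (ZI RQ im1 nrm)
open Pool.Agent.H304R3.HK (tc)
open Pool.Agent.W164.RC (tc_mul tc_star two2 prim_iff_dvd)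
open Pool.Agent.H304R2.EC.A1 (prim prim_mul prim_cancel prim_one prim_norm_odd prim_star eq_one_of_prim
  norm_def' re_mul' im_mul' eq_of_dvd prim_ne_zero)

variable {L : PeriodPair} {Ω : ℂ} {ι : Type} [DecidableEq ι] {pr : ι → ZI}

/-- `4 (1 + i)` -/
def m5 : ZI := ⟨4, 4⟩

/-- a character on the primary elements -/
structure Sg (ep : ZI → ℤ) : Prop where
  cs : ∀ a, ep a = 1 ∨ ep a = -1
  mul : ∀ {a b : ZI}, prim a → prim b → ep (a * b) = ep a * ep b
  per : ∀ a t : ZI, ep (a + m5 * t) = ep a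
  five : ep 5 = -1

variable {ep : ZI → ℤ}

lemma Sg.one (he : Sg ep) : ep 1 = 1 := by
  have h := he.mul prim_one prim_one
  rw [mul_one] at h
  rcases he.cs 1 with h1 | h1
  · exact h1
  · rw [h1] at h; norm_num at h

lemma Sg.sq (he : Sg ep) (a : ZI) : ep a * ep a = 1 := by
  rcases he.cs a with h | h <;> rw [h] <;> norm_num

/-- the twisted character -/
noncomputable def ce (ep : ZI → ℤ) (pr : ι → ZI) (S T : Finset ι) (a : ZI) : ℂ := (ep a : ℂ) * cc pr S T a

lemma ep_abs (he : Sg ep) (a : ZI) : ‖(ep a : ℂ)‖ ≤ 1 := by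
  rcases he.cs a with h | h <;> rw [h] <;> simp

lemma ce_bd (he : Sg ep) (S T : Finset ι) (a : ZI) : ‖ce ep pr S T a‖ ≤ 1 := by
  unfold ce
  rw [norm_mul]
  exact mul_le_one₀ (ep_abs he a) (norm_nonneg _) (cc_bd S T a)

lemma cc_eq_zero {S T : Finset ι} {a : ZI} (h : ¬ (prim a ∧ ∀ i ∈ T, ¬ pr i ∣ a)) :
    cc pr S T a = 0 := by
  unfold cc
  rw [if_neg h]

lemma cc_eq {S T : Finset ι} {a : ZI} (h : prim a ∧ ∀ i ∈ T, ¬ pr i ∣ a) :
    cc pr S T a = (ch pr S a : ℂ) := by
  unfold cc
  rw [if_pos h]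

lemma RS_insert (he : Sg ep) (h : IsLat L RG Ω) (hp : PF pr) (S T : Finset ι) (i : ι) (hi : i ∉ T) {δ : ℝ}
    (hδ : 0 < δ) : RS (ce ep pr S (insert i T)) δ = RS (ce ep pr S T) δ -
      ((ep (pr i) : ℂ) * (ch pr S (pr i) : ℂ)) / tc (pr i) *
        RS (ce ep pr S T) (δ * Complex.normSq (tc (pr i))) := by
  classical
  have e1 : (fun b => ce ep pr S T (pr i * b)) =
      fun b => ((ep (pr i) : ℂ) * (ch pr S (pr i) : ℂ)) * ce ep pr S T b := by
    funext b
    unfold ce
    have h1 : (prim (pr i * b) ∧ ∀ j ∈ T, ¬ pr j ∣ pr i * b) ↔ (prim b ∧ ∀ j ∈ T, ¬ pr j ∣ b) := by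
      rw [prim_mul_iff (hp.pp i).prm]
      refine and_congr_right fun _ => forall₂_congr fun j hj => ?_
      rw [hp.dvd_mul (fun h' : i = j => hi (by rw [h']; exact hj))]
    by_cases h2 : prim b ∧ ∀ j ∈ T, ¬ pr j ∣ b
    · rw [cc_eq h2, cc_eq (h1.2 h2), ch_mul hp, he.mul (hp.pp i).prm h2.1]
      push_cast
      ring
    · rw [cc_eq_zero h2, cc_eq_zero (fun h => h2 (h1.1 h)), mul_zero, mul_zero, mul_zero]
  have e2 := RS_dvd (hp.pp i).ne (ce ep pr S T) δ
  rw [e1] at e2
  have e3 : RS (fun b => ((ep (pr i) : ℂ) * (ch pr S (pr i) : ℂ)) * ce ep pr S T b)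
      (δ * Complex.normSq (tc (pr i))) =
      ((ep (pr i) : ℂ) * (ch pr S (pr i) : ℂ)) * RS (ce ep pr S T) (δ * Complex.normSq (tc (pr i))) := by
    unfold RS
    rw [← tsum_mul_left]
    exact tsum_congr fun b => by ring
  rw [e3] at e2
  have e4 : RS (ce ep pr S (insert i T)) δ = RS (ce ep pr S T) δ -
      RS (fun a => if pr i ∣ a then ce ep pr S T a else 0) δ := by
    have s1 := summ_bd h hδ (ce_bd (pr := pr) he S T)
    have s2 := summ_bd h hδ (f := fun a => if pr i ∣ a then ce ep pr S T a else 0) (C := 1) (by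
      intro a
      split_ifs
      · exact ce_bd he S T a
      · simp)
    unfold RS
    rw [← s1.tsum_sub s2]
    refine tsum_congr fun a => ?_
    rw [← sub_mul]
    congr 1
    unfold ce
    by_cases h1 : pr i ∣ a
    · rw [cc_eq_zero (T := insert i T), if_pos h1, sub_self, mul_zero]
      rintro ⟨-, h2⟩
      exact h2 i (Finset.mem_insert_self _ _) h1
    · rw [if_neg h1, sub_zero]
      congr 1
      unfold cc
      refine if_congr (and_congr_right fun _ => ?_) rfl rfl
      constructor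
      · intro h2 j hj
        exact h2 j (Finset.mem_insert_of_mem hj)
      · intro h2 j hj
        rcases Finset.mem_insert.1 hj with rfl | hj
        · exact h1
        · exact h2 j hj
  rw [e4, e2]
  ring

theorem lim_ce (he : Sg ep) (h : IsLat L RG Ω) (hp : PF pr) (S : Finset ι) {l : ℂ}
    (hl : Tendsto (RS (ce ep pr S ∅)) (𝓝[>] 0) (𝓝 l)) (T : Finset ι) :
    Tendsto (RS (ce ep pr S T)) (𝓝[>] 0)
      (𝓝 (l * ∏ i ∈ T, (1 - (ep (pr i) : ℂ) * (ch pr S (pr i) : ℂ) / tc (pr i)))) := by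
  induction T using Finset.induction_on with
  | empty => rw [Finset.prod_empty, mul_one]; exact hl
  | insert i T hi ih =>
    have hn : 0 < Complex.normSq (tc (pr i)) := Complex.normSq_pos.2 (tc_ne (hp.pp i).ne)
    have h1 := ih.sub ((tendsto_scale ih hn).const_mul
      (((ep (pr i) : ℂ) * (ch pr S (pr i) : ℂ)) / tc (pr i)))
    rw [Finset.prod_insert hi]
    have e : l * ∏ i ∈ T, (1 - (ep (pr i) : ℂ) * (ch pr S (pr i) : ℂ) / tc (pr i)) -
        ((ep (pr i) : ℂ) * (ch pr S (pr i) : ℂ)) /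
        tc (pr i) * (l * ∏ i ∈ T, (1 - (ep (pr i) : ℂ) * (ch pr S (pr i) : ℂ) / tc (pr i))) =
        l * ((1 - (ep (pr i) : ℂ) * (ch pr S (pr i) : ℂ) / tc (pr i)) *
          ∏ i ∈ T, (1 - (ep (pr i) : ℂ) * (ch pr S (pr i) : ℂ) / tc (pr i))) := by ring
    rw [e] at h1
    refine h1.congr' ?_
    filter_upwards [self_mem_nhdsWithin] with δ (hδ : 0 < δ)
    exact (RS_insert he h hp S T i hi hδ).symm

open Classical in
/-- the primary elements with trivial symbols, with the character -/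
noncomputable def ke (ep : ZI → ℤ) (pr : ι → ZI) (V : Finset ι) (a : ZI) : ℂ :=
  if prim a ∧ ∀ i ∈ V, qr (pr i) a = 1 then (ep a : ℂ) else 0

lemma ke_bd (he : Sg ep) (V : Finset ι) (a : ZI) : ‖ke ep pr V a‖ ≤ 1 := by
  unfold ke
  split_ifs
  · exact ep_abs he a
  · simp

theorem sum_ce (V : Finset ι) (a : ZI) :
    ∑ S ∈ V.powerset, ce ep pr S (V \ S) a = 2 ^ V.card * ke ep pr V a := by
  classical
  by_cases ha : prim a
  · by_cases hc : ∃ i ∈ V, pr i ∣ a
    · obtain ⟨i, hi, hia⟩ := hc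
      have h1 : ke ep pr V a = 0 := by
        unfold ke
        rw [if_neg]
        rintro ⟨-, h2⟩
        have := h2 i hi
        rw [qr_zero_iff.2 hia] at this
        exact absurd this (by norm_num)
      rw [h1, mul_zero]
      refine Finset.sum_eq_zero fun S _ => ?_
      unfold ce
      by_cases hS : i ∈ S
      · have h2 : ch pr S a = 0 := Finset.prod_eq_zero hS (qr_zero_iff.2 hia)
        unfold cc
        rw [h2]
        simp
      · rw [cc_eq_zero, mul_zero]
        rintro ⟨-, h2⟩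
        exact h2 i (Finset.mem_sdiff.2 ⟨hi, hS⟩) hia
    · push Not at hc
      have h1 : ∀ S ∈ V.powerset, ce ep pr S (V \ S) a =
          (ep a : ℂ) * ((∏ i ∈ S, qr (pr i) a : ℤ) : ℂ) := by
        intro S _
        unfold ce
        rw [cc_eq ⟨ha, fun i hi => hc i (Finset.mem_sdiff.1 hi).1⟩]
        rfl
      rw [Finset.sum_congr rfl h1, ← Finset.mul_sum, ← Int.cast_sum, ← Finset.prod_one_add]
      unfold ke
      have hval : ∀ i ∈ V, qr (pr i) a = 1 ∨ qr (pr i) a = -1 := fun i hi => qr_cases (hc i hi)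
      by_cases hall : ∀ i ∈ V, qr (pr i) a = 1
      · rw [if_pos ⟨ha, hall⟩]
        have : ∏ i ∈ V, (1 + qr (pr i) a) = 2 ^ V.card := by
          rw [← Finset.prod_const]
          refine Finset.prod_congr rfl fun i hi => ?_
          rw [hall i hi]
          norm_num
        rw [this]
        push_cast
        ring
      · rw [if_neg (fun h => hall h.2), mul_zero]
        push Not at hall
        obtain ⟨i, hi, hne⟩ := hall
        rw [Finset.prod_eq_zero hi]
        · simp
        · rw [(hval i hi).resolve_left hne]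
          norm_num
  · unfold ke ce
    rw [if_neg (fun h => ha h.1), mul_zero]
    refine Finset.sum_eq_zero fun S _ => ?_
    rw [cc_eq_zero (fun h => ha h.1), mul_zero]


end Run7.h26.QI
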