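import Pool.Agent.Run7.h26.QI.Ku
import Pool.Agent.Run7.h26.CN.Gf

/-!
The combination of the Eisenstein series at four points: the limit, its square and its residue above
two.
-/

set_option autoImplicit false
set_option linter.unusedSectionVars false

open Filter Complex
open scoped Topology PeriodPair
open H667R3 hiding sq
open Pool.Agent.TH936.CM Pool.Agent.W192.HK

namespace Run7.h26.QI

open Pool.Agent.Y699
open Run7.h26.CN (Gt lim_Gt kp kp_val kp_ne Gt_cg unit_step sub_step diff_step lat_two diff_OT two_dz')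
open H385 (ZI RQ im1 nrm)
open Pool.Agent.H304R3.HK (tc)
open Pool.Agent.W164.RC (tc_mul tc_star two2 prim_iff_dvd)
open Pool.Agent.H304R2.EC.A1 (prim prim_mul prim_cancel prim_one prim_norm_odd prim_star eq_one_of_prim
  norm_def' re_mul' im_mul' eq_of_dvd prim_ne_zero)

variable {L : PeriodPair} {Ω : ℂ}

section alg

variable (h : GLat L Ω)
include h

/-- translation by `Ω / 2` -/
lemma tr_half {z : ℂ} (hz : 2 * z ∉ L.lattice) :
    ℘[L] (z + Ω / 2) * (℘[L] z - ℘[L] (Ω / 2)) = ℘[L] (Ω / 2) * ℘[L] z + 1 ∧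
      ℘[L] z - ℘[L] (Ω / 2) ≠ 0 := by
  have h0 := h.half
  have hz1 : z ∉ L.lattice := GLat.two_notMem hz
  have h1 : z + Ω / 2 ∉ L.lattice := by
    intro h'
    apply hz
    have := sub_mem (add_mem h' h') h.om
    have e : z + Ω / 2 + (z + Ω / 2) - Ω = 2 * z := by ring
    rwa [e] at this
  have h2 : z - Ω / 2 ∉ L.lattice := by
    intro h'
    apply hz
    have := add_mem (add_mem h' h') h.om
    have e : z - Ω / 2 + (z - Ω / 2) + Ω = 2 * z := by ring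
    rwa [e] at this
  have h3 : ℘[L] z - ℘[L] (Ω / 2) ≠ 0 := by
    rw [sub_ne_zero, Ne, wp_eq_iff L hz1 h0]
    tauto
  have hy0 : ℘'[L] (Ω / 2) = 0 := by
    have h4 := h.eqn h0
    have h5 := h.e1_sq
    have h6 : ℘'[L] (Ω / 2) ^ 2 = 0 := by
      rw [h4]; linear_combination (4 * ℘[L] (Ω / 2)) * h5
    exact pow_eq_zero_iff (two_ne_zero) |>.1 h6
  have h4 := wp_add L hz h0 h1 h2
  have h5 := h.eqn hz1
  have h6 := h.e1_sq
  refine ⟨?_, h3⟩
  rw [h4, hy0, h.g2]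
  set X := ℘[L] z
  set Y := ℘'[L] z
  set e := ℘[L] (Ω / 2)
  have h7 : 2 * (X - e) ^ 2 ≠ 0 := mul_ne_zero two_ne_zero (pow_ne_zero 2 h3)
  have key : (X - ((6 * X ^ 2 - 4 / 2) * (X - e) - (Y - 0) * Y) / (2 * (X - e) ^ 2)) * (X - e) *
      (2 * (X - e)) = (e * X + 1) * (2 * (X - e)) := by
    have e1 : (X - ((6 * X ^ 2 - 4 / 2) * (X - e) - (Y - 0) * Y) / (2 * (X - e) ^ 2)) * (X - e) *
      (2 * (X - e)) = X * (2 * (X - e) ^ 2) - ((6 * X ^ 2 - 4 / 2) * (X - e) - (Y - 0) * Y) := by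
      field_simp
    rw [e1]
    linear_combination h5 + 4 * X * h6
  exact mul_right_cancel₀ (mul_ne_zero two_ne_zero h3) key

/-- the square and the product -/
lemma gt_sq (hk : kp L Ω ≠ 0) {w : ℂ} (hw1 : 2 * ((1 + I) * w) ∉ L.lattice)
    (hw2 : 2 * (w + dz Ω) ∉ L.lattice) :
    Gt L Ω w ^ 2 = kp L Ω ^ 2 * (℘[L] (Ω / 2) * ℘[L] ((1 + I) * w)) ∧
    Gt L Ω w * Gt L Ω (w + Ω / 2) = kp L Ω ^ 2 * (℘[L] (Ω / 2) * ℘[L] (dz Ω)) := by
  have hx0 := h.x0_ne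
  have he1 := h.e1_sq
  have hx0s := h.x0_sq
  obtain ⟨t1, t2⟩ := tr_half h hw2
  obtain ⟨t3, t4⟩ := tr_half h hw1
  obtain ⟨m1, m2⟩ := h.mul_pi hw2
  obtain ⟨-, m3⟩ := h.mul_pi hw1
  have hd := h.diff_sq hw2
  have hE : ℘'[L] (dz Ω) = 2 * ℘[L] (dz Ω) * kp L Ω := by
    unfold kp Est
    field_simp
    ring
  have eq1 : (1 + I) * (w + dz Ω) = (1 + I) * w + Ω / 2 := by rw [mul_add, pi_dz]
  rw [eq1] at m1 hd
  set X := ℘[L] (w + dz Ω) with hX
  set x4 := ℘[L] ((1 + I) * w) with hx4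
  set q := ℘[L] ((1 + I) * w + Ω / 2) with hq
  set e1 := ℘[L] (Ω / 2) with he
  set x0 := ℘[L] (dz Ω) with hx
  have hxe : x0 = I * e1 := h.x0
  have he10 : e1 ≠ 0 := by rintro h0; rw [h0] at he1; norm_num at he1
  -- q - e1, q + e1
  have hqm : (q - e1) * (x4 - e1) = 2 := by linear_combination t3 + he1
  have hqp : (q + e1) * (x4 - e1) = 2 * e1 * x4 := by linear_combination t3 - he1
  have hqm0 : q - e1 ≠ 0 := by
    intro h0; rw [h0, zero_mul] at hqm; norm_num at hqm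
  have hqp0 : q + e1 ≠ 0 := by
    intro h0
    rw [h0, zero_mul] at hqp
    exact mul_ne_zero (mul_ne_zero two_ne_zero he10) m3 hqp.symm
  have hd2 : (X + x0) ^ 2 = 2 * I * X * (q + e1) := by
    linear_combination hd + 4 * X * hxe
  have hXm : X - x0 ≠ 0 := by
    intro h0
    rw [h0] at hd
    have : 2 * I * X * (q - e1) ≠ 0 :=
      mul_ne_zero (mul_ne_zero (mul_ne_zero two_ne_zero I_ne_zero) m2) hqm0
    exact this (by rw [← hd]; ring)
  have hXp : X + x0 ≠ 0 := by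
    intro h0
    rw [h0] at hd2
    have : 2 * I * X * (q + e1) ≠ 0 :=
      mul_ne_zero (mul_ne_zero (mul_ne_zero two_ne_zero I_ne_zero) m2) hqp0
    exact this (by rw [← hd2]; ring)
  have key : ∀ z : ℂ, ℘[L] (z + dz Ω) - x0 ≠ 0 →
      Gt L Ω z * (℘[L] (z + dz Ω) - x0) = kp L Ω * (℘[L] (z + dz Ω) + x0) := by
    intro z hz
    have e1' : Gt L Ω z = kp L Ω - Dd L (dz Ω) (z + dz Ω) := by unfold Gt kp; ring
    have hz' : x0 - ℘[L] (z + dz Ω) ≠ 0 := by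
      intro h0; apply hz; linear_combination -h0
    rw [e1']
    unfold Dd
    rw [← hx, hE]
    field_simp
    ring
  have hA := key w hXm
  rw [← hX] at hA
  have eu : w + Ω / 2 + dz Ω = w + dz Ω + Ω / 2 := by ring
  set X' := ℘[L] (w + dz Ω + Ω / 2) with hX'
  have hm' : (X' - x0) * (X - e1) = (e1 - x0) * (X + x0) := by
    linear_combination t1 + hx0s
  have hp' : (X' + x0) * (X - e1) = (e1 + x0) * (X - x0) := by
    linear_combination t1 + hx0s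
  have hex : e1 - x0 ≠ 0 := by
    intro h0
    have : e1 ^ 2 = x0 ^ 2 := by rw [sub_eq_zero.1 h0]
    rw [he1, hx0s] at this
    norm_num at this
  have hX'm : X' - x0 ≠ 0 := by
    intro h0
    rw [h0, zero_mul] at hm'
    exact mul_ne_zero hex hXp hm'.symm
  have hB := key (w + Ω / 2) (by rw [eu]; exact hX'm)
  rw [eu] at hB
  refine ⟨?_, ?_⟩
  · have h1 : Gt L Ω w ^ 2 * (X - x0) ^ 2 = (kp L Ω ^ 2 * (e1 * x4)) * (X - x0) ^ 2 := by
      have e2 : Gt L Ω w ^ 2 * (X - x0) ^ 2 = (Gt L Ω w * (X - x0)) ^ 2 := by ring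
      rw [e2, hA, mul_pow, hd2, hd]
      have e3 : (q + e1) * (x4 - e1) = (e1 * x4) * (q - e1) * (x4 - e1) := by
        linear_combination hqp - e1 * x4 * hqm
      have e4 : q + e1 = (e1 * x4) * (q - e1) := mul_right_cancel₀ t4 e3
      rw [e4]
      ring
    exact mul_right_cancel₀ (pow_ne_zero 2 hXm) h1
  · have h1 : Gt L Ω w * Gt L Ω (w + Ω / 2) * ((X - x0) * (X' - x0) * (X - e1)) =
        kp L Ω ^ 2 * (e1 * x0) * ((X - x0) * (X' - x0) * (X - e1)) := by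
      have e2 : Gt L Ω w * Gt L Ω (w + Ω / 2) * ((X - x0) * (X' - x0) * (X - e1)) =
        (Gt L Ω w * (X - x0)) * (Gt L Ω (w + Ω / 2) * (X' - x0)) * (X - e1) := by ring
      rw [e2, hA, hB]
      have e3 : kp L Ω * (X + x0) * (kp L Ω * (X' + x0)) * (X - e1) =
        kp L Ω ^ 2 * (X + x0) * ((X' + x0) * (X - e1)) := by ring
      have e4 : kp L Ω ^ 2 * (e1 * x0) * ((X - x0) * (X' - x0) * (X - e1)) =
        kp L Ω ^ 2 * (e1 * x0) * (X - x0) * ((X' - x0) * (X - e1)) := by ring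
      rw [e3, e4, hp', hm']
      linear_combination (kp L Ω ^ 2 * (X + x0) * (X - x0) * x0) * (- he1) +
        (kp L Ω ^ 2 * (X + x0) * (X - x0) * e1) * hx0s
    exact mul_right_cancel₀ (mul_ne_zero (mul_ne_zero hXm hX'm) t2) h1

/-- the combination of the four series -/
noncomputable def Gs (L : PeriodPair) (Ω σ z : ℂ) : ℂ :=
  Gt L Ω (Ω * tc 1 / tc m5 + z) - σ * Gt L Ω (Ω * tc 1 / tc m5 + z + Ω / 2)

lemma gs_sq (hk : kp L Ω ≠ 0) {σ : ℂ} (hσ : σ ^ 2 = 1) {z : ℂ}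
    (hw1 : 2 * ((1 + I) * (Ω * tc 1 / tc m5 + z)) ∉ L.lattice)
    (hw2 : 2 * (Ω * tc 1 / tc m5 + z + dz Ω) ∉ L.lattice) :
    Gs L Ω σ z ^ 2 * (℘[L] (Ω / 2) * ℘[L] ((1 + I) * (Ω * tc 1 / tc m5 + z))) =
      kp L Ω ^ 2 * (℘[L] ((1 + I) * (Ω * tc 1 / tc m5 + z)) - σ * ℘[L] (dz Ω)) ^ 2 := by
  obtain ⟨h1, h2⟩ := gt_sq h hk hw1 hw2
  have he1 := h.e1_sq
  have hx0s := h.x0_sq
  unfold Gs
  set A := Gt L Ω (Ω * tc 1 / tc m5 + z)
  set B := Gt L Ω (Ω * tc 1 / tc m5 + z + Ω / 2)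
  set x4 := ℘[L] ((1 + I) * (Ω * tc 1 / tc m5 + z))
  set e1 := ℘[L] (Ω / 2)
  set x0 := ℘[L] (dz Ω)
  set k := kp L Ω
  have hB : B ^ 2 * (e1 * x4) = -k ^ 2 := by
    have e2 : (B ^ 2 * (e1 * x4)) * k ^ 2 = (-k ^ 2) * k ^ 2 := by
      have e3 : (B ^ 2 * (e1 * x4)) * k ^ 2 = (A * B) ^ 2 := by rw [mul_pow, h1]; ring
      rw [e3, h2]
      linear_combination (k ^ 4 * x0 ^ 2) * he1 + k ^ 4 * hx0s
    exact mul_right_cancel₀ (pow_ne_zero 2 hk) e2
  linear_combination (e1 * x4) * h1 - (2 * σ * e1 * x4) * h2 + σ ^ 2 * hB +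
    (k ^ 2 * x4 ^ 2 - 2 * σ * k ^ 2 * x4 * x0) * he1 - k ^ 2 * σ ^ 2 * hx0s

end alg

end Run7.h26.QI
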