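import Pool.Agent.Run7.h26.QI.Gf

/-!
The limit of the combination, and its residue above two.
-/

set_option autoImplicit false
set_option linter.unusedSectionVars false

open Filter Complex
open scoped Topology PeriodPair
open H667R3 hiding sq
open Pool.Agent.TH936.CM Pool.Agent.W192.HK

namespace Run7.h26.QI

open Pool.Agent.Y699
open Run7.h26.CN (Gt lim_Gt kp kp_val kp_ne Gt_cg unit_step sub_step diff_step lat_two diff_OT two_dz'
  dz_four)
open H385 (ZI RQ im1 nrm)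
open Pool.Agent.H304R3.HK (tc)
open Pool.Agent.W164.RC (tc_mul tc_star two2 prim_iff_dvd)
open Pool.Agent.H304R2.EC.A1 (prim prim_mul prim_cancel prim_one prim_norm_odd prim_star eq_one_of_prim
  norm_def' re_mul' im_mul' eq_of_dvd prim_ne_zero)

variable {L : PeriodPair} {Ω : ℂ}

/-- points killed by an odd element -/
def OL (L : PeriodPair) (z : ℂ) : Prop := ∃ D : ZI, IsCoprime D pi1 ∧ tc D * z ∈ L.lattice

lemma OL.mul (h : IsLat L RG Ω) {z : ℂ} (hz : OL L z) (c : ZI) : OL L (tc c * z) := by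
  obtain ⟨D, hD, hz⟩ := hz
  refine ⟨D, hD, ?_⟩
  have := lat_mul h c hz
  have e : tc D * (tc c * z) = tc c * (tc D * z) := by ring
  rwa [e]

/-- an odd multiple of a point of even order plus a point of odd order -/
lemma OL.nm (h : IsLat L RG Ω) {z : ℂ} (hz : OL L z) {b r : ZI} (hb : b ≠ 0) (hb1 : pi1 ∣ b)
    (hr : r.norm % 2 = 1) : Ω * tc r / tc b + z ∉ L.lattice := by
  intro h'
  obtain ⟨D, hD, hz⟩ := hz
  have h1 := sub_mem (lat_mul h D h') hz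
  have e : tc D * (Ω * tc r / tc b + z) - tc D * z = Ω * tc (D * r) / tc b := by
    rw [tc_mul]
    ring
  rw [e] at h1
  refine div_notMem h hb ?_ h1
  intro h2
  have h3 : pi1 ∣ D * r := hb1.trans h2
  have h4 : ¬ pi1 ∣ r := (norm_odd_iff r).1 hr
  rcases pi1_prime.dvd_or_dvd h3 with h5 | h5
  · have h6 := hD.isUnit_of_dvd' h5 dvd_rfl
    exact pi1_prime.not_unit h6
  · exact h4 h5

lemma OT.ol {z : ℂ} (hz : OT L z) : OL L z := hz.ex

lemma OL.of_mem {z : ℂ} (hz : z ∈ L.lattice) : OL L z :=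
  ⟨1, isCoprime_one_left, by rwa [tc_one, one_mul]⟩

lemma pi1_m5 : pi1 ∣ m5 := ⟨4, by decide⟩

lemma w_dz : Ω * tc 1 / tc m5 + dz Ω = Ω * tc 3 / tc m5 := by
  have e3 : tc (3 : ZI) = 3 := by
    have := tc_int 3
    push_cast at this
    exact this
  unfold dz
  rw [tc_one, tc_m5, e3]
  have := one_I_ne
  have e : (2 + 2 * I : ℂ) = 2 * (1 + I) := by ring
  rw [e]
  field_simp
  ring

lemma w_half (u : ZI) : Ω * tc u / tc m5 + Ω / 2 = Ω * tc (u + two2) / tc m5 := by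
  rw [tc_add, tc_two2, tc_m5]
  have := one_I_ne
  field_simp
  ring

lemma w_pi : (1 + I) * (Ω * tc 1 / tc m5) = Ω * tc 1 / 4 := by
  rw [tc_one, tc_m5]
  have := one_I_ne
  field_simp

lemma w_shift (h : IsLat L RG Ω) (u : ZI) : Ω * tc (u + 4) / tc m5 - (Ω * tc u / tc m5 + (1 + I) * Ω / 2) ∈
    L.lattice := by
  refine (mem_lat h).2 ⟨⟨0, -1⟩, ?_⟩
  have e4 : tc (4 : ZI) = 4 := by
    have := tc_int 4
    push_cast at this
    exact this
  have e : tc (⟨0, -1⟩ : ZI) = -I := by unfold tc; push_cast; ring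
  rw [tc_add, e4, tc_m5, e]
  have h1 := inv_one_I
  have h2 : Ω * (tc u + 4) / (4 * (1 + I)) = Ω * (tc u + 4) / 4 * (1 + I)⁻¹ := by
    have := one_I_ne
    field_simp
  have h3 : Ω * tc u / (4 * (1 + I)) = Ω * tc u / 4 * (1 + I)⁻¹ := by
    have := one_I_ne
    field_simp
  rw [h2, h3, h1]
  ring

/-- the limit -/
theorem lim_Gs (h : GLat L Ω) {ep : ZI → ℤ} (he : Sg ep) {z : ℂ} (hz : OL L z) :
    Tendsto (fun δ : ℝ => ∑ k : Fin 4, (ep (cl k) : ℂ) * EG Ω δ (Ω * tc (cl k) / tc m5 + z)) (𝓝[>] 0)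
      (𝓝 (Gs L Ω (-(ep ⟨3, 2⟩ : ℂ)) z)) := by
  have hL := h.lat
  have nm : ∀ r : ZI, r.norm % 2 = 1 → Ω * tc r / tc m5 + z ∉ L.lattice := fun r hr =>
    hz.nm hL m5_ne pi1_m5 hr
  have e2dz : ∀ u : ZI, Ω * tc u / tc m5 + z + dz Ω = Ω * tc (u + 2) / tc m5 + z := by
    intro u
    have e2 : tc (2 : ZI) = 2 := by
      have := tc_int 2
      push_cast at this
      exact this
    unfold dz
    rw [tc_add, tc_m5, e2]
    have := one_I_ne
    have e : (2 + 2 * I : ℂ) = 2 * (1 + I) := by ring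
    rw [e]
    field_simp
    ring
  have key : ∀ u : ZI, u.norm % 2 = 1 → (u + 2).norm % 2 = 1 → (u + 2 + 2).norm % 2 = 1 →
      Tendsto (fun δ : ℝ => EG Ω δ (Ω * tc u / tc m5 + z) - EG Ω δ (Ω * tc (u + 4) / tc m5 + z))
        (𝓝[>] 0) (𝓝 (Gt L Ω (Ω * tc u / tc m5 + z))) := by
    intro u h1 h2 h3
    have h4 := lim_Gt h (z := Ω * tc u / tc m5 + z) (nm u h1) (by rw [e2dz]; exact nm _ h2)
      (by
        have e : Ω * tc u / tc m5 + z + 2 * dz Ω = Ω * tc u / tc m5 + z + dz Ω + dz Ω := by ring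
        rw [e, e2dz, e2dz]
        exact nm _ h3)
    refine h4.congr fun δ => ?_
    congr 1
    refine EG_per hL δ ?_
    have e : Ω * tc u / tc m5 + z + (1 + I) * Ω / 2 - (Ω * tc (u + 4) / tc m5 + z) =
      -(Ω * tc (u + 4) / tc m5 - (Ω * tc u / tc m5 + (1 + I) * Ω / 2)) := by ring
    rw [e]
    exact neg_mem (w_shift hL u)
  have k1 := key 1 (by decide) (by decide) (by decide)
  have k2 := key ⟨3, 2⟩ (by decide) (by decide) (by decide)
  have hc7 : ep ⟨-1, 2⟩ = -ep ⟨3, 2⟩ := by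
    have h1 : ep (⟨3, 2⟩ * 5) = ep ⟨3, 2⟩ * ep 5 :=
      he.mul (by unfold prim; decide) (by unfold prim; decide)
    have h2 : (⟨3, 2⟩ * 5 : ZI) = ⟨-1, 2⟩ + m5 * ⟨3, -1⟩ := by decide
    rw [h2, he.per, he.five] at h1
    rw [h1]; ring
  have hper7 : ∀ δ : ℝ, EG Ω δ (Ω * tc (⟨3, 2⟩ + 4) / tc m5 + z) =
      EG Ω δ (Ω * tc ⟨-1, 2⟩ / tc m5 + z) := by
    intro δ
    refine EG_per hL δ ?_
    refine (mem_lat hL).2 ⟨⟨1, -1⟩, ?_⟩
    have e1 : tc (⟨3, 2⟩ + 4 : ZI) = 7 + 2 * I := by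
      have : (⟨3, 2⟩ + 4 : ZI) = ⟨7, 2⟩ := by decide
      rw [this]; unfold tc; push_cast; ring
    have e2 : tc (⟨-1, 2⟩ : ZI) = -1 + 2 * I := by unfold tc; push_cast; ring
    have e3 : tc (⟨1, -1⟩ : ZI) = 1 - I := by unfold tc; push_cast; ring
    rw [e1, e2, e3, tc_m5]
    have := one_I_ne
    field_simp
    linear_combination (4 : ℂ) * Ω * I_sq
  have hlim := k1.add (k2.const_mul (ep ⟨3, 2⟩ : ℂ))
  have e0 : Gt L Ω (Ω * tc 1 / tc m5 + z) + (ep ⟨3, 2⟩ : ℂ) * Gt L Ω (Ω * tc ⟨3, 2⟩ / tc m5 + z) =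
      Gs L Ω (-(ep ⟨3, 2⟩ : ℂ)) z := by
    unfold Gs
    have e1 : Ω * tc 1 / tc m5 + z + Ω / 2 = Ω * tc ⟨3, 2⟩ / tc m5 + z := by
      have e2 : Ω * tc 1 / tc m5 + z + Ω / 2 = Ω * tc 1 / tc m5 + Ω / 2 + z := by ring
      rw [e2, w_half]
      rfl
    rw [e1]
    ring
  rw [e0] at hlim
  refine hlim.congr fun δ => ?_
  rw [Fin.sum_univ_four]
  have c0 : cl 0 = 1 := rfl
  have c1 : cl 1 = 5 := rfl
  have c2 : cl 2 = ⟨3, 2⟩ := rfl
  have c3 : cl 3 = ⟨-1, 2⟩ := rfl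
  have e14 : (1 + 4 : ZI) = 5 := by decide
  rw [c0, c1, c2, c3, he.one, he.five, hc7, hper7, e14]
  push_cast
  ring

section val

variable {Γ : Type*} [LinearOrderedCommGroupWithZero Γ] {v : Valuation ℂ Γ} (h2 : v 2 < 1)
  (h : GLat L Ω)

/-- the abscissa of the fourth point -/
noncomputable def x4 (L : PeriodPair) (Ω z : ℂ) : ℂ := ℘[L] ((1 + I) * (Ω * tc 1 / tc m5 + z))

include h in
lemma a_rel : ℘[L] (Ω / 4) ^ 2 - 1 = -(2 * I * ℘[L] (Ω / 4) * ℘[L] (dz Ω)) := by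
  have hw : 2 * (Ω / 4) ∉ L.lattice := by
    have e : 2 * (Ω / 4) = Ω / 2 := by ring
    rw [e]; exact h.half
  obtain ⟨h1, -⟩ := h.mul_pi hw
  have e : (1 + I) * (Ω / 4) = I * dz Ω := by
    rw [dz_four]
    unfold tc
    push_cast
    linear_combination (Ω / 4) * I_sq
  rw [e, wp_I h.lat] at h1
  rw [← h1]
  ring

include h2 h

lemma a_val : v (℘[L] (Ω / 4)) = 1 ∧ v (℘[L] (Ω / 4) - ℘[L] (dz Ω)) ^ 2 = v (1 + I) ^ 3 := by
  have e1 : 2 * (Ω / 4) = Ω / 2 := by ring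
  have hw : 2 * (Ω / 4) ∉ L.lattice := by rw [e1]; exact h.half
  have e3 : (1 + I) * ((1 + I) * (Ω / 4)) = I * (Ω / 2) := by
    linear_combination (Ω / 4) * I_sq
  have hw1 : 2 * ((1 + I) * (Ω / 4)) ∉ L.lattice := by
    have e : (1 + I) * (Ω / 4) = I * dz Ω := by
      rw [dz_four]
      unfold tc
      push_cast
      linear_combination (Ω / 4) * I_sq
    rw [e]
    intro h'
    apply h.two_dz
    have h1 := neg_mem (lat_I h.lat h')
    have e2 : -(I * (2 * (I * dz Ω))) = 2 * dz Ω := by linear_combination (-2 * dz Ω) * I_sq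
    rwa [e2] at h1
  have hc : v (℘[L] ((1 + I) * ((1 + I) * (Ω / 4)))) = 1 := by
    rw [e3, wp_I h.lat, Valuation.map_neg]
    apply v_pow_one (n := 2) (by norm_num)
    rw [← map_pow, h.e1_sq, map_one]
  have hu := unit_step h2 h hw1 hc.le
  exact ⟨unit_step h2 h hw hu.le, diff_step h2 h hw hw1 hc⟩

lemma add_x0 {y : ℂ} (hy : v (y - ℘[L] (dz Ω)) ^ 2 = v (1 + I) ^ 3) :
    v (y + ℘[L] (dz Ω)) = v (y - ℘[L] (dz Ω)) := by
  have hg := v_pi_lt h2
  have hg0 := v_pi_ne (v := v)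
  have e : y + ℘[L] (dz Ω) = (y - ℘[L] (dz Ω)) + 2 * ℘[L] (dz Ω) := by ring
  rw [e]
  apply Valuation.map_add_eq_of_lt_left
  rw [map_mul, x0_val h2 h, mul_one, ← v_pi_sq]
  by_contra hc
  push Not at hc
  have h7 : v (y - ℘[L] (dz Ω)) ^ 2 ≤ (v (1 + I) ^ 2) ^ 2 := pow_le_pow_left₀ zero_le hc 2
  rw [hy, ← pow_mul] at h7
  have h8 : v (1 + I) ^ (2 * 2) < v (1 + I) ^ 3 := by
    calc v (1 + I) ^ (2 * 2) = v (1 + I) ^ 3 * v (1 + I) := by rw [← pow_succ]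
      _ < v (1 + I) ^ 3 * 1 := mul_lt_mul_of_pos_left hg (pow_pos (zero_lt_iff.2 hg0) 3)
      _ = v (1 + I) ^ 3 := mul_one _
  exact absurd h8 (not_lt.2 h7)

lemma sig_x0 {y σ : ℂ} (hσ : σ = 1 ∨ σ = -1) (hy : v (y - ℘[L] (dz Ω)) ^ 2 = v (1 + I) ^ 3) :
    v (y - σ * ℘[L] (dz Ω)) ^ 2 = v (1 + I) ^ 3 := by
  rcases hσ with rfl | rfl
  · rw [one_mul, hy]
  · have e : y - -1 * ℘[L] (dz Ω) = y + ℘[L] (dz Ω) := by ring
    rw [e, add_x0 h2 h hy, hy]

/-- the distance of the abscissas -/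
lemma x4_dist {z : ℂ} (hz : OT L z) : v (x4 L Ω z - ℘[L] (Ω / 4)) ^ 2 < v (1 + I) ^ 3 := by
  have hg := v_pi_lt h2
  have hg0 := v_pi_ne (v := v)
  obtain ⟨ha, had⟩ := a_val h2 h
  have har := a_rel h
  set z' := (1 + I) * z with hz'
  have hzO : OT L z' := by
    have := hz.pow h 1
    rwa [pow_one] at this
  have ew : (1 + I) * (Ω * tc 1 / tc m5 + z) = Ω * tc 1 / 4 + z' := by rw [mul_add, w_pi]
  have hx4 : x4 L Ω z = ℘[L] (Ω * tc 1 / 4 + z') := by unfold x4; rw [ew]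
  have hd4 := diff_OT h2 h hzO 1
  -- the third point
  have hzI : OT L (-I * ((1 + I) * z')) := by
    have h1 := hzO.pow h 1
    rw [pow_one] at h1
    refine ⟨fun h' => h1.nm ?_, ?_⟩
    · have h3 := lat_I h.lat h'
      have e : I * (-I * ((1 + I) * z')) = (1 + I) * z' := by linear_combination (-(1 + I) * z') * I_sq
      rwa [e] at h3
    · obtain ⟨D, hD, hDz⟩ := h1.ex
      refine ⟨D, hD, ?_⟩
      have h3 := neg_mem (lat_I h.lat hDz)
      have e : tc D * (-I * ((1 + I) * z')) = -(I * (tc D * ((1 + I) * z'))) := by ring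
      rwa [e]
  have hd3 := diff_OT h2 h hzI ⟨1, -1⟩
  have e3 : (1 + I) * (Ω * tc 1 / 4 + z') = I * (Ω * tc ⟨1, -1⟩ / 4 + -I * ((1 + I) * z')) := by
    rw [tc_one]
    unfold tc
    push_cast
    linear_combination (Ω / 4 + (1 + I) * z') * I_sq
  have hx3 : v (℘[L] ((1 + I) * (Ω * tc 1 / 4 + z')) + ℘[L] (dz Ω)) ^ 2 = v (1 + I) ^ 3 := by
    rw [e3, wp_I h.lat]
    have e : -℘[L] (Ω * tc ⟨1, -1⟩ / 4 + -I * ((1 + I) * z')) + ℘[L] (dz Ω) =
      -(℘[L] (Ω * tc ⟨1, -1⟩ / 4 + -I * ((1 + I) * z')) - ℘[L] (dz Ω)) := by ring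
    rw [e, Valuation.map_neg, hd3]
  have hw4 : 2 * (Ω * tc 1 / 4 + z') ∉ L.lattice := by
    have h5 := (OT.ol hzO).mul h.lat 2
    have h6 := h5.nm h.lat (b := 2) (r := 1) (by decide) ⟨⟨1, -1⟩, by decide⟩ (by decide)
    have e2 : tc (2 : ZI) = 2 := by
      have := tc_int 2
      push_cast at this
      exact this
    rw [e2] at h6
    have e : 2 * (Ω * tc 1 / 4 + z') = Ω * tc 1 / 2 + 2 * z' := by ring
    rwa [e]
  obtain ⟨h5, -⟩ := h.mul_pi hw4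
  set y := ℘[L] (Ω * tc 1 / 4 + z') with hy
  set y3 := ℘[L] ((1 + I) * (Ω * tc 1 / 4 + z')) with hy3
  set a := ℘[L] (Ω / 4) with hadef
  set x0 := ℘[L] (dz Ω) with hx0
  rw [hx4]
  -- v y = 1
  have hxv := x0_val (v := v) h2 h
  have hdlt : ∀ t : ℂ, v (t - x0) ^ 2 = v (1 + I) ^ 3 → v (t - x0) < 1 := by
    intro t ht
    by_contra hc
    push Not at hc
    have h6 : 1 ≤ v (t - x0) ^ 2 := one_le_pow₀ hc
    rw [ht] at h6
    exact absurd h6 (not_le.2 (pow_lt_one₀ zero_le hg (by norm_num)))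
  have hyv : v y = 1 := by
    have e : y = (y - x0) + x0 := by ring
    rw [e, Valuation.map_add_eq_of_lt_right v (by rw [hxv]; exact hdlt y hd4), hxv]
  have hprod : (y - a) * (a * y + 1) = 2 * I * a * y * (y3 + x0) := by
    linear_combination (-a) * h5 + (-y) * har
  have hv1 : (v (y - a) * v (a * y + 1)) ^ 2 = v (1 + I) ^ 7 := by
    rw [← map_mul, hprod, map_mul, map_mul, map_mul, map_mul, v_I, ha, hyv, mul_one, mul_one, mul_one,
      mul_pow, hx3, ← v_pi_sq, ← pow_mul, ← pow_add]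
  have hv2 : v (a ^ 2 + 1) = v (1 + I) ^ 3 := by
    have e : a ^ 2 + 1 = (a - x0) * (a + x0) := by
      have := h.x0_sq
      linear_combination this
    rw [e, map_mul, add_x0 h2 h had, ← sq, had]
  by_contra hc
  push Not at hc
  set A := v (y - a) with hA
  have hg3 : v (1 + I) ^ 3 ≠ 0 := pow_ne_zero 3 hg0
  have hA3 : v (1 + I) ^ 3 < A := by
    by_contra h6
    push Not at h6
    have h7 : A ^ 2 ≤ (v (1 + I) ^ 3) ^ 2 := pow_le_pow_left₀ zero_le h6 2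
    have h8 := hc.trans h7
    have h9 : (v (1 + I) ^ 3) ^ 2 < v (1 + I) ^ 3 := by
      rw [sq]
      calc v (1 + I) ^ 3 * v (1 + I) ^ 3 < v (1 + I) ^ 3 * 1 :=
            mul_lt_mul_of_pos_left (pow_lt_one₀ zero_le hg (by norm_num)) (zero_lt_iff.2 hg3)
        _ = v (1 + I) ^ 3 := mul_one _
    exact absurd h9 (not_lt.2 h8)
  have hB : v (a * y + 1) = A := by
    have e : a * y + 1 = a * (y - a) + (a ^ 2 + 1) := by ring
    rw [e, Valuation.map_add_eq_of_lt_left v (by rw [map_mul, ha, one_mul, hv2]; exact hA3), map_mul, ha,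
      one_mul]
  rw [hB] at hv1
  have h10 : v (1 + I) ^ 6 ≤ (A * A) ^ 2 := by
    have : (v (1 + I) ^ 3) ^ 2 ≤ (A ^ 2) ^ 2 := pow_le_pow_left₀ zero_le hc 2
    rw [← pow_mul] at this
    rwa [← sq]
  rw [hv1] at h10
  have h11 : v (1 + I) ^ 7 < v (1 + I) ^ 6 := by
    calc v (1 + I) ^ 7 = v (1 + I) ^ 6 * v (1 + I) := by rw [← pow_succ]
      _ < v (1 + I) ^ 6 * 1 := mul_lt_mul_of_pos_left hg (pow_pos (zero_lt_iff.2 hg0) 6)
      _ = v (1 + I) ^ 6 := mul_one _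
  exact absurd h11 (not_lt.2 h10)

/-- a square root of one modulo the maximal ideal -/
lemma cg_sqrt {x : ℂ} (hx : Cg v (x ^ 2) 1) : Cg v x 1 := by
  have h1 : v x = 1 := by
    apply v_pow_one (n := 2) (by norm_num)
    have e : x ^ 2 = (x ^ 2 - 1) + 1 := by ring
    rw [← map_pow, e, Valuation.map_add_eq_of_lt_right v (by rw [map_one]; exact hx.s), map_one]
  have hone : v (1 : ℂ) ≤ 1 := by rw [map_one]
  refine ⟨h1.le, hone, ?_⟩
  have h3 : v (x - 1) ^ 2 < 1 := by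
    rw [← map_pow]
    have e : (x - 1) ^ 2 = (x ^ 2 - 1) - 2 * (x - 1) := by ring
    rw [e]
    refine lt_of_le_of_lt (v.map_sub _ _) (max_lt hx.s ?_)
    rw [map_mul]
    calc v 2 * v (x - 1) ≤ v 2 * 1 := by
          refine mul_le_mul_right ?_ _
          refine (v.map_sub _ _).trans (max_le h1.le hone)
      _ = v 2 := mul_one _
      _ < 1 := h2
  by_contra hc
  push Not at hc
  exact absurd h3 (not_lt.2 (one_le_pow₀ hc))

lemma conds {z : ℂ} (hz : OL L z) : 2 * ((1 + I) * (Ω * tc 1 / tc m5 + z)) ∉ L.lattice ∧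
    2 * (Ω * tc 1 / tc m5 + z + dz Ω) ∉ L.lattice := by
  have e2 : tc (2 : ZI) = 2 := by
    have := tc_int 2
    push_cast at this
    exact this
  constructor
  · have h5 := (hz.mul h.lat (2 * pi1)).nm h.lat (b := 2) (r := 1) (by decide)
      ⟨⟨1, -1⟩, by decide⟩ (by decide)
    rw [e2, tc_mul, tc_pi1, e2] at h5
    have e : 2 * ((1 + I) * (Ω * tc 1 / tc m5 + z)) = Ω * tc 1 / 2 + 2 * (1 + I) * z := by
      rw [mul_add (1 + I), w_pi]
      ring
    rwa [e]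
  · have h5 := (hz.mul h.lat 2).nm h.lat (b := two2) (r := 3) two2_ne
      ⟨2, by decide⟩ (by decide)
    rw [e2] at h5
    have e : 2 * (Ω * tc 1 / tc m5 + z + dz Ω) = Ω * tc 3 / tc two2 + 2 * z := by
      have e3 : Ω * tc 1 / tc m5 + z + dz Ω = (Ω * tc 1 / tc m5 + dz Ω) + z := by ring
      rw [e3, w_dz, mul_add]
      congr 1
      rw [tc_m5, tc_two2]
      have := one_I_ne
      have e : (2 + 2 * I : ℂ) = 2 * (1 + I) := by ring
      rw [e]
      field_simp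
      ring
    rwa [e]

/-- all values are congruent to the value at zero -/
theorem Gs_cg {σ : ℂ} (hσ : σ = 1 ∨ σ = -1) {z : ℂ} (hz : OL L z)
    (hd : v (x4 L Ω z - ℘[L] (Ω / 4)) ^ 2 < v (1 + I) ^ 3) :
    Gs L Ω σ 0 ≠ 0 ∧ Cg v (Gs L Ω σ z / Gs L Ω σ 0) 1 := by
  have hk := kp_ne h2 h
  have hg := v_pi_lt h2
  have hg0 := v_pi_ne (v := v)
  have hσ2 : σ ^ 2 = 1 := by rcases hσ with rfl | rfl <;> norm_num
  obtain ⟨c1, c2⟩ := conds h2 h hz
  obtain ⟨c3, c4⟩ := conds (L := L) (Ω := Ω) h2 h (OL.of_mem (zero_mem _))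
  have s1 := gs_sq h hk hσ2 c1 c2
  have s0 := gs_sq h hk hσ2 c3 c4
  have e0 : (1 + I) * (Ω * tc 1 / tc m5 + 0) = Ω / 4 := by
    rw [add_zero, w_pi, tc_one, mul_one]
  rw [e0] at s0
  obtain ⟨ha, had⟩ := a_val h2 h
  have hs := sig_x0 h2 h hσ had
  have he1 := h.e1_sq
  change Gs L Ω σ z ^ 2 * (℘[L] (Ω / 2) * x4 L Ω z) = kp L Ω ^ 2 * (x4 L Ω z - σ * ℘[L] (dz Ω)) ^ 2 at s1
  set y := x4 L Ω z with hy
  set a := ℘[L] (Ω / 4) with hadef
  set x0 := ℘[L] (dz Ω) with hx0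
  set e1 := ℘[L] (Ω / 2) with he
  have he10 : e1 ≠ 0 := by rintro h0; rw [h0] at he1; norm_num at he1
  have hg3 : v (1 + I) ^ 3 < 1 := pow_lt_one₀ zero_le hg (by norm_num)
  have hA1 : v (y - a) < 1 := by
    by_contra hc
    push Not at hc
    exact absurd (hd.trans hg3) (not_lt.2 (one_le_pow₀ hc))
  have hyv : v y = 1 := by
    have e : y = (y - a) + a := by ring
    rw [e, Valuation.map_add_eq_of_lt_right v (by rw [ha]; exact hA1), ha]
  have hy0 : y ≠ 0 := by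
    rintro h0; rw [h0, map_zero] at hyv; exact zero_ne_one hyv
  have ha0 : a ≠ 0 := by
    rintro h0; rw [h0, map_zero] at ha; exact zero_ne_one ha
  have hb0 : a - σ * x0 ≠ 0 := by
    intro h0
    rw [h0, map_zero] at hs
    exact pow_ne_zero 3 hg0 (by rw [← hs]; simp)
  have hG0 : Gs L Ω σ 0 ≠ 0 := by
    intro h0
    rw [h0] at s0
    have : kp L Ω ^ 2 * (a - σ * x0) ^ 2 ≠ 0 := mul_ne_zero (pow_ne_zero 2 hk) (pow_ne_zero 2 hb0)
    exact this (by rw [← s0]; ring)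
  refine ⟨hG0, cg_sqrt h2 h ?_⟩
  have hone : v (1 : ℂ) ≤ 1 := by rw [map_one]
  have hbv : v (a - σ * x0) ≠ 0 := (v.ne_zero_iff).2 hb0
  have hrho : Cg v ((y - σ * x0) / (a - σ * x0)) 1 := by
    have hlt : v ((y - σ * x0) / (a - σ * x0) - 1) < 1 := by
      have e : (y - σ * x0) / (a - σ * x0) - 1 = (y - a) / (a - σ * x0) := by
        field_simp
        ring
      rw [e, map_div₀, div_lt_one₀ (zero_lt_iff.2 hbv)]
      by_contra hc
      push Not at hc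
      have h7 : v (a - σ * x0) ^ 2 ≤ v (y - a) ^ 2 := pow_le_pow_left₀ zero_le hc 2
      rw [hs] at h7
      exact absurd hd (not_lt.2 h7)
    refine ⟨?_, hone, hlt⟩
    have e2 : (y - σ * x0) / (a - σ * x0) = ((y - σ * x0) / (a - σ * x0) - 1) + 1 := by ring
    rw [e2]
    exact (v.map_add _ _).trans (max_le hlt.le hone)
  have hay : Cg v (a / y) 1 := by
    have hlt : v (a / y - 1) < 1 := by
      have e : a / y - 1 = -(y - a) / y := by field_simp; ring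
      rw [e, map_div₀, Valuation.map_neg, hyv, div_one]
      exact hA1
    refine ⟨?_, hone, hlt⟩
    rw [map_div₀, ha, hyv, div_one]
  have e : (Gs L Ω σ z / Gs L Ω σ 0) ^ 2 =
      ((y - σ * x0) / (a - σ * x0)) * ((y - σ * x0) / (a - σ * x0)) * (a / y) := by
    have h3 : Gs L Ω σ z ^ 2 * (e1 * y) * (kp L Ω ^ 2 * (a - σ * x0) ^ 2) =
        (kp L Ω ^ 2 * (y - σ * x0) ^ 2) * (Gs L Ω σ 0 ^ 2 * (e1 * a)) := by rw [s1, s0]
    rw [div_pow]
    field_simp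
    have h4 : (Gs L Ω σ z ^ 2 * y * (a - σ * x0) ^ 2) * (kp L Ω ^ 2 * e1) =
        ((y - σ * x0) ^ 2 * a * Gs L Ω σ 0 ^ 2) * (kp L Ω ^ 2 * e1) := by linear_combination h3
    have h5 := mul_right_cancel₀ (mul_ne_zero (pow_ne_zero 2 hk) he10) h4
    linear_combination h5
  rw [e]
  have h6 := (hrho.mul hrho).mul hay
  rwa [mul_one, mul_one] at h6

lemma x4_mem {z : ℂ} (hz : z ∈ L.lattice) : v (x4 L Ω z - ℘[L] (Ω / 4)) ^ 2 < v (1 + I) ^ 3 := by
  have hg0 := v_pi_ne (v := v)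
  have e : x4 L Ω z = ℘[L] (Ω / 4) := by
    unfold x4
    have h1 : (1 + I) * (Ω * tc 1 / tc m5 + z) - Ω / 4 ∈ L.lattice := by
      have e1 : (1 + I) * (Ω * tc 1 / tc m5 + z) - Ω / 4 = tc pi1 * z := by
        rw [mul_add, w_pi, tc_one, tc_pi1]
        ring
      rw [e1]
      exact lat_mul h.lat _ hz
    have h5 := L.weierstrassP_add_coe (Ω / 4) ⟨_, h1⟩
    simp only at h5
    rw [← h5]
    congr 1
    ring
  rw [e, sub_self, map_zero]
  have : (0 : Γ) ^ 2 = 0 := by simp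
  rw [this]
  exact pow_pos (zero_lt_iff.2 hg0) 3

end val

end Run7.h26.QI
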