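import Pool.Agent.Run7.h26.QI.Ly

/-!
The Hecke character of the quadratic twists by `c D`, `c` divisible by `1 + i`.
-/

set_option autoImplicit false
set_option linter.unusedSectionVars false

open Filter Complex
open scoped Topology PeriodPair
open H667R3 hiding sq
open Pool.Agent.TH936.CM Pool.Agent.W192.HK

namespace Run7.h26.QI

open Pool.Agent.Y699 hiding f1 f2 LE f1_hasProd f2_hasProd
open Run7.h26.CN (XX_odd cc_eq cc_eq_zero two2_dvd_four th th_cases th_mul th_one th_ne XT XT_HC XT_apply
  ctd LT_ne)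
open H385 (ZI RQ im1 nrm)
open Pool.Agent.H304R3.HK (tc HC LH bH chi_le)
open Pool.Agent.W164.RC (tc_mul tc_star two2 prim_iff_dvd unit_norm unit_cases)
open Pool.Agent.H304R2.EC.A1 (prim prim_mul prim_cancel prim_one prim_norm_odd prim_star eq_one_of_prim
  norm_def' re_mul' im_mul' eq_of_dvd prim_ne_zero exists_prim)

variable {ι : Type} [DecidableEq ι] {pr : ι → ZI} {ep : ZI → ℤ}

/-- the extension to all odd elements -/
noncomputable def xe (ep : ZI → ℤ) (a : ZI) : ℤ := ep (un a * a)

lemma xe_prim {a : ZI} (ha : prim a) : xe ep a = ep a := by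
  unfold xe
  rw [un_prim ha, one_mul]

lemma xe_mul (he : Sg ep) {a b : ZI} (ha : a.norm % 2 = 1) (hb : b.norm % 2 = 1) :
    xe ep (a * b) = xe ep a * xe ep b := by
  unfold xe
  obtain ⟨u, hu⟩ := exists_Um ha
  obtain ⟨w, hw⟩ := exists_Um hb
  rw [un_mul, un_eq hu, un_eq hw]
  have e : u * w * (a * b) = (u * a) * (w * b) := by ring
  rw [e, he.mul hu.2 hw.2]

lemma xe_ne (he : Sg ep) (a : ZI) : (xe ep a : ℂ) ≠ 0 := by
  rcases he.cs (un a * a) with h | h <;> (unfold xe; rw [h]; norm_num)

/-- the Hecke character -/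
noncomputable def XE (he : Sg ep) (hp : PF pr) (V : Finset ι) : ZI →* ℂ where
  toFun a := (xe ep a : ℂ) * XX hp V a
  map_one' := by
    rw [xe_prim prim_one, he.one, map_one]
    simp
  map_mul' := by
    intro a b
    rw [map_mul]
    by_cases ha : XX hp V a = 0
    · rw [ha]; ring
    · by_cases hb : XX hp V b = 0
      · rw [hb]; ring
      · rw [xe_mul he (XX_odd hp V ha) (XX_odd hp V hb)]
        push_cast
        ring

lemma XE_apply (he : Sg ep) (hp : PF pr) (V : Finset ι) (a : ZI) :
    XE he hp V a = (xe ep a : ℂ) * XX hp V a := rfl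

lemma XE_prim (he : Sg ep) (hp : PF pr) (V : Finset ι) {a : ZI} (ha : prim a) :
    XE he hp V a = (ep a : ℂ) * (ch pr V a : ℂ) := by
  rw [XE_apply, XX_prim hp V ha, xe_prim ha]

/-- the conductor -/
noncomputable def cte (pr : ι → ZI) (V : Finset ι) : ZI := m5 * DD pr V

lemma two2_dvd_m5 : two2 ∣ m5 := ⟨2, m5_two⟩

lemma cop_cte (V : Finset ι) (a : ZI) : IsCoprime a (cte pr V) ↔ IsCoprime a (cnd pr V) := by
  unfold cte cnd
  constructor
  · intro h
    exact h.of_isCoprime_of_dvd_right (mul_dvd_mul_right two2_dvd_m5 _)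
  · intro h
    rw [IsCoprime.mul_right_iff] at h
    have h1 : IsCoprime a (two2 ^ 2 * DD pr V) := (h.1.pow_right).mul_right h.2
    refine h1.of_isCoprime_of_dvd_right (mul_dvd_mul_right ?_ _)
    exact ⟨⟨1, 1⟩, by decide⟩

theorem XE_HC (he : Sg ep) (hp : PF pr) (V : Finset ι) : HC (cte pr V) (XE he hp V) where
  q0 := mul_ne_zero m5_ne (DD_ne hp V)
  per := by
    intro a b hab
    have h1 : cnd pr V ∣ a - b := by
      refine dvd_trans ?_ hab
      exact mul_dvd_mul_right two2_dvd_m5 _
    have h2 : m5 ∣ a - b := (dvd_mul_right _ _).trans hab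
    obtain ⟨t, ht⟩ := h2
    rw [XE_apply, XE_apply, (XX_HC hp V).per a b h1]
    congr 2
    unfold xe
    have h3 : two2 ∣ a - b := two2_dvd_m5.trans ⟨t, ht⟩
    by_cases hu : ∃ u, Um a u
    · obtain ⟨u, hu⟩ := hu
      rw [un_eq hu, un_eq (hu.per h3)]
      have e : u * a = u * b + m5 * (u * t) := by linear_combination u * ht
      rw [e, he.per]
    · have hb : ¬ ∃ u, Um b u := by
        rintro ⟨u, hu'⟩
        exact hu ⟨u, hu'.per (by rw [← neg_sub]; exact (dvd_neg).2 h3)⟩
      have e : ∀ c : ZI, (¬ ∃ u, Um c u) → un c = 0 := by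
        intro c hc
        unfold un
        rw [dif_neg hc]
      rw [e a hu, e b hb, zero_mul, zero_mul]
  supp := by
    intro a
    rw [cop_cte, ← (XX_HC hp V).supp a, XE_apply]
    constructor
    · exact fun h => right_ne_zero_of_mul h
    · exact fun h => mul_ne_zero (xe_ne he a) h
  nrm := by
    intro a ha
    rw [cop_cte] at ha
    rw [XE_apply, norm_mul, (XX_HC hp V).nrm a ha, mul_one]
    unfold xe
    rcases he.cs (un a * a) with h | h <;> rw [h] <;> simp
  unit := by
    rw [XE_apply, (XX_HC hp V).unit]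
    have h1 : Um ⟨0, 1⟩ ⟨0, -1⟩ := by
      refine ⟨by decide, ?_⟩
      have : (⟨0, -1⟩ : ZI) * ⟨0, 1⟩ = 1 := by decide
      rw [this]
      exact prim_one
    have h2 : xe ep ⟨0, 1⟩ = 1 := by
      unfold xe
      rw [un_eq h1]
      have e : (⟨0, -1⟩ : ZI) * ⟨0, 1⟩ = 1 := by decide
      rw [e, he.one]
    rw [h2]
    simp
  prim := by
    intro d hd hnd
    by_cases hB : ∃ i ∈ V, ¬ pr i ∣ d
    · obtain ⟨i, hi, hid⟩ := hB
      -- the cofactor
      have hDi : DD pr V = pr i * DD pr (V.erase i) := by
        unfold DD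
        exact (Finset.mul_prod_erase V pr hi).symm
      set m := m5 * DD pr (V.erase i) with hm
      have hcop : IsCoprime (pr i) m := by
        rw [hm]
        refine IsCoprime.mul_right ?_ ?_
        · have h5 : IsCoprime (pr i) (2 : ZI) :=
            ((hp.pp i).pr.irreducible.coprime_iff_not_dvd).2 (not_dvd_two (hp.pp i))
          exact (h5.pow_right (n := 5)).of_isCoprime_of_dvd_right ⟨⟨4, -4⟩, by decide⟩
        · unfold DD
          rw [IsCoprime.prod_right_iff]
          intro j hj
          exact (hp.pp i).cop (hp.pp j) fun h => (Finset.mem_erase.1 hj).1 (hp.inj h).symm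
      have hdm : d ∣ m := by
        have h1 : d ∣ pr i * m := by
          have e : pr i * m = cte pr V := by
            unfold cte
            rw [hDi, hm]
            ring
          rw [e]; exact hd
        have h2 : IsCoprime d (pr i) :=
          (((hp.pp i).pr.irreducible.coprime_iff_not_dvd).2 hid).symm
        exact h2.dvd_of_dvd_mul_left h1
      obtain ⟨b, hb⟩ := exists_nonres (hp.pp i)
      obtain ⟨x, y, hxy⟩ := hcop
      -- a = 1 mod m, a = b mod pr i
      set a : ZI := x * pr i + b * (y * m) with ha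
      have ha1 : m ∣ a - 1 := ⟨b * y - y, by rw [ha]; linear_combination hxy⟩
      have ha2 : pr i ∣ a - b := ⟨x - b * x, by rw [ha]; linear_combination b * hxy⟩
      have ha4 : m5 ∣ a - 1 := (dvd_mul_right _ _).trans ha1
      have hpa : prim a := by
        rw [prim_iff_dvd]
        exact two2_dvd_m5.trans ha4
      have hth : ep a = 1 := by
        obtain ⟨t, ht⟩ := ha4
        have e : a = 1 + m5 * t := by linear_combination ht
        rw [e, he.per, he.one]
      have hch : ch pr V a = -1 := by
        unfold ch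
        rw [← Finset.mul_prod_erase V _ hi, qr_per ha2, hb, Finset.prod_eq_one, mul_one]
        intro j hj
        have h3 : pr j ∣ a - 1 := by
          refine (dvd_DD hj).trans ((dvd_mul_left _ _).trans ha1)
        rw [qr_per h3, qr_one (hp.pp j)]
      refine ⟨a, ?_, hdm.trans ha1, ?_⟩
      · rw [cop_cte, cop_cnd hp V]
        refine ⟨prim_norm_odd hpa, fun j hj hd' => ?_⟩
        have : ch pr V a = 0 := Finset.prod_eq_zero hj (qr_zero_iff.2 hd')
        rw [hch] at this
        norm_num at this
      · rw [XE_prim he hp V hpa, hch, hth]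
        norm_num
    · push Not at hB
      -- d divides `two2 D`
      have hD1 : DD pr V ∣ d := by
        unfold DD
        refine Finset.prod_dvd_of_coprime ?_ hB
        intro i _ j _ hij
        exact (hp.pp i).cop (hp.pp j) fun h => hij (hp.inj h)
      obtain ⟨e, hee⟩ := hD1
      have he2 : e ∣ m5 := by
        unfold cte at hd
        rw [hee, mul_comm m5] at hd
        exact (mul_dvd_mul_iff_left (DD_ne hp V)).1 hd
      have he3 : ¬ m5 ∣ e := by
        intro h
        apply hnd
        unfold cte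
        rw [hee, mul_comm m5]
        exact mul_dvd_mul_left _ h
      have he4 : e ∣ 4 := by
        have e4 : m5 = pi1 ^ 5 * ⟨-1, 0⟩ := by decide
        rw [e4] at he2
        have hu : IsUnit (⟨-1, 0⟩ : ZI) := IsUnit.of_mul_eq_one ⟨-1, 0⟩ (by decide)
        have he5 : e ∣ pi1 ^ 5 := (hu.dvd_mul_right).1 he2
        obtain ⟨k, hk, hk2⟩ := (dvd_prime_pow pi1_prime 5).1 he5
        have hk3 : k ≠ 5 := by
          rintro rfl
          apply he3
          rw [e4]
          exact (hu.mul_right_dvd).2 hk2.symm.dvd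
        have hk4 : pi1 ^ k ∣ pi1 ^ 4 := pow_dvd_pow _ (by omega)
        have h2 : pi1 ^ 4 ∣ (4 : ZI) := ⟨-1, by decide⟩
        exact hk2.dvd.trans (hk4.trans h2)
      have hDp := DD_prim hp V
      set a : ZI := 1 + 4 * DD pr V with ha
      have hpa : prim a := by
        rw [prim_iff_dvd]
        have h4 : two2 ∣ (4 : ZI) := two2_dvd_four
        have e4 : a - 1 = 4 * DD pr V := by rw [ha]; ring
        rw [e4]
        exact h4.mul_right _
      have hch : ch pr V a = 1 := by
        rw [← ch_one hp V]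
        apply ch_per
        rw [ha]
        exact ⟨4, by ring⟩
      have hth : ep a = -1 := by
        have h5 : m5 ∣ a - 5 := by
          rw [m5_dvd]
          obtain ⟨q1, q2⟩ := prim_lin hDp
          have r1 : (a - 5).re = 4 * (DD pr V).re - 4 := by
            rw [ha, Zsqrtd.re_sub, Zsqrtd.re_add, re_mul']
            have e1 : (4 : ZI).re = 4 := rfl
            have e2 : (4 : ZI).im = 0 := rfl
            have e3 : (1 : ZI).re = 1 := rfl
            have e5 : (5 : ZI).re = 5 := rfl
            rw [e1, e2, e3, e5]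
            ring
          have r2 : (a - 5).im = 4 * (DD pr V).im := by
            rw [ha, Zsqrtd.im_sub, Zsqrtd.im_add, im_mul']
            have e1 : (4 : ZI).re = 4 := rfl
            have e2 : (4 : ZI).im = 0 := rfl
            have e3 : (1 : ZI).im = 0 := rfl
            have e5 : (5 : ZI).im = 0 := rfl
            rw [e1, e2, e3, e5]
            ring
          rw [r1, r2]
          omega
        obtain ⟨t, ht⟩ := h5
        have e5 : a = 5 + m5 * t := by linear_combination ht
        rw [e5, he.per, he.five]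
      refine ⟨a, ?_, ?_, ?_⟩
      · rw [cop_cte, cop_cnd hp V]
        refine ⟨prim_norm_odd hpa, fun j hj hd' => ?_⟩
        have : ch pr V a = 0 := Finset.prod_eq_zero hj (qr_zero_iff.2 hd')
        rw [hch] at this
        norm_num at this
      · obtain ⟨f, hf⟩ := he4
        rw [hee]
        exact ⟨f, by rw [ha]; linear_combination (DD pr V) * hf⟩
      · rw [XE_prim he hp V hpa, hch, hth]
        norm_num

theorem sum_XE (he : Sg ep) (hp : PF pr) (V : Finset ι) {δ : ℝ} (hδ : 0 < δ) :
    ∑' a : ZI, XE he hp V a * (starRingEnd ℂ) (fd δ (tc a)) =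
      4 * (starRingEnd ℂ) (RS (ce ep pr V ∅) δ) := by
  classical
  obtain ⟨L, Ω, hGL⟩ := exists_lat
  have H := XE_HC he hp V
  have hs : Summable (fun a : ZI => XE he hp V a * (starRingEnd ℂ) (fd δ (tc a))) := by
    refine Summable.of_norm_bounded (summ_tc hGL.lat hδ).norm fun a => ?_
    rw [norm_mul, RCLike.norm_conj]
    exact mul_le_of_le_one_left (norm_nonneg _) (chi_le _ _ H a)
  rw [sum_units hs]
  · congr 1
    unfold RS
    rw [Complex.conj_tsum]
    refine tsum_congr fun a => ?_
    by_cases ha : prim a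
    · have h1 : ce ep pr V ∅ a = (ep a : ℂ) * (ch pr V a : ℂ) := by
        unfold ce
        rw [cc_eq ⟨ha, by simp⟩]
      rw [if_pos ha, XE_prim he hp V ha, map_mul, h1]
      congr 1
      simp
    · have h1 : ce ep pr V ∅ a = 0 := by
        unfold ce
        rw [cc_eq_zero (fun h => ha h.1), mul_zero]
      rw [if_neg ha, h1, zero_mul, map_zero]
  · intro a
    have h1 : XE he hp V im1 = -I := H.unit
    rw [map_mul, h1, tc_mul, tc_im1, fd_mul]
    have h2 : Complex.normSq I = 1 := by simp
    rw [h2, mul_one, map_mul, map_inv₀, Complex.conj_I]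
    have h3 : (-I : ℂ)⁻¹ = I := by
      rw [inv_neg, Complex.inv_I, neg_neg]
    rw [h3]
    linear_combination (-(XE he hp V a * (starRingEnd ℂ) (fd δ (tc a)))) * I_sq
  · intro a ha
    rw [XE_apply, XX_apply, un_even ha, tc_zero]
    simp

/-- the central value is the conjugate of the limit -/
theorem LEE_eq (he : Sg ep) (hp : PF pr) (V : Finset ι) {l : ℂ} (hl : Tendsto (RS (ce ep pr V ∅)) (𝓝[>] 0) (𝓝 l)) :
    LH (XE he hp V) (1 / 2) = (starRingEnd ℂ) l := by
  have h1 := center (XE_HC he hp V)
  have h2 : Tendsto (fun δ : ℝ => 4 * (starRingEnd ℂ) (RS (ce ep pr V ∅) (Real.pi * δ))) (𝓝[>] 0)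
      (𝓝 (4 * (starRingEnd ℂ) l)) := by
    have h3 := tendsto_scale hl Real.pi_pos
    have h4 := (Complex.continuous_conj.tendsto l).comp h3
    have h5 := h4.const_mul 4
    refine h5.congr fun δ => ?_
    simp only [Function.comp_apply]
    rw [mul_comm δ]
  have h3 := tendsto_nhds_unique h1 (h2.congr' (by
    filter_upwards [self_mem_nhdsWithin] with δ (hδ : 0 < δ)
    exact (sum_XE he hp V (by positivity)).symm))
  exact mul_left_cancel₀ (by norm_num) h3

variable [Fintype ι]

/-- **non-vanishing of the central value** -/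
theorem LEE_ne (he : Sg ep) (hp : PF pr) {V : Finset ι}
    (hker : ∀ z : ι → ZMod 2, (∀ v ∈ V, ∑ u ∈ V, em pr u v * (z u + z v) + we ep pr v * z v = 0) →
      ∀ v ∈ V, z v = 0) : LH (XE he hp V) (1 / 2) ≠ 0 := by
  obtain ⟨L, Ω, hGL⟩ := exists_lat
  obtain ⟨l, hl⟩ := exists_lim_ce (ι := ι) he hGL hp V
  rw [LEE_eq he hp V hl]
  exact (map_ne_zero _).2 (lim_ce_ne he hGL hp hker hl)

end Run7.h26.QI
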