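import Pool.Agent.Run7.h26.QI.Ep

/-!
The regularized sums as sums of Eisenstein series at division points.
-/

set_option autoImplicit false
set_option linter.unusedSectionVars false

open Filter Complex
open scoped Topology PeriodPair
open H667R3 hiding sq
open Pool.Agent.TH936.CM Pool.Agent.W192.HK

namespace Run7.h26.QI

open Pool.Agent.Y699
open H385 (ZI RQ im1 nrm)
open Pool.Agent.H304R3.HK (tc)
open Pool.Agent.W164.RC (tc_mul tc_star two2 prim_iff_dvd)
open Pool.Agent.H304R2.EC.A1 (prim prim_mul prim_cancel prim_one prim_norm_odd prim_star eq_one_of_prim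
  norm_def' re_mul' im_mul' eq_of_dvd prim_ne_zero)

variable {L : PeriodPair} {Ω : ℂ} {ι : Type} [DecidableEq ι] {pr : ι → ZI} {ep : ZI → ℤ}

lemma m5_ne : m5 ≠ 0 := by decide

lemma tc_m5 : tc m5 = 4 * (1 + I) := by
  unfold tc m5
  push_cast
  ring

lemma m5_eq : m5 = 4 * pi1 := by decide

lemma m5_two : m5 = two2 * 2 := by decide

lemma tc_m5_ne : tc m5 ≠ 0 := tc_ne m5_ne

/-- divisibility by `4 (1 + i)` -/
lemma m5_dvd {x : ZI} : m5 ∣ x ↔ x.re % 4 = 0 ∧ x.im % 4 = 0 ∧ (x.re + x.im) % 8 = 0 := by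
  constructor
  · rintro ⟨c, rfl⟩
    rw [re_mul', im_mul']
    have e1 : m5.re = 4 := rfl
    have e2 : m5.im = 4 := rfl
    rw [e1, e2]
    omega
  · rintro ⟨h1, h2, h3⟩
    refine ⟨⟨(x.re + x.im) / 8, (x.im - x.re) / 8⟩, ?_⟩
    have e1 : m5.re = 4 := rfl
    have e2 : m5.im = 4 := rfl
    apply Zsqrtd.ext
    · rw [re_mul', e1, e2]
      dsimp only
      omega
    · rw [im_mul', e1, e2]
      dsimp only
      omega

lemma prim_lin {a : ZI} (h : prim a) : a.im % 2 = 0 ∧ (a.re + a.im) % 4 = 1 := by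
  obtain ⟨x, hx⟩ := (prim_iff_dvd a).1 h
  have r1 := congrArg Zsqrtd.re hx
  have r2 := congrArg Zsqrtd.im hx
  rw [re_mul', Zsqrtd.re_sub] at r1
  rw [im_mul', Zsqrtd.im_sub] at r2
  have e1 : two2.re = 2 := rfl
  have e2 : two2.im = 2 := rfl
  rw [e1, e2] at r1 r2
  have e3 : (1 : ZI).re = 1 := rfl
  have e4 : (1 : ZI).im = 0 := rfl
  rw [e3] at r1
  rw [e4] at r2
  omega

lemma prim_m5 {a : ZI} (ha : prim a) (t : ZI) : prim (a + m5 * t) := by
  rw [prim_iff_dvd] at ha ⊢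
  have e : a + m5 * t - 1 = (a - 1) + m5 * t := by ring
  rw [e]
  refine dvd_add ha (Dvd.dvd.mul_right ?_ _)
  exact ⟨2, m5_two⟩

/-- the classes of the primary elements modulo `4 (1 + i)` -/
def cl : Fin 4 → ZI := ![1, 5, ⟨3, 2⟩, ⟨-1, 2⟩]

lemma prim_cl (k : Fin 4) : prim (cl k) := by
  fin_cases k <;> (unfold cl prim; decide)

lemma cl_split {D a : ZI} (hD : prim D) (ha : prim a) : ∃! k : Fin 4, m5 ∣ a - D * cl k := by
  obtain ⟨h1, h2⟩ := prim_lin hD
  obtain ⟨h3, h4⟩ := prim_lin ha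
  have key : ∀ k : Fin 4, m5 ∣ a - D * cl k ↔
      (a.re - (D.re * (cl k).re - D.im * (cl k).im)) % 4 = 0 ∧
      (a.im - (D.re * (cl k).im + D.im * (cl k).re)) % 4 = 0 ∧
      (a.re - (D.re * (cl k).re - D.im * (cl k).im) +
        (a.im - (D.re * (cl k).im + D.im * (cl k).re))) % 8 = 0 := by
    intro k
    rw [m5_dvd, Zsqrtd.re_sub, Zsqrtd.im_sub, re_mul', im_mul']
  have k0 := key 0
  have k1 := key 1
  have k2 := key 2
  have k3 := key 3
  have e0 : (cl 0).re = 1 ∧ (cl 0).im = 0 := ⟨rfl, rfl⟩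
  have e1 : (cl 1).re = 5 ∧ (cl 1).im = 0 := ⟨rfl, rfl⟩
  have e2 : (cl 2).re = 3 ∧ (cl 2).im = 2 := ⟨rfl, rfl⟩
  have e3 : (cl 3).re = -1 ∧ (cl 3).im = 2 := ⟨rfl, rfl⟩
  rw [e0.1, e0.2] at k0
  rw [e1.1, e1.2] at k1
  rw [e2.1, e2.2] at k2
  rw [e3.1, e3.2] at k3
  have hcases : (m5 ∣ a - D * cl 0 ∧ ¬ m5 ∣ a - D * cl 1 ∧ ¬ m5 ∣ a - D * cl 2 ∧ ¬ m5 ∣ a - D * cl 3) ∨
      (¬ m5 ∣ a - D * cl 0 ∧ m5 ∣ a - D * cl 1 ∧ ¬ m5 ∣ a - D * cl 2 ∧ ¬ m5 ∣ a - D * cl 3) ∨
      (¬ m5 ∣ a - D * cl 0 ∧ ¬ m5 ∣ a - D * cl 1 ∧ m5 ∣ a - D * cl 2 ∧ ¬ m5 ∣ a - D * cl 3) ∨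
      (¬ m5 ∣ a - D * cl 0 ∧ ¬ m5 ∣ a - D * cl 1 ∧ ¬ m5 ∣ a - D * cl 2 ∧ m5 ∣ a - D * cl 3) := by
    rw [k0, k1, k2, k3]
    omega
  have huniq : ∀ k : Fin 4, m5 ∣ a - D * cl k → (∀ j : Fin 4, j ≠ k → ¬ m5 ∣ a - D * cl j) →
      ∃! k : Fin 4, m5 ∣ a - D * cl k := by
    intro k hk hj
    exact ⟨k, hk, fun j hj' => by_contra fun hne => hj j hne hj'⟩
  rcases hcases with ⟨a0, a1, a2, a3⟩ | ⟨a0, a1, a2, a3⟩ | ⟨a0, a1, a2, a3⟩ | ⟨a0, a1, a2, a3⟩
  · refine huniq 0 a0 fun j hj => ?_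
    fin_cases j
    · exact absurd rfl hj
    · exact a1
    · exact a2
    · exact a3
  · refine huniq 1 a1 fun j hj => ?_
    fin_cases j
    · exact a0
    · exact absurd rfl hj
    · exact a2
    · exact a3
  · refine huniq 2 a2 fun j hj => ?_
    fin_cases j
    · exact a0
    · exact a1
    · exact absurd rfl hj
    · exact a3
  · refine huniq 3 a3 fun j hj => ?_
    fin_cases j
    · exact a0
    · exact a1
    · exact a2
    · exact absurd rfl hj

lemma ke_shift (he : Sg ep) (hp : PF pr) (V : Finset ι) {u : ZI} (hu : prim u) (t : ZI) :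
    ke ep pr V (DD pr V * u + m5 * t) = (ep (DD pr V) : ℂ) * (ep u : ℂ) * C1 pr V (m5 * t) := by
  have h1 : prim (DD pr V * u + m5 * t) := prim_m5 (prim_mul (DD_prim hp V) hu) t
  have h2 : (∀ i ∈ V, qr (pr i) (DD pr V * u + m5 * t) = 1) ↔ ∀ i ∈ V, qr (pr i) (m5 * t) = 1 := by
    refine forall₂_congr fun i hi => ?_
    have h3 : qr (pr i) (DD pr V * u + m5 * t) = qr (pr i) (m5 * t) := by
      apply qr_per
      have e : DD pr V * u + m5 * t - m5 * t = DD pr V * u := by ring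
      rw [e]
      exact (dvd_DD hi).mul_right _
    rw [h3]
  unfold ke C1
  rw [he.per, he.mul (DD_prim hp V) hu]
  by_cases h : ∀ i ∈ V, qr (pr i) (m5 * t) = 1
  · rw [if_pos ⟨h1, h2.2 h⟩, if_pos h]
    push_cast
    ring
  · rw [if_neg (fun h' => h (h2.1 h'.2)), if_neg h, mul_zero]

lemma C1_norm (V : Finset ι) (t : ZI) : ‖C1 pr V t‖ ≤ 1 := by
  rcases C1_cases (pr := pr) V t with h | ⟨h, -⟩ <;> rw [h] <;> simp

/-- the sum over one class modulo `4 (1 + i)` -/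
noncomputable def RU (pr : ι → ZI) (V : Finset ι) (u : ZI) (δ : ℝ) : ℂ :=
  ∑' t : ZI, C1 pr V (m5 * t) * fd δ (tc (DD pr V * u + m5 * t))

lemma inj_m5 (a : ZI) : Function.Injective (fun t : ZI => a + m5 * t) := by
  intro x y hxy
  have h1 : a + m5 * x = a + m5 * y := hxy
  have h2 : m5 * x = m5 * y := by linear_combination h1
  exact mul_left_cancel₀ m5_ne h2

theorem RU_eq (h : IsLat L RG Ω) (hp : PF pr) (V : Finset ι) [Fintype (RQ (DD pr V))] (u : ZI) {δ : ℝ}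
    (hδ : 0 < δ) : RU pr V u δ = Ω / (tc (DD pr V) * tc m5) *
      ∑ q : RQ (DD pr V), C1 pr V (m5 * q.out) *
        EG Ω (δ * Complex.normSq (tc (DD pr V) * tc m5 / Ω)) (Ω * tc u / tc m5 + zq Ω (DD pr V) q.out) := by
  set D := DD pr V with hD
  have hD0 : D ≠ 0 := DD_ne hp V
  have hDc := tc_ne hD0
  have hΩ := h.ne
  have hm := tc_m5_ne
  have hs1 : Summable (fun t : ZI => C1 pr V (m5 * t) * fd δ (tc (D * u + m5 * t))) := by
    have h1 := (summ_tc h hδ).comp_injective (inj_m5 (D * u))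
    refine Summable.of_norm_bounded h1.norm fun t => ?_
    rw [norm_mul]
    exact mul_le_of_le_one_left (norm_nonneg _) (C1_norm V _)
  set c : ℂ := tc D * tc m5 / Ω with hc
  have hc0 : c ≠ 0 := div_ne_zero (mul_ne_zero hDc hm) hΩ
  have hs2 : Summable (fun p : RQ D × ZI =>
      C1 pr V (m5 * prt' D hD0 p) * fd δ (tc (D * u + m5 * prt' D hD0 p))) :=
    ((prt' D hD0).summable_iff (f := fun t => C1 pr V (m5 * t) * fd δ (tc (D * u + m5 * t)))).2 hs1
  have e1 : RU pr V u δ = ∑' t : ZI, C1 pr V (m5 * t) * fd δ (tc (D * u + m5 * t)) := rfl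
  rw [e1, ← (prt' D hD0).tsum_eq, hs2.tsum_prod' (fun q => hs2.prod_factor q), tsum_fintype,
    Finset.mul_sum]
  refine Finset.sum_congr (by ext; simp) fun q _ => ?_
  unfold EG
  rw [← tsum_mul_left, ← tsum_mul_left]
  refine tsum_congr fun b => ?_
  have e2 : C1 pr V (m5 * prt' D hD0 (q, b)) = C1 pr V (m5 * q.out) := by
    apply C1_per
    rw [prt'_apply]
    exact ⟨m5 * b, by ring⟩
  have e3 : tc (D * u + m5 * prt' D hD0 (q, b)) =
      c * (Ω * tc u / tc m5 + zq Ω D q.out + Ω * tc b) := by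
    rw [prt'_apply, tc_add, tc_mul, tc_mul, tc_add, tc_mul, hc]
    unfold zq
    field_simp
    ring
  rw [e2, e3, fd_mul, hc, inv_div]
  ring

theorem RS_ke (he : Sg ep) (h : IsLat L RG Ω) (hp : PF pr) (V : Finset ι) {δ : ℝ} (hδ : 0 < δ) :
    RS (ke ep pr V) δ = (ep (DD pr V) : ℂ) * ∑ k : Fin 4, (ep (cl k) : ℂ) * RU pr V (cl k) δ := by
  classical
  set D := DD pr V with hD
  have hDp : prim D := DD_prim hp V
  have hs := summ_bd h hδ (ke_bd (pr := pr) he V)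
  set f : Fin 4 → ZI → ℂ := fun k a => if m5 ∣ a - D * cl k then ke ep pr V a * fd δ (tc a) else 0
    with hf
  have hsk : ∀ k, Summable (f k) := by
    intro k
    refine Summable.of_norm_bounded hs.norm fun a => ?_
    rw [hf]
    dsimp only
    split_ifs
    · exact le_rfl
    · rw [norm_zero]; exact norm_nonneg _
  have e : ∀ a, ke ep pr V a * fd δ (tc a) = ∑ k : Fin 4, f k a := by
    intro a
    by_cases ha : prim a
    · obtain ⟨k, hk, hk2⟩ := cl_split hDp ha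
      rw [Finset.sum_eq_single k]
      · rw [hf]
        dsimp only
        rw [if_pos hk]
      · intro j _ hj
        rw [hf]
        dsimp only
        rw [if_neg fun h' => hj (hk2 j h')]
      · intro h'
        exact absurd (Finset.mem_univ k) h'
    · have h1 : ke ep pr V a = 0 := by
        unfold ke
        rw [if_neg (fun h => ha h.1)]
      rw [h1, zero_mul]
      symm
      refine Finset.sum_eq_zero fun k _ => ?_
      rw [hf]
      dsimp only
      rw [h1, zero_mul, ite_self]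
  have key : ∀ k : Fin 4, ∑' a, f k a = (ep D : ℂ) * (ep (cl k) : ℂ) * RU pr V (cl k) δ := by
    intro k
    unfold RU
    rw [← tsum_mul_left, ← (inj_m5 (D * cl k)).tsum_eq]
    · refine tsum_congr fun t => ?_
      rw [hf]
      dsimp only
      rw [if_pos ⟨t, by ring⟩, ke_shift he hp V (prim_cl k) t]
      ring
    · intro a ha
      rw [Function.mem_support] at ha
      by_contra hc
      apply ha
      rw [hf]
      dsimp only
      rw [if_neg]
      rintro ⟨t, ht⟩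
      exact hc ⟨t, by
        show D * cl k + m5 * t = a
        rw [← ht]; ring⟩
  unfold RS
  rw [tsum_congr e, Summable.tsum_finsetSum (fun k _ => hsk k), Finset.mul_sum]
  refine Finset.sum_congr rfl fun k _ => ?_
  rw [key k]
  ring

end Run7.h26.QI
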